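import Pool.Agent.H60.Div2

set_option autoImplicit false

open MeasureTheory Complex MvPolynomial
open scoped ContDiff

noncomputable section

namespace Pool.Agent.H60

variable {n : ℕ}

/-- iterated partial derivatives along a list of indices -/
def pdl (l : List (Fin n)) (p : MvPolynomial (Fin n) ℂ) : MvPolynomial (Fin n) ℂ :=
  l.foldr (fun j q => pderiv j q) p

/-- the product of `-∂_j r` along a list -/
def prl (r : V n → ℝ) (l : List (Fin n)) (z : V n) : ℂ :=
  (l.map fun j => - wd j (rc r) z).prod

lemma contDiff_prl {r : V n → ℝ} (hr : ContDiff ℝ ∞ r) (l : List (Fin n)) :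
    ContDiff ℝ ∞ (prl r l) := by
  induction l with
  | nil =>
    have : prl r [] = fun _ => 1 := by funext z; simp [prl]
    rw [this]; exact contDiff_const
  | cons j l ih =>
    have : prl r (j :: l) = fun z => - wd j (rc r) z * prl r l z := by
      funext z; simp [prl]
    rw [this]
    exact (contDiff_wd j (contDiff_rc hr)).neg.mul ih

lemma adj_list {r : V n → ℝ} (hr : ContDiff ℝ ∞ r) (hK : CptPos r) (l : List (Fin n)) :
    ∀ (k : ℕ), l.length + 1 ≤ k → ∀ (g : V n → ℂ), ContDiff ℝ ∞ g →
    ∃ E : V n → ℂ, Continuous E ∧ ∀ U H : MvPolynomial (Fin n) ℂ,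
      ∫ z, rp r k z * (ev (pdl l U) z * cj (ev H) z * g z)
        = ∫ z, (ev U z * cj (ev H) z) *
          (rp r (k - l.length) z * ((k.descFactorial l.length : ℕ) * g z * prl r l z)
            + rp r (k - l.length + 1) z * E z) := by
  induction l with
  | nil =>
    intro k hk g hg
    refine ⟨fun _ => 0, continuous_const, fun U H => ?_⟩
    refine integral_congr_ae (Filter.Eventually.of_forall fun z => ?_)
    simp [pdl, prl]
    ring
  | cons j l ih =>
    intro k hk g hg
    simp only [List.length_cons] at hk
    obtain ⟨E1, hE1, hE1'⟩ := ih k (by omega) (fun z => - wd j g z) (contDiff_wd j hg).neg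
    obtain ⟨E2, hE2, hE2'⟩ := ih (k - 1) (by omega)
      (fun z => - ((k : ℂ) * wd j (rc r) z * g z))
      ((contDiff_const.mul (contDiff_wd j (contDiff_rc hr))).mul hg).neg
    refine ⟨fun z => E2 z + (k.descFactorial l.length : ℕ) * (- wd j g z) * prl r l z
      + rp r 1 z * E1 z, ?_, fun U H => ?_⟩
    · exact (hE2.add ((continuous_const.mul (contDiff_wd j hg).continuous.neg).mul
        (contDiff_prl hr l).continuous)).add ((continuous_rp hr 1).mul hE1)
    have hU : ContDiff ℝ ∞ (ev (pdl l U)) := contDiff_ev _
    have hH : ContDiff ℝ ∞ (cj (ev H)) := contDiff_cj (contDiff_ev _)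
    have h1 := ibp hr hK k (by omega) j (g := fun z => ev (pdl l U) z * cj (ev H) z * g z)
      ((hU.mul hH).mul hg)
    have h2 : ∀ z, wd j (fun z => ev (pdl l U) z * cj (ev H) z * g z) z
        = ev (pdl (j :: l) U) z * cj (ev H) z * g z
          + ev (pdl l U) z * cj (ev H) z * wd j g z := by
      intro z
      rw [wd_mul j ((hU.mul hH).differentiable (by simp) z) (hg.differentiable (by simp) z),
        wd_mul j (hU.differentiable (by simp) z) (hH.differentiable (by simp) z), wd_ev,
        wd_cj_ev]
      simp [pdl]
    simp only [h2] at h1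
    have i1 : Integrable (fun z => rp r k z * (ev (pdl (j :: l) U) z * cj (ev H) z * g z)) :=
      integrable_rp_mul hr hK _ (by omega)
        (((contDiff_ev _).mul hH).mul hg).continuous
    have i2 : Integrable (fun z => rp r k z * (ev (pdl l U) z * cj (ev H) z * wd j g z)) :=
      integrable_rp_mul hr hK _ (by omega)
        ((hU.mul hH).mul (contDiff_wd j hg)).continuous
    have h3 : ∫ z, rp r k z * (ev (pdl (j :: l) U) z * cj (ev H) z * g z
          + ev (pdl l U) z * cj (ev H) z * wd j g z)
        = (∫ z, rp r k z * (ev (pdl (j :: l) U) z * cj (ev H) z * g z))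
          + ∫ z, rp r k z * (ev (pdl l U) z * cj (ev H) z * wd j g z) := by
      rw [← integral_add i1 i2]
      refine integral_congr_ae (Filter.Eventually.of_forall fun z => ?_)
      simp only
      ring
    rw [h3] at h1
    have h4 : ∫ z, rp r k z * (ev (pdl l U) z * cj (ev H) z * wd j g z)
        = - ∫ z, rp r k z * (ev (pdl l U) z * cj (ev H) z * (- wd j g z)) := by
      rw [← integral_neg]
      refine integral_congr_ae (Filter.Eventually.of_forall fun z => ?_)
      simp only
      ring
    have h5 : ∫ z, rp r (k - 1) z * ((k : ℂ) * wd j (rc r) z *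
          (ev (pdl l U) z * cj (ev H) z * g z))
        = - ∫ z, rp r (k - 1) z * (ev (pdl l U) z * cj (ev H) z *
          (- ((k : ℂ) * wd j (rc r) z * g z))) := by
      rw [← integral_neg]
      refine integral_congr_ae (Filter.Eventually.of_forall fun z => ?_)
      simp only
      ring
    rw [h4, h5, hE1' U H, hE2' U H, neg_neg] at h1
    have h6 : ∫ z, rp r k z * (ev (pdl (j :: l) U) z * cj (ev H) z * g z)
        = (∫ z, (ev U z * cj (ev H) z) *
          (rp r (k - l.length) z * ((k.descFactorial l.length : ℕ) * (- wd j g z) * prl r l z)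
            + rp r (k - l.length + 1) z * E1 z))
        + ∫ z, (ev U z * cj (ev H) z) *
          (rp r (k - 1 - l.length) z * (((k - 1).descFactorial l.length : ℕ)
            * (- ((k : ℂ) * wd j (rc r) z * g z)) * prl r l z)
            + rp r (k - 1 - l.length + 1) z * E2 z) := by
      linear_combination h1
    rw [h6, ← integral_add]
    · refine integral_congr_ae (Filter.Eventually.of_forall fun z => ?_)
      simp only
      have e1 : k - (l.length + 1) = k - 1 - l.length := by omega
      have e2 : k - 1 - l.length + 1 = k - l.length := by omega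
      have e3 : (k.descFactorial (l.length + 1) : ℕ) = k * (k - 1).descFactorial l.length := by
        obtain ⟨k', rfl⟩ : ∃ k', k = k' + 1 := ⟨k - 1, by omega⟩
        rw [Nat.succ_descFactorial_succ]
        simp
      have e4 : rp r (k - l.length + 1) z = rp r (k - l.length) z * rp r 1 z := by
        rw [rp_mul]
      have e5 : prl r (j :: l) z = - wd j (rc r) z * prl r l z := by simp [prl]
      simp only [List.length_cons]
      rw [e1, e2, e3, e4, e5]
      push_cast
      ring
    · have : (fun z => (ev U z * cj (ev H) z) *
          (rp r (k - l.length) z * ((k.descFactorial l.length : ℕ) * (- wd j g z) * prl r l z)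
            + rp r (k - l.length + 1) z * E1 z))
          = fun z => rp r (k - l.length) z * ((ev U z * cj (ev H) z) *
          ((k.descFactorial l.length : ℕ) * (- wd j g z) * prl r l z
            + rp r 1 z * E1 z)) := by
        funext z
        rw [← rp_mul r (k - l.length) 1 z]
        ring
      rw [this]
      refine integrable_rp_mul hr hK _ (by omega) ?_
      exact ((contDiff_ev U).mul hH).continuous.mul
        (((continuous_const.mul (contDiff_wd j hg).continuous.neg).mul
          (contDiff_prl hr l).continuous).add ((continuous_rp hr 1).mul hE1))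
    · have : (fun z => (ev U z * cj (ev H) z) *
          (rp r (k - 1 - l.length) z * (((k - 1).descFactorial l.length : ℕ)
            * (- ((k : ℂ) * wd j (rc r) z * g z)) * prl r l z)
            + rp r (k - 1 - l.length + 1) z * E2 z))
          = fun z => rp r (k - 1 - l.length) z * ((ev U z * cj (ev H) z) *
          (((k - 1).descFactorial l.length : ℕ)
            * (- ((k : ℂ) * wd j (rc r) z * g z)) * prl r l z
            + rp r 1 z * E2 z)) := by
        funext z
        rw [← rp_mul r (k - 1 - l.length) 1 z]
        ring
      rw [this]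
      refine integrable_rp_mul hr hK _ (by omega) ?_
      exact ((contDiff_ev U).mul hH).continuous.mul
        (((continuous_const.mul ((continuous_const.mul
          (contDiff_wd j (contDiff_rc hr)).continuous).mul hg.continuous).neg).mul
          (contDiff_prl hr l).continuous).add ((continuous_rp hr 1).mul hE2))

end Pool.Agent.H60
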