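import Pool.Agent.H60.Mean

set_option autoImplicit false

open MeasureTheory Complex MvPolynomial
open scoped ContDiff

noncomputable section

namespace Pool.Agent.H60

variable {n : ℕ}

lemma exists_ball {r : V n → ℝ} (hr : ContDiff ℝ ∞ r) {δ : ℝ} (hδ : 0 < δ) {p : V n}
    (hp : δ ≤ r p) : ∃ ρ : ℝ, 0 < ρ ∧ ∀ z ∈ Metric.ball p (2 * ρ), δ / 2 ≤ r z := by
  have h1 : {z | δ / 2 < r z} ∈ nhds p :=
    (isOpen_lt continuous_const hr.continuous).mem_nhds (by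
      simp only [Set.mem_setOf_eq]; linarith)
  obtain ⟨e, he, he'⟩ := Metric.mem_nhds_iff.mp h1
  refine ⟨e / 2, by positivity, fun z hz => ?_⟩
  have : z ∈ Metric.ball p e := by
    rwa [mul_div_cancel₀ e (two_ne_zero)] at hz
  exact le_of_lt (he' this)

lemma vol_ball_eq (p q : V n) (ρ : ℝ) :
    volume.real (Metric.ball p ρ) = volume.real (Metric.ball q ρ) := by
  unfold Measure.real
  rw [Measure.addHaar_ball_center volume p, Measure.addHaar_ball_center volume q]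

/-- local Lipschitz and sup bounds -/
lemma local_lip {r : V n → ℝ} (hr : ContDiff ℝ ∞ r) (hK : CptPos r) {δ : ℝ} (hδ : 0 < δ)
    {p : V n} (hp : δ ≤ r p) :
    ∃ ρ L : ℝ, 0 < ρ ∧ 0 < L ∧ ∀ F : MvPolynomial (Fin n) ℂ, ∀ q ∈ Metric.ball p ρ,
      ‖ev F q‖ ^ 2 ≤ L * S r 2 (ev F) ∧
      ‖ev F q - ev F p‖ ^ 2 ≤ L * ‖q - p‖ ^ 2 * S r 2 (ev F) := by
  obtain ⟨ρ, hρ, hρ'⟩ := exists_ball hr hδ hp
  choose C1 hC1 hC1' using fun j => D1 hr hK 2 (by norm_num) j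
  set v := volume.real (Metric.ball p ρ) with hv
  have hv0 : 0 < v := vol_ball_pos p hρ
  have hball : ∀ q ∈ Metric.ball p ρ, ∀ z ∈ Metric.ball q ρ, δ / 2 ≤ r z := by
    intro q hq z hz
    apply hρ'
    rw [Metric.mem_ball] at *
    have := dist_triangle z q p
    linarith
  set a : Fin n → ℝ := fun j => Real.sqrt ((v * (δ / 2) ^ 4)⁻¹ * C1 j) with ha
  have ha0 : ∀ j, 0 ≤ a j := fun j => Real.sqrt_nonneg _
  have hder : ∀ F : MvPolynomial (Fin n) ℂ, ∀ q ∈ Metric.ball p ρ, ∀ j,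
      ‖ev (pderiv j F) q‖ ≤ a j * Real.sqrt (S r 2 (ev F)) := by
    intro F q hq j
    have h1 := pt_bound hr hK 4 (by norm_num) hρ (half_pos hδ) (hball q hq) (pderiv j F)
    rw [vol_ball_eq q p, ← hv] at h1
    have h2 := hC1' j F
    have h3 : ‖ev (pderiv j F) q‖ ^ 2 ≤ ((v * (δ / 2) ^ 4)⁻¹ * C1 j) * S r 2 (ev F) := by
      refine h1.trans ?_
      rw [mul_assoc]
      exact mul_le_mul_of_nonneg_left h2 (by positivity)
    rw [ha]
    simp only
    have h4 : 0 ≤ (v * (δ / 2) ^ 4)⁻¹ * C1 j := by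
      have := hC1 j
      positivity
    rw [← Real.sqrt_mul h4]
    exact Real.le_sqrt_of_sq_le h3
  set L1 : ℝ := ∑ j, a j with hL1
  have hL10 : 0 ≤ L1 := Finset.sum_nonneg fun j _ => ha0 j
  refine ⟨ρ, max 1 (max (L1 ^ 2) ((v * (δ / 2) ^ 2)⁻¹)), hρ, by positivity, fun F q hq => ?_⟩
  have hS := S_nonneg r 2 (ev F)
  constructor
  · have h1 := pt_bound hr hK 2 (by norm_num) hρ (half_pos hδ) (hball q hq) F
    rw [vol_ball_eq q p, ← hv] at h1
    refine h1.trans (mul_le_mul_of_nonneg_right ?_ hS)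
    exact (le_max_right _ _).trans (le_max_right _ _)
  · have h2 : ‖ev F q - ev F p‖ ≤ (L1 * Real.sqrt (S r 2 (ev F))) * ‖q - p‖ := by
      apply Convex.norm_image_sub_le_of_norm_fderiv_le (𝕜 := ℂ) (s := Metric.ball p ρ)
      · intro x _
        exact differentiable_ev F x
      · intro x hx
        rw [(hasFDerivAt_ev F x).fderiv]
        apply ContinuousLinearMap.opNorm_le_bound _ (by positivity)
        intro w
        rw [dev_apply]
        refine (norm_sum_le _ _).trans ?_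
        rw [hL1, Finset.sum_mul, Finset.sum_mul]
        apply Finset.sum_le_sum
        intro j _
        rw [norm_mul]
        apply mul_le_mul (hder F x hx j) (norm_le_pi_norm w j) (norm_nonneg _)
        exact mul_nonneg (ha0 j) (Real.sqrt_nonneg _)
      · exact convex_ball p ρ
      · exact Metric.mem_ball_self hρ
      · exact hq
    have h3 : ‖ev F q - ev F p‖ ^ 2 ≤ ((L1 * Real.sqrt (S r 2 (ev F))) * ‖q - p‖) ^ 2 :=
      pow_le_pow_left₀ (norm_nonneg _) h2 2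
    rw [mul_pow, mul_pow, Real.sq_sqrt hS] at h3
    refine h3.trans ?_
    have h4 : L1 ^ 2 ≤ max 1 (max (L1 ^ 2) ((v * (δ / 2) ^ 2)⁻¹)) :=
      (le_max_left _ _).trans (le_max_right _ _)
    calc L1 ^ 2 * S r 2 (ev F) * ‖q - p‖ ^ 2 = L1 ^ 2 * (‖q - p‖ ^ 2 * S r 2 (ev F)) := by ring
      _ ≤ max 1 (max (L1 ^ 2) ((v * (δ / 2) ^ 2)⁻¹)) * (‖q - p‖ ^ 2 * S r 2 (ev F)) :=
        mul_le_mul_of_nonneg_right h4 (by positivity)
      _ = _ := by ring

/-- uniform bound on `{δ ≤ r}` -/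
lemma sup_bound {r : V n → ℝ} (hr : ContDiff ℝ ∞ r) (hK : CptPos r) {δ : ℝ} (hδ : 0 < δ) :
    ∃ C : ℝ, 0 < C ∧ ∀ F : MvPolynomial (Fin n) ℂ, ∀ q, δ ≤ r q →
      ‖ev F q‖ ^ 2 ≤ C * S r 2 (ev F) := by
  have hcpt := isCompact_sup hr hK hδ
  have hex : ∀ p : V n, ∃ ρ L : ℝ, 0 < ρ ∧ 0 < L ∧ (δ ≤ r p →
      ∀ F : MvPolynomial (Fin n) ℂ, ∀ q ∈ Metric.ball p ρ, ‖ev F q‖ ^ 2 ≤ L * S r 2 (ev F)) := by
    intro p
    by_cases hp : δ ≤ r p
    · obtain ⟨ρ, L, h1, h2, h3⟩ := local_lip hr hK hδ hp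
      exact ⟨ρ, L, h1, h2, fun _ F q hq => (h3 F q hq).1⟩
    · exact ⟨1, 1, one_pos, one_pos, fun h => absurd h hp⟩
  choose ρ L hρ hL hLs using hex
  obtain ⟨t, ht, hcov⟩ := hcpt.elim_nhds_subcover (fun p => Metric.ball p (ρ p))
    (fun p _ => Metric.ball_mem_nhds p (hρ p))
  refine ⟨1 + ∑ p ∈ t, L p, ?_, fun F q hq => ?_⟩
  · have : 0 ≤ ∑ p ∈ t, L p := Finset.sum_nonneg fun p _ => (hL p).le
    positivity
  · have hq' := hcov (show q ∈ {z | δ ≤ r z} from hq)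
    simp only [Set.mem_iUnion] at hq'
    obtain ⟨p, hp, hqp⟩ := hq'
    have h1 := hLs p (ht p hp) F q hqp
    have h2 : L p ≤ ∑ p ∈ t, L p := Finset.single_le_sum (fun p _ => (hL p).le) hp
    have hS := S_nonneg r 2 (ev F)
    nlinarith

/-- compactness of the inclusion, with finitely many point evaluations -/
lemma cpt_bound {r : V n → ℝ} (hr : ContDiff ℝ ∞ r) (hK : CptPos r) {δ : ℝ} (hδ : 0 < δ)
    {e : ℝ} (he : 0 < e) :
    ∃ (t : Finset (V n)) (C : ℝ), 0 < C ∧ (∀ p ∈ t, δ ≤ r p) ∧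
      ∀ F : MvPolynomial (Fin n) ℂ,
      Kt r δ (ev F) ≤ e * S r 2 (ev F) + C * ∑ p ∈ t, ‖ev F p‖ ^ 2 := by
  have hcpt := isCompact_sup hr hK hδ
  set v := volume.real {z : V n | δ ≤ r z} with hv
  have hv0 : 0 ≤ v := measureReal_nonneg
  have hex : ∀ p : V n, ∃ s : ℝ, 0 < s ∧ (δ ≤ r p →
      ∀ F : MvPolynomial (Fin n) ℂ, ∀ q ∈ Metric.ball p s,
        ‖ev F q‖ ^ 2 ≤ 2 * ‖ev F p‖ ^ 2 + e / (v + 1) * S r 2 (ev F)) := by
    intro p
    by_cases hp : δ ≤ r p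
    · obtain ⟨ρ, L, h1, h2, h3⟩ := local_lip hr hK hδ hp
      refine ⟨min ρ (Real.sqrt (e / (v + 1) / (2 * L))), lt_min h1 (Real.sqrt_pos.mpr
        (by positivity)), fun _ F q hq => ?_⟩
      have hq1 : q ∈ Metric.ball p ρ := Metric.ball_subset_ball (min_le_left _ _) hq
      have hq2 : ‖q - p‖ ≤ Real.sqrt (e / (v + 1) / (2 * L)) := by
        have := Metric.ball_subset_ball (min_le_right _ _) hq
        rw [Metric.mem_ball, dist_eq_norm] at this
        exact this.le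
      have h4 := (h3 F q hq1).2
      have hS := S_nonneg r 2 (ev F)
      have h5 : ‖q - p‖ ^ 2 ≤ e / (v + 1) / (2 * L) := by
        have := pow_le_pow_left₀ (norm_nonneg _) hq2 2
        rwa [Real.sq_sqrt (by positivity)] at this
      have h6 : L * ‖q - p‖ ^ 2 ≤ e / (v + 1) / 2 := by
        calc L * ‖q - p‖ ^ 2 ≤ L * (e / (v + 1) / (2 * L)) := mul_le_mul_of_nonneg_left h5 h2.le
          _ = e / (v + 1) / 2 := by field_simp
      have h7 : ‖ev F q‖ ^ 2 ≤ 2 * ‖ev F p‖ ^ 2 + 2 * ‖ev F q - ev F p‖ ^ 2 := by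
        have h8 : ‖ev F q‖ ≤ ‖ev F p‖ + ‖ev F q - ev F p‖ := by
          have := norm_add_le (ev F p) (ev F q - ev F p)
          simpa using this
        have h9 := pow_le_pow_left₀ (norm_nonneg _) h8 2
        nlinarith [sq_nonneg (‖ev F p‖ - ‖ev F q - ev F p‖)]
      have h10 : L * ‖q - p‖ ^ 2 * S r 2 (ev F) ≤ e / (v + 1) / 2 * S r 2 (ev F) :=
        mul_le_mul_of_nonneg_right h6 hS
      linarith
    · exact ⟨1, one_pos, fun h => absurd h hp⟩
  choose s hs hs' using hex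
  obtain ⟨t, ht, hcov⟩ := hcpt.elim_nhds_subcover (fun p => Metric.ball p (s p))
    (fun p _ => Metric.ball_mem_nhds p (hs p))
  refine ⟨t, 2 * v + 1, by positivity, ht, fun F => ?_⟩
  have hS := S_nonneg r 2 (ev F)
  have hpt : ∀ q ∈ {z : V n | δ ≤ r z}, ‖ev F q‖ ^ 2
      ≤ 2 * ∑ p ∈ t, ‖ev F p‖ ^ 2 + e / (v + 1) * S r 2 (ev F) := by
    intro q hq
    have hq' := hcov hq
    simp only [Set.mem_iUnion] at hq'
    obtain ⟨p, hp, hqp⟩ := hq'
    have h1 := hs' p (ht p hp) F q hqp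
    have h2 : ‖ev F p‖ ^ 2 ≤ ∑ p ∈ t, ‖ev F p‖ ^ 2 :=
      Finset.single_le_sum (f := fun p => ‖ev F p‖ ^ 2) (fun p _ => by positivity) hp
    linarith
  have hms : MeasurableSet {z : V n | δ ≤ r z} :=
    (isClosed_le continuous_const hr.continuous).measurableSet
  have h1 : Kt r δ (ev F) ≤ ∫ _z in {z : V n | δ ≤ r z},
      (2 * ∑ p ∈ t, ‖ev F p‖ ^ 2 + e / (v + 1) * S r 2 (ev F)) := by
    unfold Kt
    refine setIntegral_mono_on (integrableOn_Kt hr hK hδ ((continuous_ev F).norm.pow 2))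
      (integrableOn_Kt hr hK hδ continuous_const) hms hpt
  rw [setIntegral_const, smul_eq_mul, ← hv] at h1
  have h2 : v * (e / (v + 1) * S r 2 (ev F)) ≤ e * S r 2 (ev F) := by
    have : v * (e / (v + 1)) ≤ e := by
      rw [mul_div_assoc', div_le_iff₀ (by positivity)]
      nlinarith
    nlinarith
  have h3 : 0 ≤ ∑ p ∈ t, ‖ev F p‖ ^ 2 := Finset.sum_nonneg fun p _ => by positivity
  nlinarith

end Pool.Agent.H60
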