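import Pool.Agent.H60.L2

set_option autoImplicit false

open MeasureTheory Complex MvPolynomial
open scoped ContDiff ENNReal NNReal

noncomputable section

namespace Pool.Agent.H60

variable {n : ℕ}

lemma TP_add (P F G : MvPolynomial (Fin n) ℂ) : TP P (F + G) = TP P F + TP P G := by
  unfold TP Dop
  rw [← Finset.sum_add_distrib]
  apply Finset.sum_congr rfl
  intro m _
  rw [← mul_add]
  congr 1
  rw [mul_add]
  generalize Lst m = l
  induction l with
  | nil => rfl
  | cons j l ih =>
    simp only [pdl, List.foldr_cons] at ih ⊢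
    rw [ih, map_add]

lemma pdl_C_mul (l : List (Fin n)) (c : ℂ) (F : MvPolynomial (Fin n) ℂ) :
    pdl l (C c * F) = C c * pdl l F := by
  induction l with
  | nil => rfl
  | cons j l ih =>
    simp only [pdl, List.foldr_cons] at ih ⊢
    rw [ih, Derivation.leibniz]
    simp

lemma TP_smul (P F : MvPolynomial (Fin n) ℂ) (c : ℂ) : TP P (c • F) = c • TP P F := by
  unfold TP Dop
  rw [smul_eq_C_mul, smul_eq_C_mul, Finset.mul_sum]
  apply Finset.sum_congr rfl
  intro m _
  rw [mul_left_comm P, pdl_C_mul]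
  ring

/-- `T_P` as a linear map -/
def TPl (P : MvPolynomial (Fin n) ℂ) : MvPolynomial (Fin n) ℂ →ₗ[ℂ] MvPolynomial (Fin n) ℂ where
  toFun := TP P
  map_add' := TP_add P
  map_smul' c F := TP_smul P F c

/-- the range of `T_P` on polynomials is dense for uniform convergence on balls -/
theorem dense_TP {P : MvPolynomial (Fin n) ℂ} (hP : P ≠ 0) (g : MvPolynomial (Fin n) ℂ)
    {R : ℝ} (hR : 0 < R) {ε : ℝ} (hε : 0 < ε) :
    ∃ F : MvPolynomial (Fin n) ℂ, ∀ z ∈ Metric.closedBall (0 : V n) R,
      ‖ev (TP P F) z - ev g z‖ ≤ ε := by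
  set μ : Measure (V n) := volume.restrict (Metric.closedBall 0 (R + 1)) with hμdef
  have hμ : ∀ F : MvPolynomial (Fin n) ℂ, MemLp (ev F) 2 μ := by
    intro F
    rw [memLp_two_iff_integrable_sq_norm (continuous_ev F).aestronglyMeasurable]
    exact ((continuous_ev F).norm.pow 2).continuousOn.integrableOn_compact
      (isCompact_closedBall _ _)
  set J := Jm μ hμ with hJ
  have hJn : ∀ F, ‖J F‖ ^ 2 = ∫ z, ‖ev F z‖ ^ 2 ∂μ := by
    intro F
    have h1 := @inner_self_eq_norm_sq_to_K ℂ _ _ _ _ (J F)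
    rw [L2.inner_def] at h1
    have h2 : ∫ z, inner ℂ (J F z) (J F z) ∂μ = ((∫ z, ‖ev F z‖ ^ 2 ∂μ : ℝ) : ℂ) := by
      rw [← integral_complex_ofReal]
      refine integral_congr_ae ?_
      filter_upwards [coeFn_Jm μ hμ F] with z hz
      rw [hJ, hz, inner_self_eq_norm_sq_to_K]
      norm_cast
    rw [h2] at h1
    have h3 := congrArg Complex.re h1
    rw [Complex.ofReal_re] at h3
    rw [h3]
    norm_cast
  set Z0 : Submodule ℂ (Lp ℂ 2 μ) := (LinearMap.range (J ∘ₗ TPl P)).topologicalClosure with hZ0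
  haveI : CompleteSpace Z0 := (Submodule.isClosed_topologicalClosure _).completeSpace_coe
  have hle : ∀ x ∈ Z0, x ∈ (LinearMap.range J).topologicalClosure := by
    intro x hx
    refine Submodule.topologicalClosure_mono ?_ hx
    exact LinearMap.range_comp_le_range _ _
  set y : Lp ℂ 2 μ := J g - Z0.orthogonalProjectionOnto (J g) with hy
  have hyorth : ∀ x ∈ Z0, inner ℂ y x = 0 := by
    intro x hx
    have h1 := Z0.inner_orthogonalProjectionOnto_eq_of_mem_right ⟨x, hx⟩ (J g)
    have h2 : inner ℂ ((Z0.orthogonalProjectionOnto (J g) : Z0) : Lp ℂ 2 μ) x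
        = inner ℂ (J g) x := h1
    rw [hy, inner_sub_left, h2, sub_self]
  let l : MvPolynomial (Fin n) ℂ →ₗ[ℂ] ℂ := (innerSL ℂ y : Lp ℂ 2 μ →ₗ[ℂ] ℂ) ∘ₗ J
  have hl : ∀ G, l G = inner ℂ y (J G) := fun G => rfl
  have hl0 : ∀ G, l G = 0 := by
    apply fock hP l (‖y‖ * Real.sqrt (μ.real Set.univ)) (R + 1) (by positivity) (by positivity)
    · intro α
      rw [hl]
      have h1 : ‖inner ℂ y (J (monomial α 1))‖ ≤ ‖y‖ * ‖J (monomial α 1)‖ :=
        norm_inner_le_norm _ _
      have h2 : ‖J (monomial α 1)‖ ≤ Real.sqrt (μ.real Set.univ) * (R + 1) ^ α.degree := by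
        have h3 : ‖J (monomial α 1)‖ ^ 2
            ≤ (Real.sqrt (μ.real Set.univ) * (R + 1) ^ α.degree) ^ 2 := by
          rw [hJn, mul_pow, Real.sq_sqrt measureReal_nonneg]
          have h4 : ∫ z, ‖ev (monomial α (1 : ℂ)) z‖ ^ 2 ∂μ
              ≤ ∫ _z, ((R + 1) ^ α.degree) ^ 2 ∂μ := by
            refine integral_mono_ae ?_ ?_ ?_
            · exact ((continuous_ev _).norm.pow 2).continuousOn.integrableOn_compact
                (isCompact_closedBall _ _)
            · exact continuousOn_const.integrableOn_compact (isCompact_closedBall _ _)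
            · rw [hμdef]
              filter_upwards [ae_restrict_mem measurableSet_closedBall] with z hz
              apply pow_le_pow_left₀ (norm_nonneg _)
              unfold ev
              rw [eval_monomial, one_mul, Finsupp.prod_fintype _ _ (by simp), norm_prod,
                Finsupp.degree_eq_sum, ← Finset.prod_pow_eq_pow_sum]
              apply Finset.prod_le_prod (fun _ _ => norm_nonneg _)
              intro j _
              rw [norm_pow]
              rw [mem_closedBall_zero_iff] at hz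
              exact pow_le_pow_left₀ (norm_nonneg _) ((norm_le_pi_norm z j).trans hz) _
          refine h4.trans (le_of_eq ?_)
          rw [integral_const, smul_eq_mul]
        exact le_of_sq_le_sq h3 (by positivity)
      calc ‖inner ℂ y (J (monomial α 1))‖ ≤ ‖y‖ * ‖J (monomial α 1)‖ := h1
        _ ≤ ‖y‖ * (Real.sqrt (μ.real Set.univ) * (R + 1) ^ α.degree) :=
          mul_le_mul_of_nonneg_left h2 (norm_nonneg _)
        _ = _ := by ring
    · intro F
      rw [hl]
      exact hyorth _ (Submodule.le_topologicalClosure _ ⟨F, rfl⟩)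
  have hy0 : y = 0 := by
    have h1 : ∀ x ∈ (LinearMap.range J).topologicalClosure, inner ℂ y x = 0 := by
      intro x hx
      have hcl : IsClosed {x : Lp ℂ 2 μ | inner ℂ y x = 0} := isClosed_eq (by fun_prop)
        continuous_const
      have h2 : (LinearMap.range J : Set (Lp ℂ 2 μ)) ⊆ {x | inner ℂ y x = 0} := by
        rintro _ ⟨F, rfl⟩
        exact hl0 F
      exact closure_minimal h2 hcl hx
    have h2 : y ∈ (LinearMap.range J).topologicalClosure := by
      rw [hy]
      refine Submodule.sub_mem _ (Submodule.le_topologicalClosure _ ⟨g, rfl⟩) ?_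
      exact hle _ (Z0.orthogonalProjectionOnto (J g)).2
    exact inner_self_eq_zero.mp (h1 y h2)
  have hgZ : J g ∈ Z0 := by
    rw [hy, sub_eq_zero] at hy0
    rw [hy0]
    exact (Z0.orthogonalProjectionOnto (J g)).2
  -- approximate
  set v := volume.real (Metric.ball (0 : V n) 1) with hv
  have hv0 : 0 < v := vol_ball_pos 0 one_pos
  have hcl : J g ∈ closure (LinearMap.range (J ∘ₗ TPl P) : Set (Lp ℂ 2 μ)) := hgZ
  obtain ⟨_, ⟨F, rfl⟩, hF⟩ := Metric.mem_closure_iff.mp hcl (Real.sqrt v * ε) (by positivity)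
  refine ⟨F, fun z hz => ?_⟩
  have hJd : J g - (J ∘ₗ TPl P) F = J (g - TP P F) := by
    rw [map_sub]; rfl
  rw [dist_eq_norm, hJd] at hF
  have h1 := sq_le_mean z one_pos (g - TP P F)
  have h2 : ∫ w in Metric.ball z 1, ‖ev (g - TP P F) w‖ ^ 2
      ≤ ∫ w, ‖ev (g - TP P F) w‖ ^ 2 ∂μ := by
    rw [hμdef]
    refine setIntegral_mono_set ?_ (Filter.Eventually.of_forall fun w => by positivity) ?_
    · exact ((continuous_ev _).norm.pow 2).continuousOn.integrableOn_compact
        (isCompact_closedBall _ _)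
    · refine Filter.Eventually.of_forall fun w hw => ?_
      show w ∈ Metric.closedBall (0 : V n) (R + 1)
      rw [Metric.mem_closedBall] at hz ⊢
      have hw' : dist w z < 1 := hw
      have := dist_triangle w z 0
      linarith
  rw [← hJn, vol_ball_eq z 0, ← hv] at *
  have h3 : ‖J (g - TP P F)‖ ^ 2 ≤ (Real.sqrt v * ε) ^ 2 :=
    pow_le_pow_left₀ (norm_nonneg _) hF.le 2
  rw [mul_pow, Real.sq_sqrt hv0.le] at h3
  have h4 : v * ‖ev (g - TP P F) z‖ ^ 2 ≤ v * ε ^ 2 := by linarith
  have h5 : ‖ev (g - TP P F) z‖ ^ 2 ≤ ε ^ 2 := le_of_mul_le_mul_left h4 hv0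
  have h6 : ‖ev (g - TP P F) z‖ ≤ ε := le_of_sq_le_sq h5 hε.le
  have h7 : ev (g - TP P F) z = -(ev (TP P F) z - ev g z) := by
    simp [ev]
  rwa [h7, norm_neg] at h6

end Pool.Agent.H60
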