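import Pool.Agent.H60.Poly

set_option autoImplicit false

open MeasureTheory Complex MvPolynomial
open scoped ContDiff

noncomputable section

namespace Pool.Agent.H60

variable {n : ℕ}

/-- weighted square integral -/
def S (r : V n → ℝ) (k : ℕ) (g : V n → ℂ) : ℝ := ∫ z, (max (r z) 0) ^ k * ‖g z‖ ^ 2

lemma S_nonneg (r : V n → ℝ) (k : ℕ) (g : V n → ℂ) : 0 ≤ S r k g :=
  integral_nonneg fun _ => by positivity

lemma integrable_real {r : V n → ℝ} (hr : ContDiff ℝ ∞ r) (hK : CptPos r) (k : ℕ)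
    (hk : k ≠ 0) {h : V n → ℝ} (hh : Continuous h) :
    Integrable (fun z => (max (r z) 0) ^ k * h z) := by
  obtain ⟨K, hK, hK'⟩ := hK
  have hc : Continuous (fun z => (max (r z) 0) ^ k * h z) := by
    have := hr.continuous
    fun_prop
  refine hc.integrable_of_hasCompactSupport ?_
  refine HasCompactSupport.of_support_subset_isCompact hK ?_
  intro z hz
  by_contra hzK
  have : ¬ 0 < r z := fun h => hzK (hK' z h)
  apply hz
  simp only
  rw [max_eq_right (not_lt.mp this), zero_pow hk, zero_mul]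

lemma integrable_S {r : V n → ℝ} (hr : ContDiff ℝ ∞ r) (hK : CptPos r) (k : ℕ)
    (hk : k ≠ 0) {g : V n → ℂ} (hg : Continuous g) :
    Integrable (fun z => (max (r z) 0) ^ k * ‖g z‖ ^ 2) :=
  integrable_real hr hK k hk (hg.norm.pow 2)

lemma integral_mul_cj (r : V n → ℝ) (k : ℕ) (g : V n → ℂ) :
    ∫ z, rp r k z * (g z * cj g z) = ((S r k g : ℝ) : ℂ) := by
  unfold S
  rw [← integral_complex_ofReal]
  refine integral_congr_ae (Filter.Eventually.of_forall fun z => ?_)
  simp only [rp, cj]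
  rw [Complex.mul_conj, Complex.normSq_eq_norm_sq]
  push_cast
  ring

lemma bddOnPos {r : V n → ℝ} (hK : CptPos r) {E : Type*} [SeminormedAddCommGroup E]
    {c : V n → E} (hc : Continuous c) : ∃ M : ℝ, 0 < M ∧ ∀ z, 0 < r z → ‖c z‖ ≤ M := by
  obtain ⟨K, hK, hK'⟩ := hK
  obtain ⟨M, hM⟩ := hK.exists_bound_of_continuousOn hc.continuousOn
  exact ⟨max M 1, by positivity, fun z hz => (hM z (hK' z hz)).trans (le_max_left _ _)⟩

/-- Cauchy-Schwarz in additive form. -/
lemma cs {r : V n → ℝ} (hr : ContDiff ℝ ∞ r) (hK : CptPos r) {k k1 k2 : ℕ}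
    (h12 : k1 + k2 = 2 * k) (h1 : k1 ≠ 0) (h2 : k2 ≠ 0) {c u v : V n → ℂ}
    (hu : Continuous u) (hv : Continuous v) {M : ℝ} (hM : 0 ≤ M)
    (hc : ∀ z, 0 < r z → ‖c z‖ ≤ M) {l : ℝ} (hl : 0 < l) :
    ‖∫ z, rp r k z * (c z * u z * v z)‖ ≤ M / 2 * (l * S r k1 u + l⁻¹ * S r k2 v) := by
  have i1 := integrable_S hr hK k1 h1 hu
  have i2 := integrable_S hr hK k2 h2 hv
  have e : M / 2 * (l * S r k1 u + l⁻¹ * S r k2 v)
      = ∫ z, M / 2 * (l * ((max (r z) 0) ^ k1 * ‖u z‖ ^ 2)
        + l⁻¹ * ((max (r z) 0) ^ k2 * ‖v z‖ ^ 2)) := by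
    rw [integral_const_mul, integral_add (i1.const_mul _) (i2.const_mul _), integral_const_mul,
      integral_const_mul]
    rfl
  rw [e]
  refine (norm_integral_le_integral_norm _).trans ?_
  refine integral_mono_of_nonneg (Filter.Eventually.of_forall fun z => norm_nonneg _)
    (((i1.const_mul _).add (i2.const_mul _)).const_mul _)
    (Filter.Eventually.of_forall fun z => ?_)
  simp only
  rcases le_or_gt (r z) 0 with hz | hz
  · have : rp r k z = 0 := by
      unfold rp
      rw [max_eq_right hz, zero_pow (by omega)]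
      simp
    rw [this, zero_mul, norm_zero]
    positivity
  · set x := max (r z) 0 with hx
    have hx0 : 0 ≤ x := le_max_right _ _
    have h3 : ‖rp r k z * (c z * u z * v z)‖ = x ^ k * (‖c z‖ * ‖u z‖ * ‖v z‖) := by
      rw [norm_mul, norm_mul, norm_mul]
      congr 1
      unfold rp
      rw [Complex.norm_real, Real.norm_eq_abs, abs_of_nonneg (by positivity)]
    rw [h3]
    have hcz := hc z hz
    set s := ‖u z‖
    set t := ‖v z‖
    have hs : 0 ≤ s := norm_nonneg _
    have ht : 0 ≤ t := norm_nonneg _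
    have h4 : x ^ k * (s * t) ≤ 1 / 2 * (l * (x ^ k1 * s ^ 2) + l⁻¹ * (x ^ k2 * t ^ 2)) := by
      have h5 : (x ^ k * (s * t)) ^ 2 = (x ^ k1 * s ^ 2) * (x ^ k2 * t ^ 2) := by
        have : x ^ (2 * k) = x ^ k1 * x ^ k2 := by rw [← pow_add, h12]
        calc (x ^ k * (s * t)) ^ 2 = x ^ (2 * k) * (s ^ 2 * t ^ 2) := by ring
          _ = _ := by rw [this]; ring
      have h6 : 0 ≤ 1 / 2 * (l * (x ^ k1 * s ^ 2) + l⁻¹ * (x ^ k2 * t ^ 2)) := by positivity
      refine le_of_sq_le_sq ?_ h6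
      rw [h5]
      set A := x ^ k1 * s ^ 2
      set B := x ^ k2 * t ^ 2
      have h7 : l * l⁻¹ = 1 := mul_inv_cancel₀ hl.ne'
      nlinarith [sq_nonneg (l * A - l⁻¹ * B)]
    calc x ^ k * (‖c z‖ * s * t) = ‖c z‖ * (x ^ k * (s * t)) := by ring
      _ ≤ M * (x ^ k * (s * t)) := by
          apply mul_le_mul_of_nonneg_right hcz; positivity
      _ ≤ M * (1 / 2 * (l * (x ^ k1 * s ^ 2) + l⁻¹ * (x ^ k2 * t ^ 2))) :=
          mul_le_mul_of_nonneg_left h4 hM
      _ = _ := by ring

lemma S_mono_exp {r : V n → ℝ} (hr : ContDiff ℝ ∞ r) (hK : CptPos r) (k l : ℕ) (hk : k ≠ 0) :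
    ∃ C : ℝ, 0 < C ∧ ∀ g : V n → ℂ, Continuous g → S r (k + l) g ≤ C * S r k g := by
  obtain ⟨M, hM, hM'⟩ := bddOnPos hK hr.continuous
  refine ⟨M ^ l, by positivity, fun g hg => ?_⟩
  unfold S
  rw [← integral_const_mul]
  refine integral_mono (integrable_S hr hK _ (by omega) hg)
    ((integrable_S hr hK _ hk hg).const_mul _) fun z => ?_
  simp only
  rcases le_or_gt (r z) 0 with hz | hz
  · rw [max_eq_right hz, zero_pow (by omega), zero_pow hk]; simp
  · have h1 : max (r z) 0 ≤ M := by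
      rw [max_eq_left hz.le]
      exact (le_abs_self _).trans (hM' z hz)
    have h2 : (max (r z) 0) ^ l ≤ M ^ l := pow_le_pow_left₀ (le_max_right _ _) h1 _
    calc (max (r z) 0) ^ (k + l) * ‖g z‖ ^ 2
        = (max (r z) 0) ^ l * ((max (r z) 0) ^ k * ‖g z‖ ^ 2) := by rw [pow_add]; ring
      _ ≤ M ^ l * ((max (r z) 0) ^ k * ‖g z‖ ^ 2) := by
        apply mul_le_mul_of_nonneg_right h2; positivity

/-- D1 : interior gradient estimate with weights. -/
lemma D1 {r : V n → ℝ} (hr : ContDiff ℝ ∞ r) (hK : CptPos r) (b : ℕ) (hb : 1 ≤ b) (j : Fin n) :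
    ∃ C : ℝ, 0 < C ∧ ∀ p : MvPolynomial (Fin n) ℂ,
      S r (b + 2) (ev (pderiv j p)) ≤ C * S r b (ev p) := by
  obtain ⟨M, hM, hM'⟩ := bddOnPos hK
    (c := fun z => ((b + 2 : ℕ) : ℂ) * wd j (rc r) z)
    (continuous_const.mul (contDiff_wd j (contDiff_rc hr)).continuous)
  refine ⟨M ^ 2, by positivity, fun p => ?_⟩
  have h1 := ibp hr hK (b + 2) (by omega) j (g := fun z => ev p z * cj (ev (pderiv j p)) z)
    ((contDiff_ev p).mul (contDiff_cj (contDiff_ev _)))
  have h2 : ∀ z, wd j (fun z => ev p z * cj (ev (pderiv j p)) z) z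
      = ev (pderiv j p) z * cj (ev (pderiv j p)) z := by
    intro z
    rw [wd_mul j ((contDiff_ev p).differentiable (by simp) z)
      ((contDiff_cj (contDiff_ev _)).differentiable (by simp) z), wd_cj_ev, wd_ev, mul_zero,
      add_zero]
  simp only [h2] at h1
  rw [integral_mul_cj] at h1
  have h3 := congrArg norm h1
  rw [norm_neg, Complex.norm_real, Real.norm_eq_abs, abs_of_nonneg (S_nonneg _ _ _)] at h3
  have h4 := cs hr hK (k := b + 2 - 1) (k1 := b) (k2 := b + 2) (by omega) (by omega) (by omega)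
    (c := fun z => ((b + 2 : ℕ) : ℂ) * wd j (rc r) z) (u := ev p)
    (v := cj (ev (pderiv j p))) (continuous_ev p) (contDiff_cj (contDiff_ev _)).continuous hM.le
    hM' (l := M) hM
  have h5 : S r (b + 2) (cj (ev (pderiv j p))) = S r (b + 2) (ev (pderiv j p)) := by
    unfold S cj
    simp
  rw [h5] at h4
  have h6 : (∫ z, rp r (b + 2 - 1) z * (((b + 2 : ℕ) : ℂ) * wd j (rc r) z *
      (ev p z * cj (ev (pderiv j p)) z)))
      = ∫ z, rp r (b + 2 - 1) z * (((b + 2 : ℕ) : ℂ) * wd j (rc r) z * ev p z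
        * cj (ev (pderiv j p)) z) := by
    refine integral_congr_ae (Filter.Eventually.of_forall fun z => ?_)
    simp only
    ring
  rw [h6] at h3
  rw [← h3] at h4
  have h7 : M / 2 * (M * S r b (ev p) + M⁻¹ * S r (b + 2) (ev (pderiv j p)))
      = M ^ 2 / 2 * S r b (ev p) + 1 / 2 * S r (b + 2) (ev (pderiv j p)) := by
    field_simp
  rw [h7] at h4
  linarith

/-- a vector field of type (1,0) applied to a polynomial -/
def X10 (a : Fin n → V n → ℂ) (p : MvPolynomial (Fin n) ℂ) (z : V n) : ℂ :=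
  ∑ j, a j z * ev (pderiv j p) z

lemma contDiff_X10 {a : Fin n → V n → ℂ} (ha : ∀ j, ContDiff ℝ ∞ (a j))
    (p : MvPolynomial (Fin n) ℂ) : ContDiff ℝ ∞ (X10 a p) := by
  unfold X10
  exact ContDiff.sum fun j _ => (ha j).mul (contDiff_ev _)

lemma S_cj (r : V n → ℝ) (k : ℕ) (g : V n → ℂ) : S r k (cj g) = S r k g := by
  unfold S cj
  simp

/-- D2 : tangential derivatives only cost half a power. -/
lemma D2 {r : V n → ℝ} (hr : ContDiff ℝ ∞ r) (hK : CptPos r) {a : Fin n → V n → ℂ}
    (ha : ∀ j, ContDiff ℝ ∞ (a j)) (hX : ∀ z, ∑ j, a j z * wd j (rc r) z = 0)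
    (b : ℕ) (hb : 1 ≤ b) :
    ∃ C : ℝ, 0 < C ∧ ∀ p : MvPolynomial (Fin n) ℂ,
      S r (b + 1) (X10 a p) ≤ C * S r b (ev p) := by
  have hcj : ∀ j, ContDiff ℝ ∞ (cj (a j)) := fun j => contDiff_cj (ha j)
  -- the divergence
  let dv : V n → ℂ := fun z => ∑ j, wd j (a j) z
  have hdv : Continuous dv := continuous_finset_sum _ fun j _ => (contDiff_wd j (ha j)).continuous
  let B : Fin n → V n → ℂ := fun k z => ∑ j, a j z * wd j (cj (a k)) z
  have hB : ∀ k, Continuous (B k) := fun k => continuous_finset_sum _ fun j _ =>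
    (ha j).continuous.mul (contDiff_wd j (hcj k)).continuous
  obtain ⟨M1, hM1, hM1'⟩ := bddOnPos hK hdv
  choose M2 hM2 hM2' using fun k => bddOnPos hK (hB k)
  choose C1 hC1 hC1' using fun k => D1 hr hK b hb k
  obtain ⟨C0, hC0, hC0'⟩ := S_mono_exp hr hK b 1 (by omega)
  refine ⟨M1 ^ 2 * C0 + ∑ k, M2 k * (1 + C1 k), ?_, fun p => ?_⟩
  · have : 0 ≤ ∑ k, M2 k * (1 + C1 k) := Finset.sum_nonneg fun k _ => by
      have := hM2 k; have := hC1 k; positivity
    positivity
  have hXp := contDiff_X10 ha p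
  have hg : ∀ j, ContDiff ℝ ∞ (fun z => ev p z * a j z * cj (X10 a p) z) := fun j =>
    ((contDiff_ev p).mul (ha j)).mul (contDiff_cj hXp)
  have h1 := fun j => ibp hr hK (b + 1) (by omega) j (hg j)
  have hcjX : ∀ j z, wd j (cj (X10 a p)) z
      = ∑ k, wd j (cj (a k)) z * cj (ev (pderiv k p)) z := by
    intro j z
    have e : cj (X10 a p) = fun z => ∑ k, cj (a k) z * cj (ev (pderiv k p)) z := by
      funext z
      simp [cj, X10]
    rw [e, wd_sum]
    · apply Finset.sum_congr rfl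
      intro k _
      rw [wd_mul j ((hcj k).differentiable (by simp) z)
        ((contDiff_cj (contDiff_ev _)).differentiable (by simp) z), wd_cj_ev, mul_zero, add_zero]
    · intro k _
      exact ((hcj k).mul (contDiff_cj (contDiff_ev _))).differentiable (by simp) z
  have h2 : ∀ j z, wd j (fun z => ev p z * a j z * cj (X10 a p) z) z
      = ev (pderiv j p) z * a j z * cj (X10 a p) z + ev p z * wd j (a j) z * cj (X10 a p) z
        + ev p z * a j z * wd j (cj (X10 a p)) z := by
    intro j z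
    rw [wd_mul j (((contDiff_ev p).mul (ha j)).differentiable (by simp) z)
      ((contDiff_cj hXp).differentiable (by simp) z),
      wd_mul j ((contDiff_ev p).differentiable (by simp) z) ((ha j).differentiable (by simp) z),
      wd_ev]
    ring
  -- sum over j
  have h3 : ∑ j, ∫ z, rp r (b + 1) z * wd j (fun z => ev p z * a j z * cj (X10 a p) z) z
      = 0 := by
    rw [Finset.sum_congr rfl fun j _ => h1 j, Finset.sum_neg_distrib, neg_eq_zero,
      ← integral_finset_sum]
    · rw [show (fun z => ∑ j, rp r (b + 1 - 1) z * (((b + 1 : ℕ) : ℂ) * wd j (rc r) z *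
        (ev p z * a j z * cj (X10 a p) z))) = fun z => 0 from ?_]
      · simp
      funext z
      have := hX z
      calc ∑ j, rp r (b + 1 - 1) z * (((b + 1 : ℕ) : ℂ) * wd j (rc r) z *
            (ev p z * a j z * cj (X10 a p) z))
          = (rp r (b + 1 - 1) z * ((b + 1 : ℕ) : ℂ) * ev p z * cj (X10 a p) z)
            * ∑ j, a j z * wd j (rc r) z := by
            rw [Finset.mul_sum]
            apply Finset.sum_congr rfl
            intro j _
            ring
        _ = 0 := by rw [this, mul_zero]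
    · intro j _
      exact integrable_rp_mul hr hK _ (by omega)
        ((continuous_const.mul (contDiff_wd j (contDiff_rc hr)).continuous).mul
          (hg j).continuous)
  rw [← integral_finset_sum _ (fun j _ => integrable_rp_mul hr hK _ (by omega)
    (contDiff_wd j (hg j)).continuous)] at h3
  have h4 : (fun z => ∑ j, rp r (b + 1) z * wd j (fun z => ev p z * a j z * cj (X10 a p) z) z)
      = fun z => rp r (b + 1) z * (X10 a p z * cj (X10 a p) z)
        + (rp r (b + 1) z * (dv z * ev p z * cj (X10 a p) z)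
        + ∑ k, rp r (b + 1) z * (B k z * ev p z * cj (ev (pderiv k p)) z)) := by
    funext z
    simp only [h2, hcjX]
    rw [← Finset.mul_sum, Finset.sum_add_distrib, Finset.sum_add_distrib]
    have e1 : ∑ j, ev (pderiv j p) z * a j z * cj (X10 a p) z = X10 a p z * cj (X10 a p) z := by
      unfold X10
      rw [Finset.sum_mul]
      apply Finset.sum_congr rfl
      intro j _
      ring
    have e2 : ∑ j, ev p z * wd j (a j) z * cj (X10 a p) z = dv z * ev p z * cj (X10 a p) z := by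
      simp only [dv]
      rw [Finset.sum_mul, Finset.sum_mul]
      apply Finset.sum_congr rfl
      intro j _
      ring
    have e3 : ∑ j, ev p z * a j z * ∑ k, wd j (cj (a k)) z * cj (ev (pderiv k p)) z
        = ∑ k, B k z * ev p z * cj (ev (pderiv k p)) z := by
      simp only [B, Finset.mul_sum, Finset.sum_mul]
      rw [Finset.sum_comm]
      apply Finset.sum_congr rfl
      intro k _
      apply Finset.sum_congr rfl
      intro j _
      ring
    rw [e1, e2, e3, ← Finset.mul_sum]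
    ring
  rw [h4] at h3
  have i1 : Integrable (fun z => rp r (b + 1) z * (X10 a p z * cj (X10 a p) z)) :=
    integrable_rp_mul hr hK _ (by omega) (hXp.mul (contDiff_cj hXp)).continuous
  have i2 : Integrable (fun z => rp r (b + 1) z * (dv z * ev p z * cj (X10 a p) z)) :=
    integrable_rp_mul hr hK _ (by omega)
      ((hdv.mul (continuous_ev p)).mul (contDiff_cj hXp).continuous)
  have i3 : ∀ k, Integrable (fun z => rp r (b + 1) z *
      (B k z * ev p z * cj (ev (pderiv k p)) z)) := fun k =>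
    integrable_rp_mul hr hK _ (by omega)
      (((hB k).mul (continuous_ev p)).mul (contDiff_cj (contDiff_ev _)).continuous)
  have i4 : Integrable (fun z => ∑ k, rp r (b + 1) z *
      (B k z * ev p z * cj (ev (pderiv k p)) z)) := integrable_finset_sum _ fun k _ => i3 k
  have i5 : Integrable (fun z => rp r (b + 1) z * (dv z * ev p z * cj (X10 a p) z)
      + ∑ k, rp r (b + 1) z * (B k z * ev p z * cj (ev (pderiv k p)) z)) := i2.add i4
  rw [integral_add i1 i5, integral_add i2 i4,
    integral_finset_sum _ (fun k _ => i3 k), integral_mul_cj] at h3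
  have h5 : ((S r (b + 1) (X10 a p) : ℝ) : ℂ)
      = - ((∫ z, rp r (b + 1) z * (dv z * ev p z * cj (X10 a p) z))
        + ∑ k, ∫ z, rp r (b + 1) z * (B k z * ev p z * cj (ev (pderiv k p)) z)) := by
    linear_combination h3
  have h6 := congrArg norm h5
  rw [norm_neg, Complex.norm_real, Real.norm_eq_abs, abs_of_nonneg (S_nonneg _ _ _)] at h6
  have h7 : S r (b + 1) (X10 a p) ≤ ‖∫ z, rp r (b + 1) z * (dv z * ev p z * cj (X10 a p) z)‖
      + ∑ k, ‖∫ z, rp r (b + 1) z * (B k z * ev p z * cj (ev (pderiv k p)) z)‖ := by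
    rw [h6]
    exact (norm_add_le _ _).trans (add_le_add le_rfl (norm_sum_le _ _))
  have h8 := cs hr hK (k := b + 1) (k1 := b + 1) (k2 := b + 1) (by omega) (by omega) (by omega)
    (c := dv) (u := ev p) (v := cj (X10 a p)) (continuous_ev p) (contDiff_cj hXp).continuous
    hM1.le hM1' hM1
  rw [S_cj] at h8
  have h9 : ∀ k, ‖∫ z, rp r (b + 1) z * (B k z * ev p z * cj (ev (pderiv k p)) z)‖
      ≤ M2 k / 2 * (1 + C1 k) * S r b (ev p) := by
    intro k
    have := cs hr hK (k := b + 1) (k1 := b) (k2 := b + 2) (by omega) (by omega) (by omega)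
      (c := B k) (u := ev p) (v := cj (ev (pderiv k p))) (continuous_ev p)
      (contDiff_cj (contDiff_ev _)).continuous (hM2 k).le (hM2' k) one_pos
    rw [S_cj] at this
    refine this.trans ?_
    have h10 := hC1' k p
    have := hM2 k
    rw [one_mul, inv_one, one_mul, mul_assoc]
    apply mul_le_mul_of_nonneg_left _ (by positivity)
    linarith
  have h11 : M1 / 2 * (M1 * S r (b + 1) (ev p) + M1⁻¹ * S r (b + 1) (X10 a p))
      = M1 ^ 2 / 2 * S r (b + 1) (ev p) + 1 / 2 * S r (b + 1) (X10 a p) := by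
    field_simp
  rw [h11] at h8
  have h12 := hC0' (ev p) (continuous_ev p)
  have h13 : ∑ k, ‖∫ z, rp r (b + 1) z * (B k z * ev p z * cj (ev (pderiv k p)) z)‖
      ≤ ∑ k, M2 k / 2 * (1 + C1 k) * S r b (ev p) := Finset.sum_le_sum fun k _ => h9 k
  have h14 : ∑ k, M2 k / 2 * (1 + C1 k) * S r b (ev p)
      = 1 / 2 * ((∑ k, M2 k * (1 + C1 k)) * S r b (ev p)) := by
    rw [Finset.sum_mul, Finset.mul_sum]
    apply Finset.sum_congr rfl
    intro k _
    ring
  have h15 : M1 ^ 2 / 2 * S r (b + 1) (ev p) ≤ M1 ^ 2 / 2 * (C0 * S r b (ev p)) :=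
    mul_le_mul_of_nonneg_left h12 (by positivity)
  nlinarith

end Pool.Agent.H60
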