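import Pool.Agent.H60.Div

set_option autoImplicit false

open MeasureTheory Complex MvPolynomial
open scoped ContDiff

noncomputable section

namespace Pool.Agent.H60

variable {n : ℕ}

/-- the minors of the differentials of `P` and `r` -/
def Mi (r : V n → ℝ) (P : MvPolynomial (Fin n) ℂ) (j k : Fin n) (z : V n) : ℂ :=
  ev (pderiv j P) z * wd k (rc r) z - ev (pderiv k P) z * wd j (rc r) z

/-- the tangential field -/
def tf (r : V n → ℝ) (P : MvPolynomial (Fin n) ℂ) (j : Fin n) (z : V n) : ℂ :=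
  ∑ k, cj (Mi r P j k) z * wd k (rc r) z

/-- the size of the tangential gradient -/
def tau (r : V n → ℝ) (P : MvPolynomial (Fin n) ℂ) (z : V n) : ℝ :=
  (1 / 2) * ∑ j, ∑ k, ‖Mi r P j k z‖ ^ 2

lemma tau_nonneg (r : V n → ℝ) (P : MvPolynomial (Fin n) ℂ) (z : V n) : 0 ≤ tau r P z := by
  unfold tau; positivity

lemma contDiff_Mi {r : V n → ℝ} (hr : ContDiff ℝ ∞ r) (P : MvPolynomial (Fin n) ℂ)
    (j k : Fin n) : ContDiff ℝ ∞ (Mi r P j k) :=
  ((contDiff_ev _).mul (contDiff_wd k (contDiff_rc hr))).sub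
    ((contDiff_ev _).mul (contDiff_wd j (contDiff_rc hr)))

lemma contDiff_tf {r : V n → ℝ} (hr : ContDiff ℝ ∞ r) (P : MvPolynomial (Fin n) ℂ)
    (j : Fin n) : ContDiff ℝ ∞ (tf r P j) := by
  unfold tf
  exact ContDiff.sum fun k _ => (contDiff_cj (contDiff_Mi hr P j k)).mul
    (contDiff_wd k (contDiff_rc hr))

lemma continuous_tau {r : V n → ℝ} (hr : ContDiff ℝ ∞ r) (P : MvPolynomial (Fin n) ℂ) :
    Continuous (tau r P) := by
  unfold tau
  exact continuous_const.mul (continuous_finset_sum _ fun j _ => continuous_finset_sum _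
    fun k _ => ((contDiff_Mi hr P j k).continuous.norm.pow 2))

lemma Mi_antisymm (r : V n → ℝ) (P : MvPolynomial (Fin n) ℂ) (j k : Fin n) (z : V n) :
    Mi r P k j z = - Mi r P j k z := by
  unfold Mi; ring

lemma tf_r (r : V n → ℝ) (P : MvPolynomial (Fin n) ℂ) (z : V n) :
    ∑ j, tf r P j z * wd j (rc r) z = 0 := by
  have h1 : ∑ j, tf r P j z * wd j (rc r) z
      = ∑ j, ∑ k, cj (Mi r P j k) z * wd k (rc r) z * wd j (rc r) z := by
    apply Finset.sum_congr rfl
    intro j _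
    rw [tf, Finset.sum_mul]
  have h2 : ∑ j, ∑ k, cj (Mi r P j k) z * wd k (rc r) z * wd j (rc r) z
      = - ∑ j, ∑ k, cj (Mi r P j k) z * wd k (rc r) z * wd j (rc r) z := by
    conv_lhs => rw [Finset.sum_comm]
    rw [← Finset.sum_neg_distrib]
    apply Finset.sum_congr rfl
    intro j _
    rw [← Finset.sum_neg_distrib]
    apply Finset.sum_congr rfl
    intro k _
    unfold cj
    rw [Mi_antisymm r P j k, map_neg]
    ring
  rw [h1]
  have : (2 : ℂ) * ∑ j, ∑ k, cj (Mi r P j k) z * wd k (rc r) z * wd j (rc r) z = 0 := by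
    linear_combination h2
  simpa using this

lemma tf_P (r : V n → ℝ) (P : MvPolynomial (Fin n) ℂ) (z : V n) :
    ∑ j, tf r P j z * ev (pderiv j P) z = (tau r P z : ℂ) := by
  have h1 : ∑ j, tf r P j z * ev (pderiv j P) z
      = ∑ j, ∑ k, cj (Mi r P j k) z * (ev (pderiv j P) z * wd k (rc r) z) := by
    apply Finset.sum_congr rfl
    intro j _
    rw [tf, Finset.sum_mul]
    apply Finset.sum_congr rfl
    intro k _
    ring
  have h2 : ∑ j, ∑ k, cj (Mi r P j k) z * (ev (pderiv j P) z * wd k (rc r) z)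
      = - ∑ j, ∑ k, cj (Mi r P j k) z * (ev (pderiv k P) z * wd j (rc r) z) := by
    conv_lhs => rw [Finset.sum_comm]
    rw [← Finset.sum_neg_distrib]
    apply Finset.sum_congr rfl
    intro j _
    rw [← Finset.sum_neg_distrib]
    apply Finset.sum_congr rfl
    intro k _
    unfold cj
    rw [Mi_antisymm r P j k, map_neg]
    ring
  have h3 : (tau r P z : ℂ) = (1 / 2) * ∑ j, ∑ k, cj (Mi r P j k) z * Mi r P j k z := by
    unfold tau
    push_cast
    congr 1
    apply Finset.sum_congr rfl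
    intro j _
    apply Finset.sum_congr rfl
    intro k _
    unfold cj
    rw [mul_comm, Complex.mul_conj, Complex.normSq_eq_norm_sq]
    push_cast
    rfl
  have h4 : ∑ j, ∑ k, cj (Mi r P j k) z * Mi r P j k z
      = (∑ j, ∑ k, cj (Mi r P j k) z * (ev (pderiv j P) z * wd k (rc r) z))
      - ∑ j, ∑ k, cj (Mi r P j k) z * (ev (pderiv k P) z * wd j (rc r) z) := by
    rw [← Finset.sum_sub_distrib]
    apply Finset.sum_congr rfl
    intro j _
    rw [← Finset.sum_sub_distrib]
    apply Finset.sum_congr rfl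
    intro k _
    unfold Mi
    ring
  rw [h1, h3, h4]
  linear_combination (1 / 2) * h2

/-- the interior term -/
def Kt (r : V n → ℝ) (δ : ℝ) (g : V n → ℂ) : ℝ := ∫ z in {z | δ ≤ r z}, ‖g z‖ ^ 2

lemma Kt_nonneg (r : V n → ℝ) (δ : ℝ) (g : V n → ℂ) : 0 ≤ Kt r δ g :=
  integral_nonneg fun _ => by positivity

lemma isCompact_sup {r : V n → ℝ} (hr : ContDiff ℝ ∞ r) (hK : CptPos r) {δ : ℝ} (hδ : 0 < δ) :
    IsCompact {z | δ ≤ r z} := by
  obtain ⟨K, hK, hK'⟩ := hK
  refine hK.of_isClosed_subset (isClosed_le continuous_const hr.continuous) ?_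
  intro z hz
  exact hK' z (lt_of_lt_of_le hδ hz)

lemma integrableOn_Kt {r : V n → ℝ} (hr : ContDiff ℝ ∞ r) (hK : CptPos r) {δ : ℝ} (hδ : 0 < δ)
    {h : V n → ℝ} (hh : Continuous h) : IntegrableOn h {z | δ ≤ r z} :=
  hh.continuousOn.integrableOn_compact (isCompact_sup hr hK hδ)

/-- The tangential part of the division estimate. -/
lemma tang {r : V n → ℝ} (hr : ContDiff ℝ ∞ r) (hK : CptPos r) (P : MvPolynomial (Fin n) ℂ)
    (b : ℕ) (hb : 1 ≤ b) :
    ∃ A : ℝ, 0 < A ∧ ∀ l : ℝ, 0 < l → ∀ p : MvPolynomial (Fin n) ℂ,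
      ∫ z, (max (r z) 0) ^ (b + 1) * (tau r P z * ‖ev p z‖ ^ 2)
        ≤ A * (l * S r b (ev (P * p)) + l⁻¹ * S r (b + 1) (ev p)) := by
  have ha := contDiff_tf hr P
  let dv : V n → ℂ := fun z => ∑ j, wd j (tf r P j) z
  have hdv : Continuous dv := continuous_finset_sum _ fun j _ => (contDiff_wd j (ha j)).continuous
  obtain ⟨M1, hM1, hM1'⟩ := bddOnPos hK hdv
  obtain ⟨C2, hC2, hC2'⟩ := D2 hr hK ha (tf_r r P) (b + 1) (by omega)
  obtain ⟨C0, hC0, hC0'⟩ := S_mono_exp hr hK (b + 1) 1 (by omega)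
  refine ⟨1 / 2 + M1 / 2 + C2 / 2 + M1 / 2 * C0, by positivity, fun l hl p => ?_⟩
  have hg : ∀ j, ContDiff ℝ ∞ (fun z => ev (P * p) z * tf r P j z * cj (ev p) z) := fun j =>
    ((contDiff_ev _).mul (ha j)).mul (contDiff_cj (contDiff_ev _))
  have h1 := fun j => ibp hr hK (b + 1) (by omega) j (hg j)
  have h2 : ∀ j z, wd j (fun z => ev (P * p) z * tf r P j z * cj (ev p) z) z
      = (ev (pderiv j P) z * ev p z + ev P z * ev (pderiv j p) z) * tf r P j z * cj (ev p) z
        + ev (P * p) z * wd j (tf r P j) z * cj (ev p) z := by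
    intro j z
    rw [wd_mul j (((contDiff_ev _).mul (ha j)).differentiable (by simp) z)
      ((contDiff_cj (contDiff_ev _)).differentiable (by simp) z),
      wd_mul j ((contDiff_ev _).differentiable (by simp) z) ((ha j).differentiable (by simp) z),
      wd_ev, wd_cj_ev, Derivation.leibniz, smul_eq_mul, smul_eq_mul, ev_add, ev_mul, ev_mul]
    ring
  have h3 : ∑ j, ∫ z, rp r (b + 1) z * wd j (fun z => ev (P * p) z * tf r P j z
      * cj (ev p) z) z = 0 := by
    rw [Finset.sum_congr rfl fun j _ => h1 j, Finset.sum_neg_distrib, neg_eq_zero,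
      ← integral_finset_sum]
    · rw [show (fun z => ∑ j, rp r (b + 1 - 1) z * (((b + 1 : ℕ) : ℂ) * wd j (rc r) z *
        (ev (P * p) z * tf r P j z * cj (ev p) z))) = fun z => 0 from ?_]
      · simp
      funext z
      have := tf_r r P z
      calc ∑ j, rp r (b + 1 - 1) z * (((b + 1 : ℕ) : ℂ) * wd j (rc r) z *
            (ev (P * p) z * tf r P j z * cj (ev p) z))
          = (rp r (b + 1 - 1) z * ((b + 1 : ℕ) : ℂ) * ev (P * p) z * cj (ev p) z)
            * ∑ j, tf r P j z * wd j (rc r) z := by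
            rw [Finset.mul_sum]
            apply Finset.sum_congr rfl
            intro j _
            ring
        _ = 0 := by rw [this, mul_zero]
    · intro j _
      exact integrable_rp_mul hr hK _ (by omega)
        ((continuous_const.mul (contDiff_wd j (contDiff_rc hr)).continuous).mul
          (hg j).continuous)
  rw [← integral_finset_sum _ (fun j _ => integrable_rp_mul hr hK _ (by omega)
    (contDiff_wd j (hg j)).continuous)] at h3
  have h4 : (fun z => ∑ j, rp r (b + 1) z * wd j (fun z => ev (P * p) z * tf r P j z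
      * cj (ev p) z) z)
      = fun z => rp r (b + 1) z * ((tau r P z : ℂ) * (ev p z * cj (ev p) z))
        + (rp r (b + 1) z * (1 * (ev P z * cj (ev p) z) * X10 (tf r P) p z)
        + rp r (b + 1) z * (dv z * ev (P * p) z * cj (ev p) z)) := by
    funext z
    simp only [h2]
    rw [← Finset.mul_sum, Finset.sum_add_distrib]
    have e1 : ∑ j, (ev (pderiv j P) z * ev p z + ev P z * ev (pderiv j p) z) * tf r P j z
        * cj (ev p) z = (tau r P z : ℂ) * (ev p z * cj (ev p) z)
          + (ev P z * cj (ev p) z) * X10 (tf r P) p z := by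
      rw [← tf_P, X10, Finset.sum_mul, Finset.mul_sum, ← Finset.sum_add_distrib]
      apply Finset.sum_congr rfl
      intro j _
      ring
    have e2 : ∑ j, ev (P * p) z * wd j (tf r P j) z * cj (ev p) z
        = dv z * ev (P * p) z * cj (ev p) z := by
      simp only [dv]
      rw [Finset.sum_mul, Finset.sum_mul]
      apply Finset.sum_congr rfl
      intro j _
      ring
    rw [e1, e2]
    ring
  rw [h4] at h3
  have i1 : Integrable (fun z => rp r (b + 1) z * ((tau r P z : ℂ) * (ev p z * cj (ev p) z))) :=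
    integrable_rp_mul hr hK _ (by omega) ((Complex.continuous_ofReal.comp
      (continuous_tau hr P)).mul ((contDiff_ev p).mul (contDiff_cj (contDiff_ev p))).continuous)
  have i2 : Integrable (fun z => rp r (b + 1) z * (1 * (ev P z * cj (ev p) z)
      * X10 (tf r P) p z)) :=
    integrable_rp_mul hr hK _ (by omega)
      ((continuous_const.mul ((contDiff_ev P).mul (contDiff_cj (contDiff_ev p))).continuous).mul
        (contDiff_X10 ha p).continuous)
  have i3 : Integrable (fun z => rp r (b + 1) z * (dv z * ev (P * p) z * cj (ev p) z)) :=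
    integrable_rp_mul hr hK _ (by omega)
      ((hdv.mul (continuous_ev _)).mul (contDiff_cj (contDiff_ev _)).continuous)
  have i4 : Integrable (fun z => rp r (b + 1) z * (1 * (ev P z * cj (ev p) z)
      * X10 (tf r P) p z) + rp r (b + 1) z * (dv z * ev (P * p) z * cj (ev p) z)) := i2.add i3
  rw [integral_add i1 i4, integral_add i2 i3] at h3
  have h5 : ∫ z, rp r (b + 1) z * ((tau r P z : ℂ) * (ev p z * cj (ev p) z))
      = (((∫ z, (max (r z) 0) ^ (b + 1) * (tau r P z * ‖ev p z‖ ^ 2)) : ℝ) : ℂ) := by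
    rw [← integral_complex_ofReal]
    refine integral_congr_ae (Filter.Eventually.of_forall fun z => ?_)
    simp only [rp, cj]
    rw [Complex.mul_conj, Complex.normSq_eq_norm_sq]
    push_cast
    ring
  rw [h5] at h3
  have hTn : 0 ≤ ∫ z, (max (r z) 0) ^ (b + 1) * (tau r P z * ‖ev p z‖ ^ 2) :=
    integral_nonneg fun z => by
      have := tau_nonneg r P z
      positivity
  have h6 : (((∫ z, (max (r z) 0) ^ (b + 1) * (tau r P z * ‖ev p z‖ ^ 2)) : ℝ) : ℂ)
      = - ((∫ z, rp r (b + 1) z * (1 * (ev P z * cj (ev p) z) * X10 (tf r P) p z))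
        + ∫ z, rp r (b + 1) z * (dv z * ev (P * p) z * cj (ev p) z)) := by
    linear_combination h3
  have h7 := congrArg norm h6
  rw [norm_neg, Complex.norm_real, Real.norm_eq_abs, abs_of_nonneg hTn] at h7
  rw [h7]
  refine (norm_add_le _ _).trans ?_
  have h8 := cs hr hK (k := b + 1) (k1 := b) (k2 := b + 2) (by omega) (by omega) (by omega)
    (c := fun _ => 1) (u := fun z => ev P z * cj (ev p) z) (v := X10 (tf r P) p)
    ((contDiff_ev P).mul (contDiff_cj (contDiff_ev p))).continuous (contDiff_X10 ha p).continuous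
    zero_le_one (fun z _ => by simp) hl
  have h9 : S r b (fun z => ev P z * cj (ev p) z) = S r b (ev (P * p)) := by
    unfold S cj
    refine integral_congr_ae (Filter.Eventually.of_forall fun z => ?_)
    simp [ev_mul]
  rw [h9] at h8
  have h10 := cs hr hK (k := b + 1) (k1 := b) (k2 := b + 2) (by omega) (by omega) (by omega)
    (c := dv) (u := ev (P * p)) (v := cj (ev p))
    (continuous_ev _) (contDiff_cj (contDiff_ev p)).continuous
    hM1.le hM1' hl
  rw [S_cj] at h10
  have h11 := hC2' p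
  have h12 := hC0' (ev p) (continuous_ev p)
  have hli : 0 < l⁻¹ := by positivity
  have s1 := S_nonneg r b (ev (P * p))
  have s2 := S_nonneg r (b + 1) (ev p)
  have h13 : l⁻¹ * S r (b + 2) (X10 (tf r P) p) ≤ l⁻¹ * (C2 * S r (b + 1) (ev p)) :=
    mul_le_mul_of_nonneg_left h11 hli.le
  have h14 : l⁻¹ * S r (b + 2) (ev p) ≤ l⁻¹ * (C0 * S r (b + 1) (ev p)) :=
    mul_le_mul_of_nonneg_left h12 hli.le
  have h15 : M1 / 2 * (l * S r b (ev (P * p)) + l⁻¹ * S r (b + 2) (ev p))
      ≤ M1 / 2 * (l * S r b (ev (P * p)) + l⁻¹ * (C0 * S r (b + 1) (ev p))) :=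
    mul_le_mul_of_nonneg_left (by linarith) (by positivity)
  have t1 : 0 ≤ l * S r b (ev (P * p)) := by positivity
  have t2 : 0 ≤ l⁻¹ * S r (b + 1) (ev p) := by positivity
  have h16 := h8.trans (show _ ≤ 1 / 2 * (l * S r b (ev (P * p))
      + l⁻¹ * (C2 * S r (b + 1) (ev p))) by linarith)
  have h17 := h10.trans h15
  refine (add_le_add h16 h17).trans ?_
  set A1 := l * S r b (ev (P * p))
  set B1 := l⁻¹ * S r (b + 1) (ev p) with hB1
  have e1 : l⁻¹ * (C2 * S r (b + 1) (ev p)) = C2 * B1 := by rw [hB1]; ring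
  have e2 : l⁻¹ * (C0 * S r (b + 1) (ev p)) = C0 * B1 := by rw [hB1]; ring
  rw [e1, e2]
  have q1 : 0 ≤ C2 * A1 := by positivity
  have q2 : 0 ≤ M1 * C0 * A1 := by positivity
  have q3 : 0 ≤ M1 * B1 := by positivity
  nlinarith

/-- The division estimate. -/
theorem divEst {r : V n → ℝ} (hr : ContDiff ℝ ∞ r) (hK : CptPos r) (P : MvPolynomial (Fin n) ℂ)
    (b : ℕ) (hb : 1 ≤ b) {δ c : ℝ} (hδ : 0 < δ) (hc : 0 < c)
    (hP : ∀ z, 0 < r z → r z < δ → c ≤ ‖ev P z‖ ^ 2 + tau r P z) :
    ∃ C : ℝ, 0 < C ∧ ∀ p : MvPolynomial (Fin n) ℂ,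
      S r (b + 1) (ev p) ≤ C * (S r b (ev (P * p)) + Kt r δ (ev p)) := by
  obtain ⟨A, hA, hA'⟩ := tang hr hK P b hb
  obtain ⟨C0, hC0, hC0'⟩ := S_mono_exp hr hK b 1 (by omega)
  obtain ⟨M, hM, hM'⟩ := bddOnPos hK hr.continuous
  set l : ℝ := 2 * A / c with hl
  have hl0 : 0 < l := by positivity
  refine ⟨2 * (c⁻¹ * (C0 + A * l) + M ^ (b + 1)), by positivity, fun p => ?_⟩
  have s1 := S_nonneg r b (ev (P * p))
  have s2 := S_nonneg r (b + 1) (ev p)
  have s3 := Kt_nonneg r δ (ev p)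
  have hT := hA' l hl0 p
  -- the pointwise inequality
  have hpt : ∀ z, (max (r z) 0) ^ (b + 1) * ‖ev p z‖ ^ 2
      ≤ c⁻¹ * ((max (r z) 0) ^ (b + 1) * ‖ev (P * p) z‖ ^ 2
        + (max (r z) 0) ^ (b + 1) * (tau r P z * ‖ev p z‖ ^ 2))
        + M ^ (b + 1) * Set.indicator {z | δ ≤ r z} (fun z => ‖ev p z‖ ^ 2) z := by
    intro z
    have htau := tau_nonneg r P z
    rcases le_or_gt (r z) 0 with hz | hz
    · rw [max_eq_right hz, zero_pow (by omega)]
      have : 0 ≤ Set.indicator {z | δ ≤ r z} (fun z => ‖ev p z‖ ^ 2) z :=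
        Set.indicator_nonneg (fun _ _ => by positivity) z
      simp only [zero_mul, add_zero, mul_zero, zero_add]
      positivity
    · rcases lt_or_ge (r z) δ with hz2 | hz2
      · have h1 := hP z hz hz2
        have h2 : Set.indicator {z | δ ≤ r z} (fun z => ‖ev p z‖ ^ 2) z = 0 := by
          apply Set.indicator_of_notMem
          simpa using hz2
        rw [h2, mul_zero, add_zero, ev_mul, norm_mul, mul_pow]
        have h3 : (max (r z) 0) ^ (b + 1) * (‖ev P z‖ ^ 2 * ‖ev p z‖ ^ 2)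
            + (max (r z) 0) ^ (b + 1) * (tau r P z * ‖ev p z‖ ^ 2)
            = (‖ev P z‖ ^ 2 + tau r P z) * ((max (r z) 0) ^ (b + 1) * ‖ev p z‖ ^ 2) := by ring
        rw [h3, ← mul_assoc]
        have h4 : 1 ≤ c⁻¹ * (‖ev P z‖ ^ 2 + tau r P z) := by
          rw [inv_mul_eq_div, le_div_iff₀ hc]; linarith
        have h5 : 0 ≤ (max (r z) 0) ^ (b + 1) * ‖ev p z‖ ^ 2 := by positivity
        nlinarith
      · have h2 : Set.indicator {z | δ ≤ r z} (fun z => ‖ev p z‖ ^ 2) z = ‖ev p z‖ ^ 2 := by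
          apply Set.indicator_of_mem
          exact hz2
        rw [h2]
        have h1 : max (r z) 0 ≤ M := by
          rw [max_eq_left hz.le]
          exact (le_abs_self _).trans (hM' z hz)
        have h3 : (max (r z) 0) ^ (b + 1) ≤ M ^ (b + 1) :=
          pow_le_pow_left₀ (le_max_right _ _) h1 _
        have h4 : (max (r z) 0) ^ (b + 1) * ‖ev p z‖ ^ 2 ≤ M ^ (b + 1) * ‖ev p z‖ ^ 2 :=
          mul_le_mul_of_nonneg_right h3 (by positivity)
        have h5 : 0 ≤ c⁻¹ * ((max (r z) 0) ^ (b + 1) * ‖ev (P * p) z‖ ^ 2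
          + (max (r z) 0) ^ (b + 1) * (tau r P z * ‖ev p z‖ ^ 2)) := by positivity
        linarith
  have i1 : Integrable (fun z => (max (r z) 0) ^ (b + 1) * ‖ev (P * p) z‖ ^ 2) :=
    integrable_S hr hK _ (by omega) (continuous_ev _)
  have i2 : Integrable (fun z => (max (r z) 0) ^ (b + 1) * (tau r P z * ‖ev p z‖ ^ 2)) :=
    integrable_real hr hK _ (by omega) ((continuous_tau hr P).mul ((continuous_ev p).norm.pow 2))
  have hms : MeasurableSet {z : V n | δ ≤ r z} :=
    (isClosed_le continuous_const hr.continuous).measurableSet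
  have i3 : Integrable (Set.indicator {z | δ ≤ r z} (fun z => ‖ev p z‖ ^ 2)) :=
    (integrableOn_Kt hr hK hδ ((continuous_ev p).norm.pow 2)).integrable_indicator hms
  have h1 : S r (b + 1) (ev p) ≤ c⁻¹ * (S r (b + 1) (ev (P * p))
      + ∫ z, (max (r z) 0) ^ (b + 1) * (tau r P z * ‖ev p z‖ ^ 2))
      + M ^ (b + 1) * Kt r δ (ev p) := by
    have e : c⁻¹ * (S r (b + 1) (ev (P * p))
        + ∫ z, (max (r z) 0) ^ (b + 1) * (tau r P z * ‖ev p z‖ ^ 2))
        + M ^ (b + 1) * Kt r δ (ev p)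
        = ∫ z, (c⁻¹ * ((max (r z) 0) ^ (b + 1) * ‖ev (P * p) z‖ ^ 2
        + (max (r z) 0) ^ (b + 1) * (tau r P z * ‖ev p z‖ ^ 2))
        + M ^ (b + 1) * Set.indicator {z | δ ≤ r z} (fun z => ‖ev p z‖ ^ 2) z) := by
      have i4 : Integrable (fun z => c⁻¹ * ((max (r z) 0) ^ (b + 1) * ‖ev (P * p) z‖ ^ 2
          + (max (r z) 0) ^ (b + 1) * (tau r P z * ‖ev p z‖ ^ 2))) := (i1.add i2).const_mul _
      rw [integral_add i4 (i3.const_mul _), integral_const_mul,
        integral_const_mul, integral_indicator hms, integral_add i1 i2]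
      rfl
    rw [e]
    exact integral_mono (integrable_S hr hK _ (by omega) (continuous_ev p))
      (((i1.add i2).const_mul _).add (i3.const_mul _)) hpt
  have h2 := hC0' (ev (P * p)) (continuous_ev _)
  have hci : 0 < c⁻¹ := by positivity
  have h3 : c⁻¹ * (A * (l⁻¹ * S r (b + 1) (ev p))) = 1 / 2 * S r (b + 1) (ev p) := by
    rw [hl]; field_simp
  have h4 : S r (b + 1) (ev p) ≤ c⁻¹ * (C0 * S r b (ev (P * p))
      + A * (l * S r b (ev (P * p)) + l⁻¹ * S r (b + 1) (ev p)))
      + M ^ (b + 1) * Kt r δ (ev p) := by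
    refine h1.trans ?_
    have := mul_le_mul_of_nonneg_left (add_le_add h2 hT) hci.le
    linarith
  have h5 : S r (b + 1) (ev p) ≤ 2 * (c⁻¹ * (C0 + A * l) * S r b (ev (P * p))
      + M ^ (b + 1) * Kt r δ (ev p)) := by
    have e : c⁻¹ * (C0 * S r b (ev (P * p))
      + A * (l * S r b (ev (P * p)) + l⁻¹ * S r (b + 1) (ev p)))
      = c⁻¹ * (C0 + A * l) * S r b (ev (P * p)) + c⁻¹ * (A * (l⁻¹ * S r (b + 1) (ev p))) := by
      ring
    rw [e, h3] at h4
    linarith
  refine h5.trans ?_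
  have q1 : 0 ≤ c⁻¹ * (C0 + A * l) * Kt r δ (ev p) := by positivity
  have q2 : 0 ≤ M ^ (b + 1) * S r b (ev (P * p)) := by positivity
  nlinarith

end Pool.Agent.H60
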