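import Pool.Agent.H60.Poly

set_option autoImplicit false

open MeasureTheory Complex MvPolynomial
open scoped ContDiff

noncomputable section

namespace Pool.Agent.H60

variable {n : ℕ}

/-- Cauchy estimate for directional derivatives -/
lemma norm_fderiv_apply_le {f : V n → ℂ} (hf : Differentiable ℂ f) (z v : V n) {M : ℝ}
    (hM : ∀ w ∈ Metric.closedBall z 1, ‖f w‖ ≤ M) : ‖fderiv ℂ f z v‖ ≤ M * ‖v‖ := by
  by_cases hv : v = 0
  · subst hv; simp
  have hv0 : 0 < ‖v‖ := norm_pos_iff.mpr hv
  let φ : ℂ → ℂ := fun t => f (z + t • v)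
  have hline : Differentiable ℂ (fun t : ℂ => z + t • v) := by fun_prop
  have hφ : Differentiable ℂ φ := hf.comp hline
  have hd : deriv φ 0 = fderiv ℂ f z v := by
    have h1 : HasFDerivAt f (fderiv ℂ f z) (z + (0 : ℂ) • v) := by
      rw [zero_smul, add_zero]
      exact (hf z).hasFDerivAt
    have h2 : HasDerivAt (fun t : ℂ => z + t • v) v 0 := by
      have := ((hasDerivAt_id (0 : ℂ)).smul_const v).const_add z
      simpa using this
    exact (h1.comp_hasDerivAt 0 h2).deriv
  rw [← hd]
  have h1 := Complex.norm_deriv_le_of_forall_mem_sphere_norm_le (c := 0) (R := ‖v‖⁻¹) (C := M)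
    (f := φ) (by positivity) hφ.diffContOnCl (fun t ht => by
      apply hM
      rw [mem_sphere_zero_iff_norm] at ht
      rw [Metric.mem_closedBall, dist_eq_norm, add_sub_cancel_left, norm_smul, ht,
        inv_mul_cancel₀ hv0.ne'])
  rwa [div_inv_eq_mul] at h1

lemma norm_fderiv_le_of {f : V n → ℂ} (hf : Differentiable ℂ f) (z : V n) {M : ℝ} (hM0 : 0 ≤ M)
    (hM : ∀ w ∈ Metric.closedBall z 1, ‖f w‖ ≤ M) : ‖fderiv ℂ f z‖ ≤ M :=
  ContinuousLinearMap.opNorm_le_bound _ hM0 fun v => norm_fderiv_apply_le hf z v hM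

/-- the kernel in the Cauchy formula -/
def Kc (θ : ℝ) : ℂ := (2 * Real.pi * I)⁻¹ * (circleMap 0 1 θ * I) * ((circleMap 0 1 θ) ^ 2)⁻¹

lemma continuous_Kc : Continuous Kc := by
  unfold Kc
  have h1 : Continuous (circleMap 0 1) := continuous_circleMap 0 1
  have h2 : ∀ θ, (circleMap 0 1 θ) ^ 2 ≠ 0 := fun θ => by
    apply pow_ne_zero
    exact circleMap_ne_center one_ne_zero
  exact (continuous_const.mul (h1.mul continuous_const)).mul ((h1.pow 2).inv₀ h2)

lemma dir_formula {f : V n → ℂ} (hf : Differentiable ℂ f) (z v : V n) :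
    fderiv ℂ f z v = ∫ θ in (0 : ℝ)..(2 * Real.pi), Kc θ * f (z + circleMap 0 1 θ • v) := by
  let φ : ℂ → ℂ := fun t => f (z + t • v)
  have hline : Differentiable ℂ (fun t : ℂ => z + t • v) := by fun_prop
  have hφ : Differentiable ℂ φ := hf.comp hline
  have hd : deriv φ 0 = fderiv ℂ f z v := by
    have h1 : HasFDerivAt f (fderiv ℂ f z) (z + (0 : ℂ) • v) := by
      rw [zero_smul, add_zero]
      exact (hf z).hasFDerivAt
    have h2 : HasDerivAt (fun t : ℂ => z + t • v) v 0 := by
      have := ((hasDerivAt_id (0 : ℂ)).smul_const v).const_add z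
      simpa using this
    exact (h1.comp_hasDerivAt 0 h2).deriv
  rw [← hd, ← Complex.cderiv_eq_deriv isOpen_univ hφ.differentiableOn one_pos
    (Set.subset_univ _)]
  unfold Complex.cderiv circleIntegral
  rw [smul_eq_mul, ← intervalIntegral.integral_const_mul]
  apply intervalIntegral.integral_congr
  intro θ _
  simp only [deriv_circleMap, smul_eq_mul, sub_zero, Kc, φ]
  ring

/-- directional derivatives of entire functions are entire -/
lemma differentiable_dir {f : V n → ℂ} (hf : Differentiable ℂ f) (v : V n) :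
    Differentiable ℂ (fun z => fderiv ℂ f z v) := by
  intro z0
  have hfc : Continuous f := hf.continuous
  -- bound for f on a big ball
  obtain ⟨M, hM⟩ := (isCompact_closedBall z0 (2 + ‖v‖)).exists_bound_of_continuousOn
    hfc.continuousOn
  have hM0 : 0 ≤ M := (norm_nonneg _).trans (hM z0 (Metric.mem_closedBall_self (by positivity)))
  have hder : ∀ x ∈ Metric.ball z0 1, ∀ θ : ℝ,
      ‖fderiv ℂ f (x + circleMap 0 1 θ • v)‖ ≤ M := by
    intro x hx θ
    apply norm_fderiv_le_of hf _ hM0
    intro w hw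
    apply hM
    rw [Metric.mem_closedBall] at hw ⊢
    rw [Metric.mem_ball] at hx
    have h1 : dist (x + circleMap 0 1 θ • v) x ≤ ‖v‖ := by
      rw [dist_eq_norm, add_sub_cancel_left, norm_smul]
      simp [norm_circleMap_zero]
    have h2 := dist_triangle w (x + circleMap 0 1 θ • v) z0
    have h3 := dist_triangle (x + circleMap 0 1 θ • v) x z0
    linarith
  obtain ⟨MK, hMK⟩ := (isCompact_Icc (a := (0 : ℝ)) (b := 2 * Real.pi)).exists_bound_of_continuousOn
    continuous_Kc.continuousOn
  have hcirc : Continuous (fun θ : ℝ => circleMap 0 1 θ • v) :=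
    (continuous_circleMap 0 1).smul continuous_const
  have key := intervalIntegral.hasFDerivAt_integral_of_dominated_of_fderiv_le (𝕜 := ℂ)
    (μ := volume) (a := 0) (b := 2 * Real.pi) (s := Metric.ball z0 1)
    (F := fun x θ => Kc θ * f (x + circleMap 0 1 θ • v))
    (F' := fun x θ => Kc θ • fderiv ℂ f (x + circleMap 0 1 θ • v)) (x₀ := z0)
    (bound := fun _ => MK * M)
    (Metric.ball_mem_nhds z0 one_pos)
    (Filter.Eventually.of_forall fun x =>
      (continuous_Kc.mul (hfc.comp (continuous_const.add hcirc))).aestronglyMeasurable)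
    ((continuous_Kc.mul (hfc.comp (continuous_const.add hcirc))).intervalIntegrable _ _)
    (by
      have h1 : Measurable (fun θ : ℝ => fderiv ℂ f (z0 + circleMap 0 1 θ • v)) :=
        (measurable_fderiv ℂ f).comp (continuous_const.add hcirc).measurable
      exact (continuous_Kc.measurable.smul h1).aestronglyMeasurable)
    (Filter.Eventually.of_forall fun θ hθ x hx => by
      rw [norm_smul]
      have hθ' : θ ∈ Set.Icc (0 : ℝ) (2 * Real.pi) := by
        rw [Set.uIoc_of_le (by positivity)] at hθ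
        exact Set.Ioc_subset_Icc_self hθ
      exact mul_le_mul (hMK θ hθ') (hder x hx θ) (norm_nonneg _)
        ((norm_nonneg _).trans (hMK θ hθ')))
    (continuous_const.intervalIntegrable _ _)
    (Filter.Eventually.of_forall fun θ _ x _ => by
      have h1 : HasFDerivAt (fun x : V n => x + circleMap 0 1 θ • v)
          (ContinuousLinearMap.id ℂ (V n)) x := (hasFDerivAt_id x).add_const _
      have h2 := (hf (x + circleMap 0 1 θ • v)).hasFDerivAt.comp x h1
      have h3 := h2.const_mul (Kc θ)
      simpa using h3)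
  have hfun : (fun z => fderiv ℂ f z v)
      = fun x => ∫ θ in (0 : ℝ)..(2 * Real.pi), Kc θ * f (x + circleMap 0 1 θ • v) := by
    funext z
    exact dir_formula hf z v
  rw [hfun]
  exact key.differentiableAt

/-- partial derivative of a function -/
def pd (j : Fin n) (f : V n → ℂ) (z : V n) : ℂ := fderiv ℂ f z (Pi.single j 1)

lemma differentiable_pd (j : Fin n) {f : V n → ℂ} (hf : Differentiable ℂ f) :
    Differentiable ℂ (pd j f) := differentiable_dir hf _

/-- the homogeneous part of degree `k` -/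
def hk (f : V n → ℂ) (k : ℕ) (z : V n) : ℂ :=
  (k.factorial : ℂ)⁻¹ * iteratedDeriv k (fun t : ℂ => f (t • z)) 0

lemma diff_line {f : V n → ℂ} (hf : Differentiable ℂ f) (z : V n) :
    Differentiable ℂ (fun t : ℂ => f (t • z)) :=
  hf.comp (by fun_prop : Differentiable ℂ (fun t : ℂ => t • z))

lemma deriv_line {f : V n → ℂ} (hf : Differentiable ℂ f) (z : V n) :
    deriv (fun t : ℂ => f (t • z)) = fun t => ∑ j, z j * pd j f (t • z) := by
  funext t
  have h2 : HasDerivAt (fun t : ℂ => t • z) z t := by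
    have := (hasDerivAt_id t).smul_const z
    simpa using this
  have h3 := ((hf (t • z)).hasFDerivAt.comp_hasDerivAt t h2).deriv
  have h4 : (f ∘ fun t : ℂ => t • z) = fun t : ℂ => f (t • z) := rfl
  rw [h4] at h3
  rw [h3]
  have h5 : z = ∑ j, z j • (Pi.single j (1 : ℂ) : V n) := by
    funext i
    simp [Finset.sum_apply, Pi.single_apply]
  conv_lhs => rw [h5]
  rw [map_sum]
  apply Finset.sum_congr rfl
  intro j _
  rw [map_smul, smul_eq_mul, ← h5]
  rfl

/-- each homogeneous part is a polynomial -/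
lemma hk_poly (k : ℕ) : ∀ (f : V n → ℂ), Differentiable ℂ f →
    ∃ p : MvPolynomial (Fin n) ℂ, ∀ z, hk f k z = ev p z := by
  induction k with
  | zero =>
    intro f _
    refine ⟨C (f 0), fun z => ?_⟩
    simp [hk, ev]
  | succ k ih =>
    intro f hf
    choose p hp using fun j => ih (pd j f) (differentiable_pd j hf)
    refine ⟨C ((k + 1 : ℂ)⁻¹) * ∑ j, X j * p j, fun z => ?_⟩
    unfold hk
    rw [iteratedDeriv_succ', deriv_line hf z]
    have h1 : iteratedDeriv k (fun t : ℂ => ∑ j, z j * pd j f (t • z)) 0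
        = ∑ j, z j * iteratedDeriv k (fun t : ℂ => pd j f (t • z)) 0 := by
      have hc : ∀ j, ContDiff ℂ k (fun t : ℂ => pd j f (t • z)) := fun j =>
        (diff_line (differentiable_pd j hf) z).contDiff
      have e1 : (fun t : ℂ => ∑ j, z j * pd j f (t • z))
          = ∑ j, fun t : ℂ => z j * pd j f (t • z) := by
        funext t; simp
      rw [e1, iteratedDeriv_sum]
      · apply Finset.sum_congr rfl
        intro j _
        rw [iteratedDeriv_const_mul_field]
      · intro j _
        exact (contDiff_const.mul (hc j)).contDiffAt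
    rw [h1]
    have h2 : ∀ j, iteratedDeriv k (fun t : ℂ => pd j f (t • z)) 0
        = (k.factorial : ℂ) * ev (p j) z := by
      intro j
      rw [← hp j z, hk]
      have : (k.factorial : ℂ) ≠ 0 := by exact_mod_cast Nat.factorial_ne_zero k
      field_simp
    simp only [h2]
    have h3 : ev (C ((k + 1 : ℂ)⁻¹) * ∑ j, X j * p j) z
        = (k + 1 : ℂ)⁻¹ * ∑ j, z j * ev (p j) z := by
      simp [ev]
    rw [h3, Finset.mul_sum, Finset.mul_sum]
    apply Finset.sum_congr rfl
    intro j _
    have h4 : (k.factorial : ℂ) ≠ 0 := by exact_mod_cast Nat.factorial_ne_zero k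
    have h5 : (k + 1 : ℂ) ≠ 0 := by exact_mod_cast Nat.succ_ne_zero k
    rw [Nat.factorial_succ]
    push_cast
    field_simp

/-- polynomial approximation of entire functions -/
theorem exists_poly_approx {f : V n → ℂ} (hf : Differentiable ℂ f) (R : ℝ) {ε : ℝ}
    (hε : 0 < ε) : ∃ p : MvPolynomial (Fin n) ℂ, ∀ z ∈ Metric.closedBall (0 : V n) R,
      ‖f z - ev p z‖ ≤ ε := by
  obtain ⟨M, hM⟩ := (isCompact_closedBall (0 : V n) (2 * R)).exists_bound_of_continuousOn
    hf.continuous.continuousOn
  choose p hp using fun k => hk_poly k f hf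
  obtain ⟨N, hN⟩ : ∃ N : ℕ, |M| * 2 * (1 / 2 : ℝ) ^ N < ε := by
    have h1 : Filter.Tendsto (fun N : ℕ => |M| * 2 * (1 / 2 : ℝ) ^ N) Filter.atTop
        (nhds (|M| * 2 * 0)) :=
      (tendsto_pow_atTop_nhds_zero_of_lt_one (by norm_num) (by norm_num)).const_mul _
    rw [mul_zero] at h1
    exact (h1.eventually (gt_mem_nhds hε)).exists
  refine ⟨∑ k ∈ Finset.range N, p k, fun z hz => ?_⟩
  rw [mem_closedBall_zero_iff] at hz
  have hbd : ∀ k, ‖hk f k z‖ ≤ |M| * (1 / 2) ^ k := by
    intro k
    have h1 := Complex.norm_iteratedDeriv_le_of_forall_mem_sphere_norm_le (c := 0) (R := 2)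
      (C := |M|) (f := fun t : ℂ => f (t • z)) k two_pos (diff_line hf z).diffContOnCl
      (fun t ht => by
        refine (hM _ ?_).trans (le_abs_self M)
        rw [mem_sphere_zero_iff_norm] at ht
        rw [mem_closedBall_zero_iff, norm_smul, ht]
        linarith)
    unfold hk
    rw [norm_mul, norm_inv, Complex.norm_natCast]
    have h2 : (0 : ℝ) < k.factorial := by exact_mod_cast Nat.factorial_pos k
    calc (k.factorial : ℝ)⁻¹ * ‖iteratedDeriv k (fun t : ℂ => f (t • z)) 0‖
        ≤ (k.factorial : ℝ)⁻¹ * (k.factorial * |M| / 2 ^ k) :=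
          mul_le_mul_of_nonneg_left h1 (by positivity)
      _ = |M| * (1 / 2) ^ k := by
          rw [one_div, inv_pow]
          field_simp
  have hsum : HasSum (fun k => hk f k z) (f z) := by
    have h1 := Complex.hasSum_taylorSeries_of_entire (diff_line hf z) 0 1
    simp only [sub_zero, one_pow, one_smul, smul_eq_mul, one_mul] at h1
    exact h1
  have h3 : f z - ev (∑ k ∈ Finset.range N, p k) z = ∑' i, hk f (i + N) z := by
    have : ev (∑ k ∈ Finset.range N, p k) z = ∑ k ∈ Finset.range N, hk f k z := by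
      simp only [hp]
      simp [ev]
    rw [this]
    have h4 := hsum.summable.sum_add_tsum_nat_add N
    rw [hsum.tsum_eq] at h4
    rw [← h4]
    ring
  rw [h3]
  have hgeo : HasSum (fun i : ℕ => |M| * (1 / 2 : ℝ) ^ (i + N)) (|M| * 2 * (1 / 2) ^ N) := by
    have h5 := (hasSum_geometric_two).mul_left (|M| * (1 / 2 : ℝ) ^ N)
    have e1 : (fun i : ℕ => |M| * (1 / 2 : ℝ) ^ N * (1 / 2) ^ i)
        = fun i : ℕ => |M| * (1 / 2 : ℝ) ^ (i + N) := by
      funext i
      rw [pow_add]
      ring
    rw [e1] at h5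
    have e2 : |M| * (1 / 2 : ℝ) ^ N * 2 = |M| * 2 * (1 / 2) ^ N := by ring
    rwa [e2] at h5
  refine (tsum_of_norm_bounded hgeo fun i => hbd (i + N)).trans hN.le

end Pool.Agent.H60
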