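import Pool.Agent.H60.Op

set_option autoImplicit false

open MeasureTheory Complex MvPolynomial
open scoped ContDiff

noncomputable section

namespace Pool.Agent.H60

variable {n : ℕ}

/-- A defining function adapted to `P`. -/
structure Adapted (P : MvPolynomial (Fin n) ℂ) (r : V n → ℝ) (δ c C : ℝ) : Prop where
  smooth : ContDiff ℝ ∞ r
  cpt : CptPos r
  δpos : 0 < δ
  cpos : 0 < c
  Cpos : 0 < C
  lower : ∀ z, 0 < r z → r z < δ →
    c * ‖ev P z‖ ^ 2 ≤ (ev P z * (starRingEnd ℂ) (ev (lead P) (eta r z))).re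
  upper : ∀ z, 0 < r z → r z < δ → ‖ev (lead P) (eta r z)‖ ≤ C * ‖ev P z‖
  nondeg : ∀ z, 0 < r z → r z < δ → c ≤ ‖ev P z‖ ^ 2 + tau r P z

/-- the density -/
def rho (P : MvPolynomial (Fin n) ℂ) (r : V n → ℝ) (z : V n) : ℝ :=
  (max (r z) 0) ^ 1 * ‖ev P z‖ ^ 2 + (max (r z) 0) ^ 2

lemma rho_nonneg (P : MvPolynomial (Fin n) ℂ) (r : V n → ℝ) (z : V n) : 0 ≤ rho P r z := by
  unfold rho
  have : 0 ≤ max (r z) 0 := le_max_right _ _
  positivity

lemma continuous_rho (P : MvPolynomial (Fin n) ℂ) {r : V n → ℝ} (hr : ContDiff ℝ ∞ r) :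
    Continuous (rho P r) := by
  unfold rho
  have h1 := hr.continuous
  have h2 := continuous_ev P
  fun_prop

lemma norm_rp (r : V n → ℝ) (k : ℕ) (z : V n) : ‖rp r k z‖ = (max (r z) 0) ^ k := by
  unfold rp
  rw [Complex.norm_real, Real.norm_eq_abs, abs_of_nonneg (by positivity)]

theorem garding {P : MvPolynomial (Fin n) ℂ} {r : V n → ℝ} {δ c C : ℝ}
    (hA : Adapted P r δ c C) :
    ∃ W : V n → ℂ, Continuous W ∧
      (∀ U H : MvPolynomial (Fin n) ℂ,
        ∫ z, rp r (P.totalDegree + 1) z * (ev (Dop P U) z * cj (ev H) z)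
        = ∫ z, (ev U z * cj (ev H) z) * W z) ∧
      (∃ C5 : ℝ, 0 < C5 ∧ ∀ z, ‖ev P z * W z‖ ≤ C5 * rho P r z) ∧
      (∃ c2 C2 δ2 : ℝ, 0 < c2 ∧ 0 < C2 ∧ 0 < δ2 ∧ ∀ F : MvPolynomial (Fin n) ℂ,
        c2 * (S r 1 (ev (P * F)) + S r 2 (ev F)) - C2 * Kt r δ2 (ev F)
          ≤ (∫ z, (ev (P * F) z * cj (ev F) z) * W z).re) := by
  have hr := hA.smooth
  have hK := hA.cpt
  have hδ := hA.δpos
  have hc := hA.cpos
  have hC := hA.Cpos
  obtain ⟨E, hE, hE'⟩ := adj_Dop hr hK P
  set κ : ℝ := ((P.totalDegree + 1).factorial : ℝ) with hκ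
  have hκ0 : 0 < κ := by rw [hκ]; exact_mod_cast Nat.factorial_pos _
  obtain ⟨ME, hME, hME'⟩ := bddOnPos hK hE
  obtain ⟨MP, hMP, hMP'⟩ := bddOnPos hK (continuous_ev P)
  obtain ⟨Mr, hMr, hMr'⟩ := bddOnPos hK hr.continuous
  have hQc : Continuous (fun z => ev (lead P) (eta r z)) :=
    (continuous_ev _).comp (continuous_eta hr)
  obtain ⟨MQ, hMQ, hMQ'⟩ := bddOnPos hK hQc
  have hMrr : ∀ z, 0 < r z → r z ≤ Mr := fun z hz => (le_abs_self _).trans (hMr' z hz)
  refine ⟨fun z => rp r 1 z * (((P.totalDegree + 1).factorial : ℕ) *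
              (starRingEnd ℂ) (ev (lead P) (eta r z)))
            + rp r 2 z * E z, ?_, hE', ?_, ?_⟩
  · exact ((continuous_rp hr 1).mul (continuous_const.mul
      (Complex.continuous_conj.comp hQc))).add ((continuous_rp hr 2).mul hE)
  · -- the upper bound
    refine ⟨κ * C + MP * ME + (κ * MP * MQ * δ⁻¹ + MP * ME), by positivity, fun z => ?_⟩
    beta_reduce
    rcases le_or_gt (r z) 0 with hz | hz
    · have h1 : rp r 1 z = 0 := by simp [rp, max_eq_right hz]
      have h2 : rp r 2 z = 0 := by simp [rp, max_eq_right hz]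
      rw [h1, h2]
      simp only [zero_mul, add_zero, mul_zero, norm_zero]
      have := rho_nonneg P r z
      positivity
    · have hx : max (r z) 0 = r z := max_eq_left hz.le
      have e1 := hME' z hz
      have e2 := hMP' z hz
      have e3 := hMQ' z hz
      have hn : ‖ev P z * (rp r 1 z * (((P.totalDegree + 1).factorial : ℕ) *
              (starRingEnd ℂ) (ev (lead P) (eta r z)))
            + rp r 2 z * E z)‖ ≤ ‖ev P z‖ * (r z * (κ * ‖ev (lead P) (eta r z)‖)
              + r z ^ 2 * ‖E z‖) := by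
        rw [norm_mul]
        apply mul_le_mul_of_nonneg_left _ (norm_nonneg _)
        refine (norm_add_le _ _).trans (le_of_eq ?_)
        rw [norm_mul, norm_mul, norm_mul, norm_rp, norm_rp, hx, RCLike.norm_conj,
          Complex.norm_natCast, pow_one]
      refine hn.trans ?_
      have hP0 : 0 ≤ ‖ev P z‖ := norm_nonneg _
      have hE0 : 0 ≤ ‖E z‖ := norm_nonneg _
      have hQ0 : 0 ≤ ‖ev (lead P) (eta r z)‖ := norm_nonneg _
      unfold rho
      rw [hx, pow_one]
      have g1 : ‖ev P z‖ * (r z ^ 2 * ‖E z‖) ≤ MP * ME * r z ^ 2 := by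
        have : ‖ev P z‖ * ‖E z‖ ≤ MP * ME := mul_le_mul e2 e1 hE0 hMP.le
        nlinarith [sq_nonneg (r z)]
      rcases lt_or_ge (r z) δ with hz2 | hz2
      · have h1 := hA.upper z hz hz2
        have g2 : ‖ev P z‖ * (r z * (κ * ‖ev (lead P) (eta r z)‖))
            ≤ κ * C * (r z * ‖ev P z‖ ^ 2) := by
          have : ‖ev P z‖ * ‖ev (lead P) (eta r z)‖ ≤ ‖ev P z‖ * (C * ‖ev P z‖) :=
            mul_le_mul_of_nonneg_left h1 hP0
          calc ‖ev P z‖ * (r z * (κ * ‖ev (lead P) (eta r z)‖))
              = (κ * r z) * (‖ev P z‖ * ‖ev (lead P) (eta r z)‖) := by ring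
            _ ≤ (κ * r z) * (‖ev P z‖ * (C * ‖ev P z‖)) :=
              mul_le_mul_of_nonneg_left this (by positivity)
            _ = _ := by ring
        have p1 : 0 ≤ κ * C * r z ^ 2 := by positivity
        have p2 : 0 ≤ MP * ME * (r z * ‖ev P z‖ ^ 2) := by positivity
        have p3 : 0 ≤ (κ * MP * MQ * δ⁻¹ + MP * ME) * (r z * ‖ev P z‖ ^ 2 + r z ^ 2) := by
          positivity
        nlinarith
      · have g2 : ‖ev P z‖ * (r z * (κ * ‖ev (lead P) (eta r z)‖))
            ≤ κ * MP * MQ * δ⁻¹ * r z ^ 2 := by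
          have h1 : ‖ev P z‖ * ‖ev (lead P) (eta r z)‖ ≤ MP * MQ :=
            mul_le_mul e2 e3 hQ0 hMP.le
          have h2 : r z ≤ δ⁻¹ * r z ^ 2 := by
            rw [inv_mul_eq_div, le_div_iff₀ hδ]
            nlinarith
          calc ‖ev P z‖ * (r z * (κ * ‖ev (lead P) (eta r z)‖))
              = (κ * r z) * (‖ev P z‖ * ‖ev (lead P) (eta r z)‖) := by ring
            _ ≤ (κ * r z) * (MP * MQ) := mul_le_mul_of_nonneg_left h1 (by positivity)
            _ = κ * MP * MQ * r z := by ring
            _ ≤ κ * MP * MQ * (δ⁻¹ * r z ^ 2) := mul_le_mul_of_nonneg_left h2 (by positivity)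
            _ = _ := by ring
        have p1 : 0 ≤ (κ * C + MP * ME) * (r z * ‖ev P z‖ ^ 2 + r z ^ 2) := by positivity
        have p2 : 0 ≤ (κ * MP * MQ * δ⁻¹ + MP * ME) * (r z * ‖ev P z‖ ^ 2) := by positivity
        nlinarith
  · -- the lower bound
    set W : V n → ℂ := fun z => rp r 1 z * (((P.totalDegree + 1).factorial : ℕ) *
              (starRingEnd ℂ) (ev (lead P) (eta r z)))
            + rp r 2 z * E z with hW
    obtain ⟨CD, hCD, hCD'⟩ := divEst hr hK P 1 le_rfl hδ hc hA.nondeg
    set a : ℝ := κ * c with ha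
    have ha0 : 0 < a := by positivity
    set C3 : ℝ := ME ^ 2 / (2 * a) with hC3
    have hC30 : 0 < C3 := by positivity
    set C4 : ℝ := MP * (Mr * (κ * MQ) + Mr ^ 2 * ME) + a / 2 * (Mr * MP ^ 2) with hC4
    have hC40 : 0 < C4 := by positivity
    -- pointwise
    have hpt : ∀ z, a / 2 * ((max (r z) 0) ^ 1 * ‖ev P z‖ ^ 2) - C3 * (max (r z) 0) ^ 3
        - C4 * Set.indicator {z | δ ≤ r z} (fun _ => (1 : ℝ)) z ≤ (ev P z * W z).re := by
      intro z
      rcases le_or_gt (r z) 0 with hz | hz
      · have h1 : rp r 1 z = 0 := by simp [rp, max_eq_right hz]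
        have h2 : rp r 2 z = 0 := by simp [rp, max_eq_right hz]
        have h3 : W z = 0 := by simp only [hW]; rw [h1, h2]; simp
        rw [h3, max_eq_right hz]
        have : 0 ≤ Set.indicator {z | δ ≤ r z} (fun _ => (1 : ℝ)) z :=
          Set.indicator_nonneg (fun _ _ => by norm_num) z
        simp only [mul_zero, Complex.zero_re]
        have := mul_nonneg hC40.le this
        simp
        linarith
      · have hx : max (r z) 0 = r z := max_eq_left hz.le
        rw [hx, pow_one]
        have e1 := hME' z hz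
        have e2 := hMP' z hz
        have e3 := hMQ' z hz
        have e4 := hMrr z hz
        have hP0 : 0 ≤ ‖ev P z‖ := norm_nonneg _
        have hE0 : 0 ≤ ‖E z‖ := norm_nonneg _
        have hQ0 : 0 ≤ ‖ev (lead P) (eta r z)‖ := norm_nonneg _
        have hre : (ev P z * W z).re = κ * r z *
            (ev P z * (starRingEnd ℂ) (ev (lead P) (eta r z))).re
            + r z ^ 2 * (ev P z * E z).re := by
          have : ev P z * W z = ((κ * r z : ℝ) : ℂ) *
              (ev P z * (starRingEnd ℂ) (ev (lead P) (eta r z)))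
              + ((r z ^ 2 : ℝ) : ℂ) * (ev P z * E z) := by
            simp only [hW, rp, hx, pow_one, hκ]
            push_cast
            ring
          rw [this, Complex.add_re, Complex.re_ofReal_mul, Complex.re_ofReal_mul]
        have hEre : - (‖ev P z‖ * ME) ≤ (ev P z * E z).re := by
          have h1 := Complex.abs_re_le_norm (ev P z * E z)
          rw [norm_mul] at h1
          have h2 : ‖ev P z‖ * ‖E z‖ ≤ ‖ev P z‖ * ME := mul_le_mul_of_nonneg_left e1 hP0
          have h3 := neg_abs_le (ev P z * E z).re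
          linarith
        rcases lt_or_ge (r z) δ with hz2 | hz2
        · have h2 : Set.indicator {z | δ ≤ r z} (fun _ => (1 : ℝ)) z = 0 := by
            apply Set.indicator_of_notMem
            simpa using hz2
          rw [h2, mul_zero, sub_zero, hre]
          have h3 := hA.lower z hz hz2
          have h4 : κ * r z * (c * ‖ev P z‖ ^ 2) ≤ κ * r z *
              (ev P z * (starRingEnd ℂ) (ev (lead P) (eta r z))).re :=
            mul_le_mul_of_nonneg_left h3 (by positivity)
          have h5 : r z ^ 2 * (-(‖ev P z‖ * ME)) ≤ r z ^ 2 * (ev P z * E z).re :=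
            mul_le_mul_of_nonneg_left hEre (by positivity)
          have h6 : r z ^ 2 * (‖ev P z‖ * ME) ≤ a / 2 * (r z * ‖ev P z‖ ^ 2) + C3 * r z ^ 3 := by
            have h7 : C3 * (2 * a) = ME ^ 2 := by rw [hC3]; field_simp
            have h8 : 0 ≤ r z * (a * ‖ev P z‖ - r z * ME) ^ 2 := by positivity
            have h9 : a * (r z ^ 2 * (‖ev P z‖ * ME)) ≤ a * (a / 2 * (r z * ‖ev P z‖ ^ 2)
                + C3 * r z ^ 3) := by
              have : a * (C3 * r z ^ 3) = ME ^ 2 / 2 * r z ^ 3 := by
                rw [← h7]; ring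
              rw [mul_add, this]
              nlinarith
            exact le_of_mul_le_mul_left h9 ha0
          have h10 : κ * r z * (c * ‖ev P z‖ ^ 2) = a * (r z * ‖ev P z‖ ^ 2) := by
            rw [ha]; ring
          nlinarith
        · have h2 : Set.indicator {z | δ ≤ r z} (fun _ => (1 : ℝ)) z = 1 := by
            apply Set.indicator_of_mem
            exact hz2
          rw [h2, mul_one, hre]
          have hQre : - (‖ev P z‖ * ‖ev (lead P) (eta r z)‖)
              ≤ (ev P z * (starRingEnd ℂ) (ev (lead P) (eta r z))).re := by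
            have h1 := Complex.abs_re_le_norm
              (ev P z * (starRingEnd ℂ) (ev (lead P) (eta r z)))
            rw [norm_mul, RCLike.norm_conj] at h1
            have h3 := neg_abs_le
              (ev P z * (starRingEnd ℂ) (ev (lead P) (eta r z))).re
            linarith
          have g1 : ‖ev P z‖ * ‖ev (lead P) (eta r z)‖ ≤ MP * MQ := mul_le_mul e2 e3 hQ0 hMP.le
          have g2 : κ * r z * (-(MP * MQ)) ≤ κ * r z *
              (ev P z * (starRingEnd ℂ) (ev (lead P) (eta r z))).re :=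
            mul_le_mul_of_nonneg_left (by linarith) (by positivity)
          have g3 : κ * r z * (MP * MQ) ≤ κ * Mr * (MP * MQ) := by
            apply mul_le_mul_of_nonneg_right _ (by positivity)
            exact mul_le_mul_of_nonneg_left e4 hκ0.le
          have g4 : ‖ev P z‖ * ME ≤ MP * ME := mul_le_mul_of_nonneg_right e2 hME.le
          have g5 : r z ^ 2 * (-(MP * ME)) ≤ r z ^ 2 * (ev P z * E z).re :=
            mul_le_mul_of_nonneg_left (by linarith) (by positivity)
          have g6 : r z ^ 2 ≤ Mr ^ 2 := pow_le_pow_left₀ hz.le e4 2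
          have g7 : r z ^ 2 * (MP * ME) ≤ Mr ^ 2 * (MP * ME) :=
            mul_le_mul_of_nonneg_right g6 (by positivity)
          have g8 : r z * ‖ev P z‖ ^ 2 ≤ Mr * MP ^ 2 :=
            mul_le_mul e4 (pow_le_pow_left₀ hP0 e2 2) (by positivity) hMr.le
          have g9 : a / 2 * (r z * ‖ev P z‖ ^ 2) ≤ a / 2 * (Mr * MP ^ 2) :=
            mul_le_mul_of_nonneg_left g8 (by positivity)
          have g10 : 0 ≤ C3 * r z ^ 3 := by positivity
          rw [hC4]
          nlinarith
    -- choose the constants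
    set δ2 : ℝ := min δ (a / 4 / CD / (2 * C3)) with hδ2
    have hδ20 : 0 < δ2 := lt_min hδ (by positivity)
    refine ⟨min (a / 4) (a / 4 / CD / 2), C4 + a / 4 + C3 * Mr ^ 3, δ2,
      lt_min (by positivity) (by positivity), by positivity, hδ20, fun F => ?_⟩
    have s1 := S_nonneg r 1 (ev (P * F))
    have s2 := S_nonneg r 2 (ev F)
    have s3 := Kt_nonneg r δ (ev F)
    have s4 := Kt_nonneg r δ2 (ev F)
    have hms : ∀ d : ℝ, MeasurableSet {z : V n | d ≤ r z} := fun d =>
      (isClosed_le continuous_const hr.continuous).measurableSet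
    have hFi : ∀ d : ℝ, 0 < d →
        Integrable (Set.indicator {z | d ≤ r z} (fun z => ‖ev F z‖ ^ 2)) := fun d hd =>
      (integrableOn_Kt hr hK hd ((continuous_ev F).norm.pow 2)).integrable_indicator (hms d)
    -- S 3
    have h3 : S r 3 (ev F) ≤ δ2 * S r 2 (ev F) + Mr ^ 3 * Kt r δ2 (ev F) := by
      unfold S Kt
      rw [← integral_const_mul, ← integral_const_mul, ← integral_indicator (hms δ2)]
      have i1 : Integrable (fun z => δ2 * ((max (r z) 0) ^ 2 * ‖ev F z‖ ^ 2)) :=
        (integrable_S hr hK 2 (by omega) (continuous_ev F)).const_mul _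
      have i2 : Integrable (Set.indicator {z | δ2 ≤ r z} (fun z => Mr ^ 3 * ‖ev F z‖ ^ 2)) :=
        (integrableOn_Kt hr hK hδ20
          (continuous_const.mul ((continuous_ev F).norm.pow 2))).integrable_indicator (hms δ2)
      rw [← integral_add i1 i2]
      refine integral_mono (integrable_S hr hK 3 (by omega) (continuous_ev F)) (i1.add i2)
        fun z => ?_
      simp only
      rcases le_or_gt (r z) 0 with hz | hz
      · rw [max_eq_right hz]
        have : 0 ≤ Set.indicator {z | δ2 ≤ r z} (fun z => Mr ^ 3 * ‖ev F z‖ ^ 2) z :=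
          Set.indicator_nonneg (fun _ _ => by positivity) z
        simpa using this
      · have hx : max (r z) 0 = r z := max_eq_left hz.le
        rw [hx]
        rcases lt_or_ge (r z) δ2 with hz2 | hz2
        · have h2 : Set.indicator {z | δ2 ≤ r z} (fun z => Mr ^ 3 * ‖ev F z‖ ^ 2) z = 0 := by
            apply Set.indicator_of_notMem
            simpa using hz2
          rw [h2, add_zero]
          have : r z ^ 2 * ‖ev F z‖ ^ 2 * r z ≤ r z ^ 2 * ‖ev F z‖ ^ 2 * δ2 :=
            mul_le_mul_of_nonneg_left hz2.le (by positivity)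
          nlinarith
        · have h2 : Set.indicator {z | δ2 ≤ r z} (fun z => Mr ^ 3 * ‖ev F z‖ ^ 2) z
              = Mr ^ 3 * ‖ev F z‖ ^ 2 := by
            apply Set.indicator_of_mem
            exact hz2
          rw [h2]
          have g1 : r z ^ 3 ≤ Mr ^ 3 := pow_le_pow_left₀ hz.le (hMrr z hz) 3
          have g2 : r z ^ 3 * ‖ev F z‖ ^ 2 ≤ Mr ^ 3 * ‖ev F z‖ ^ 2 :=
            mul_le_mul_of_nonneg_right g1 (by positivity)
          have g3 : 0 ≤ δ2 * (r z ^ 2 * ‖ev F z‖ ^ 2) := by positivity
          linarith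
    have hKm : Kt r δ (ev F) ≤ Kt r δ2 (ev F) := by
      unfold Kt
      rw [← integral_indicator (hms δ), ← integral_indicator (hms δ2)]
      refine integral_mono (hFi δ hδ) (hFi δ2 hδ20) fun z => ?_
      refine Set.indicator_le_indicator_of_subset ?_ (fun _ => by positivity) z
      intro z hz
      exact (min_le_left _ _).trans (Set.mem_setOf_eq ▸ hz)
    -- the main integral
    have h4 : (∫ z, (ev (P * F) z * cj (ev F) z) * W z).re
        = ∫ z, ‖ev F z‖ ^ 2 * (ev P z * W z).re := by
      have hWi : Integrable (fun z => (ev (P * F) z * cj (ev F) z) * W z) := by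
        have : (fun z => (ev (P * F) z * cj (ev F) z) * W z)
            = fun z => rp r 1 z * ((ev (P * F) z * cj (ev F) z) *
              ((((P.totalDegree + 1).factorial : ℕ) *
              (starRingEnd ℂ) (ev (lead P) (eta r z))) + rp r 1 z * E z)) := by
          funext z
          simp only [hW]
          have : rp r 2 z = rp r 1 z * rp r 1 z := by rw [rp_mul]
          rw [this]; ring
        rw [this]
        exact integrable_rp_mul hr hK _ one_ne_zero (((continuous_ev _).mul
          (contDiff_cj (contDiff_ev F)).continuous).mul ((continuous_const.mul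
          (Complex.continuous_conj.comp hQc)).add ((continuous_rp hr 1).mul hE)))
      have h5 : (∫ z, (ev (P * F) z * cj (ev F) z) * W z).re
          = ∫ z, ((ev (P * F) z * cj (ev F) z) * W z).re := (integral_re hWi).symm
      rw [h5]
      refine integral_congr_ae (Filter.Eventually.of_forall fun z => ?_)
      simp only [cj]
      have : ev (P * F) z * (starRingEnd ℂ) (ev F z) * W z
          = ((‖ev F z‖ ^ 2 : ℝ) : ℂ) * (ev P z * W z) := by
        rw [ev_mul]
        have := Complex.mul_conj (ev F z)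
        rw [Complex.normSq_eq_norm_sq] at this
        linear_combination (ev P z * W z) * this
      rw [this, Complex.re_ofReal_mul]
    rw [h4]
    have hWc : Continuous W := ((continuous_rp hr 1).mul (continuous_const.mul
      (Complex.continuous_conj.comp hQc))).add ((continuous_rp hr 2).mul hE)
    have hlow : a / 2 * S r 1 (ev (P * F)) - C3 * S r 3 (ev F) - C4 * Kt r δ (ev F)
        ≤ ∫ z, ‖ev F z‖ ^ 2 * (ev P z * W z).re := by
      have i1 : Integrable (fun z => a / 2 * ((max (r z) 0) ^ 1 * ‖ev (P * F) z‖ ^ 2)) :=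
        (integrable_S hr hK 1 (by omega) (continuous_ev _)).const_mul _
      have i2 : Integrable (fun z => C3 * ((max (r z) 0) ^ 3 * ‖ev F z‖ ^ 2)) :=
        (integrable_S hr hK 3 (by omega) (continuous_ev F)).const_mul _
      have i3 : Integrable (fun z => C4 * Set.indicator {z | δ ≤ r z}
          (fun z => ‖ev F z‖ ^ 2) z) := (hFi δ hδ).const_mul _
      have e : a / 2 * S r 1 (ev (P * F)) - C3 * S r 3 (ev F) - C4 * Kt r δ (ev F)
          = ∫ z, (a / 2 * ((max (r z) 0) ^ 1 * ‖ev (P * F) z‖ ^ 2)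
            - C3 * ((max (r z) 0) ^ 3 * ‖ev F z‖ ^ 2)
            - C4 * Set.indicator {z | δ ≤ r z} (fun z => ‖ev F z‖ ^ 2) z) := by
        have i4 : Integrable (fun z => a / 2 * ((max (r z) 0) ^ 1 * ‖ev (P * F) z‖ ^ 2)
            - C3 * ((max (r z) 0) ^ 3 * ‖ev F z‖ ^ 2)) := i1.sub i2
        rw [integral_sub i4 i3, integral_sub i1 i2, integral_const_mul, integral_const_mul,
          integral_const_mul, integral_indicator (hms δ)]
        rfl
      rw [e]
      have i5 : Integrable (fun z => ‖ev F z‖ ^ 2 * (ev P z * W z).re) := by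
        have hc1 : Continuous (fun z => ‖ev F z‖ ^ 2 * (ev P z * W z).re) :=
          ((continuous_ev F).norm.pow 2).mul
            (Complex.continuous_re.comp ((continuous_ev P).mul hWc))
        refine hc1.integrable_of_hasCompactSupport ?_
        obtain ⟨K, hKc, hK'⟩ := hK
        refine HasCompactSupport.of_support_subset_isCompact hKc ?_
        intro z hz
        by_contra hzK
        have hz0 : r z ≤ 0 := not_lt.mp fun h => hzK (hK' z h)
        apply hz
        have h1 : rp r 1 z = 0 := by simp [rp, max_eq_right hz0]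
        have h2 : rp r 2 z = 0 := by simp [rp, max_eq_right hz0]
        simp only [hW]
        rw [h1, h2]
        simp
      refine integral_mono ((i1.sub i2).sub i3) i5 fun z => ?_
      have h6 := hpt z
      have h7 := mul_le_mul_of_nonneg_left h6 (show 0 ≤ ‖ev F z‖ ^ 2 by positivity)
      have h8 : ‖ev F z‖ ^ 2 * Set.indicator {z | δ ≤ r z} (fun _ => (1 : ℝ)) z
          = Set.indicator {z | δ ≤ r z} (fun z => ‖ev F z‖ ^ 2) z := by
        by_cases hz : z ∈ {z | δ ≤ r z}
        · rw [Set.indicator_of_mem hz, Set.indicator_of_mem hz, mul_one]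
        · rw [Set.indicator_of_notMem hz, Set.indicator_of_notMem hz, mul_zero]
      simp only
      rw [ev_mul, norm_mul, mul_pow, ← h8]
      nlinarith
    refine le_trans ?_ hlow
    have hD := hCD' F
    simp only [Nat.reduceAdd] at hD
    have hD2 : a / 4 / CD * S r 2 (ev F) ≤ a / 4 * (S r 1 (ev (P * F)) + Kt r δ (ev F)) := by
      have := mul_le_mul_of_nonneg_left hD (show 0 ≤ a / 4 / CD by positivity)
      have e : a / 4 / CD * (CD * (S r 1 (ev (P * F)) + Kt r δ (ev F)))
          = a / 4 * (S r 1 (ev (P * F)) + Kt r δ (ev F)) := by field_simp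
      rw [e] at this
      exact this
    have hδ2' : C3 * δ2 ≤ a / 4 / CD / 2 := by
      have : δ2 ≤ a / 4 / CD / (2 * C3) := min_le_right _ _
      calc C3 * δ2 ≤ C3 * (a / 4 / CD / (2 * C3)) := mul_le_mul_of_nonneg_left this hC30.le
        _ = a / 4 / CD / 2 := by field_simp
    have g1 : C3 * S r 3 (ev F) ≤ a / 4 / CD / 2 * S r 2 (ev F)
        + C3 * Mr ^ 3 * Kt r δ2 (ev F) := by
      have := mul_le_mul_of_nonneg_left h3 hC30.le
      have g2 : C3 * δ2 * S r 2 (ev F) ≤ a / 4 / CD / 2 * S r 2 (ev F) :=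
        mul_le_mul_of_nonneg_right hδ2' s2
      nlinarith
    have g3 : min (a / 4) (a / 4 / CD / 2) * (S r 1 (ev (P * F)) + S r 2 (ev F))
        ≤ a / 4 * S r 1 (ev (P * F)) + a / 4 / CD / 2 * S r 2 (ev F) := by
      have q1 := mul_le_mul_of_nonneg_right (min_le_left (a / 4) (a / 4 / CD / 2)) s1
      have q2 := mul_le_mul_of_nonneg_right (min_le_right (a / 4) (a / 4 / CD / 2)) s2
      nlinarith
    have g4 : (C4 + a / 4) * Kt r δ (ev F) ≤ (C4 + a / 4) * Kt r δ2 (ev F) :=
      mul_le_mul_of_nonneg_left hKm (by positivity)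
    nlinarith

end Pool.Agent.H60
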