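import Pool.Agent.H60.Root
import Pool.Agent.H60.Garding

set_option autoImplicit false

open MeasureTheory Complex MvPolynomial
open scoped ContDiff Topology

noncomputable section

namespace Pool.Agent.H60

variable {n : ℕ}

/-- the one dimensional cutoff -/
def hb : ContDiffBump (2 : ℝ) := ⟨7 / 4, 15 / 8, by norm_num, by norm_num⟩

/-- the cutoff -/
def chi (z : V n) : ℝ := hb (Nn z)

lemma contDiff_Nn : ContDiff ℝ ∞ (Nn : V n → ℝ) := by
  unfold Nn
  apply ContDiff.sum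
  intro j _
  exact (contDiff_apply ℝ ℂ j).norm_sq ℝ

lemma contDiff_chi : ContDiff ℝ ∞ (chi : V n → ℝ) := hb.contDiff.comp contDiff_Nn

lemma chi_zero {z : V n} (hz : z ∉ Sh n) : chi z = 0 := by
  by_contra h
  apply hz
  have h1 : Nn z ∈ Function.support (hb : ℝ → ℝ) := h
  rw [hb.support_eq, Real.ball_eq_Ioo] at h1
  have e1 : (hb.rOut : ℝ) = 15 / 8 := rfl
  rw [e1] at h1
  exact ⟨by linarith [h1.1], by linarith [h1.2]⟩

lemma chi_one {z : V n} (h1 : 1 / 4 ≤ Nn z) (h2 : Nn z ≤ 15 / 4) : chi z = 1 := by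
  apply hb.one_of_mem_closedBall
  rw [Real.closedBall_eq_Icc]
  have e1 : (hb.rIn : ℝ) = 7 / 4 := rfl
  rw [e1]
  exact ⟨by linarith, by linarith⟩

lemma chi_nonneg (z : V n) : 0 ≤ chi z := hb.nonneg

lemma chi_le_one (z : V n) : chi z ≤ 1 := hb.le_one

/-- the correction term -/
def psi (p : MvPolynomial (Fin n) ℂ) (u : V n → ℂ) (z : V n) : ℝ :=
  2 * chi z * ((starRingEnd ℂ) (u z) * ev p z).re

/-- the corrected defining function -/
def rr (p : MvPolynomial (Fin n) ℂ) (u : V n → ℂ) (z : V n) : ℝ := 1 - Nn z - psi p u z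

lemma contDiff_psi {p : MvPolynomial (Fin n) ℂ} {u : V n → ℂ}
    (hu : ∀ z ∈ Sh n, ContDiffAt ℝ ∞ u z) : ContDiff ℝ ∞ (psi p u) := by
  rw [contDiff_iff_contDiffAt]
  intro z
  by_cases hz : z ∈ Sh n
  · have h1 : ContDiffAt ℝ ∞ (fun z => (starRingEnd ℂ) (u z) * ev p z) z :=
      (Complex.conjCLE.contDiff.contDiffAt.comp z (hu z hz)).mul (contDiff_ev p).contDiffAt
    have h2 : ContDiffAt ℝ ∞ (fun z => ((starRingEnd ℂ) (u z) * ev p z).re) z :=
      Complex.reCLM.contDiff.contDiffAt.comp z h1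
    exact (contDiffAt_const.mul contDiff_chi.contDiffAt).mul h2
  · have h1 : psi p u =ᶠ[𝓝 z] fun _ => 0 := by
      have h2 : IsOpen (Sh n)ᶜ := isCompact_Sh.isClosed.isOpen_compl
      filter_upwards [h2.mem_nhds hz] with w hw
      unfold psi
      rw [chi_zero hw]
      ring
    exact contDiffAt_const.congr_of_eventuallyEq h1

lemma contDiff_rr {p : MvPolynomial (Fin n) ℂ} {u : V n → ℂ}
    (hu : ∀ z ∈ Sh n, ContDiffAt ℝ ∞ u z) : ContDiff ℝ ∞ (rr p u) :=
  (contDiff_const.sub contDiff_Nn).sub (contDiff_psi hu)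

lemma psi_small {p : MvPolynomial (Fin n) ℂ} {u : V n → ℂ}
    (hu : ∀ z ∈ Sh n, 2 * ‖u z‖ * ‖ev p z‖ ≤ 1 / 8) (z : V n) : |psi p u z| ≤ 1 / 8 := by
  by_cases hz : z ∈ Sh n
  · unfold psi
    rw [abs_mul, abs_mul]
    have h1 : |((starRingEnd ℂ) (u z) * ev p z).re| ≤ ‖u z‖ * ‖ev p z‖ := by
      refine (Complex.abs_re_le_norm _).trans ?_
      rw [norm_mul, RCLike.norm_conj]
    have h2 : |chi z| ≤ 1 := by
      rw [abs_of_nonneg (chi_nonneg z)]; exact chi_le_one z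
    have h3 : |(2 : ℝ)| = 2 := by norm_num
    rw [h3]
    have h4 := hu z hz
    have h5 : (2 : ℝ) * |chi z| * |((starRingEnd ℂ) (u z) * ev p z).re|
        ≤ 2 * 1 * (‖u z‖ * ‖ev p z‖) := by
      apply mul_le_mul _ h1 (abs_nonneg _) (by norm_num)
      linarith
    linarith
  · unfold psi
    rw [chi_zero hz]
    norm_num

lemma Nn_eq (z : V n) :
    ((Nn z : ℝ) : ℂ) = ∑ k, ev (X k : MvPolynomial (Fin n) ℂ) z *
      cj (ev (X k : MvPolynomial (Fin n) ℂ)) z := by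
  unfold Nn
  push_cast
  apply Finset.sum_congr rfl
  intro k _
  simp only [ev, cj, eval_X]
  rw [Complex.mul_conj, Complex.normSq_eq_norm_sq]
  push_cast
  rfl

lemma eta_rr {P : MvPolynomial (Fin n) ℂ} {ε : ℝ} {u : V n → ℂ} {z : V n}
    (h1 : 1 / 4 < Nn z) (h2 : Nn z < 15 / 4) (hu : ContDiffAt ℝ ∞ u z) :
    eta (rr (PS P ε) u) z = et P (ε, z) (u z) (fderiv ℝ u z) := by
  have hud : DifferentiableAt ℝ u z := hu.differentiableAt (by simp)
  have hcu : DifferentiableAt ℝ (cj u) z :=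
    (Complex.conjCLE.contDiff.contDiffAt.comp z hu).differentiableAt
      (n := ∞) (by simp)
  have hp : DifferentiableAt ℝ (ev (PS P ε)) z :=
    ((contDiff_ev (PS P ε)).differentiable (by simp)).differentiableAt
  have hcp : DifferentiableAt ℝ (cj (ev (PS P ε))) z :=
    ((contDiff_cj (contDiff_ev (PS P ε))).differentiable (by simp)).differentiableAt
  have heq : rc (rr (PS P ε) u) =ᶠ[𝓝 z] fun w => (1 + -(∑ k, ev (X k : MvPolynomial (Fin n) ℂ) w *
      cj (ev (X k : MvPolynomial (Fin n) ℂ)) w)) +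
        -(cj u w * ev (PS P ε) w + u w * cj (ev (PS P ε)) w) := by
    have o1 : ∀ᶠ w in 𝓝 z, 1 / 4 < Nn w :=
      continuous_Nn.continuousAt.eventually (lt_mem_nhds h1)
    have o2 : ∀ᶠ w in 𝓝 z, Nn w < 15 / 4 :=
      continuous_Nn.continuousAt.eventually (gt_mem_nhds h2)
    filter_upwards [o1, o2] with w w1 w2
    unfold rc rr psi
    rw [chi_one w1.le w2.le, ← Nn_eq]
    push_cast
    have h3 : (2 : ℂ) * 1 * (((starRingEnd ℂ) (u w) * ev (PS P ε) w).re : ℂ)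
        = (starRingEnd ℂ) (u w) * ev (PS P ε) w + (starRingEnd ℂ)
          ((starRingEnd ℂ) (u w) * ev (PS P ε) w) := by
      rw [Complex.add_conj]; push_cast; ring
    rw [h3, map_mul, Complex.conj_conj]
    simp only [cj]
    ring
  funext j
  unfold eta et
  have hwd : wd j (rc (rr (PS P ε) u)) z = -(starRingEnd ℂ) (z j)
      - (wd j (cj u) z * ev (PS P ε) z + cj u z * ev (pderiv j (PS P ε)) z
        + wd j u z * cj (ev (PS P ε)) z) := by
    have e1 : wd j (rc (rr (PS P ε) u)) z = wd j (fun w =>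
      (1 + -(∑ k, ev (X k : MvPolynomial (Fin n) ℂ) w *
      cj (ev (X k : MvPolynomial (Fin n) ℂ)) w)) +
        -(cj u w * ev (PS P ε) w + u w * cj (ev (PS P ε)) w)) z := by
      unfold wd
      rw [heq.fderiv_eq]
    have dX : ∀ k, DifferentiableAt ℝ (ev (X k : MvPolynomial (Fin n) ℂ)) z := fun k =>
      ((contDiff_ev _).differentiable (by simp)).differentiableAt
    have dcX : ∀ k, DifferentiableAt ℝ (cj (ev (X k : MvPolynomial (Fin n) ℂ))) z := fun k =>
      ((contDiff_cj (contDiff_ev _)).differentiable (by simp)).differentiableAt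
    have dS : DifferentiableAt ℝ (fun w => -(∑ k, ev (X k : MvPolynomial (Fin n) ℂ) w *
      cj (ev (X k : MvPolynomial (Fin n) ℂ)) w)) z :=
      (DifferentiableAt.fun_sum fun k _ => (dX k).mul (dcX k)).neg
    have dA : DifferentiableAt ℝ (fun w => cj u w * ev (PS P ε) w) z := hcu.mul hp
    have dB : DifferentiableAt ℝ (fun w => u w * cj (ev (PS P ε)) w) z := hud.mul hcp
    have dAB : DifferentiableAt ℝ (fun w => -(cj u w * ev (PS P ε) w
      + u w * cj (ev (PS P ε)) w)) z := (dA.add dB).neg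
    have d1 : DifferentiableAt ℝ (fun _ : V n => (1 : ℂ)) z := differentiableAt_const _
    have d1S : DifferentiableAt ℝ (fun w => (1 + -(∑ k, ev (X k : MvPolynomial (Fin n) ℂ) w *
      cj (ev (X k : MvPolynomial (Fin n) ℂ)) w))) z := d1.add dS
    have hXs : wd j (fun w => ∑ k, ev (X k : MvPolynomial (Fin n) ℂ) w *
        cj (ev (X k : MvPolynomial (Fin n) ℂ)) w) z
        = ∑ k, wd j (fun w => ev (X k : MvPolynomial (Fin n) ℂ) w *
        cj (ev (X k : MvPolynomial (Fin n) ℂ)) w) z :=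
      wd_sum j Finset.univ (u := fun k w => ev (X k : MvPolynomial (Fin n) ℂ) w *
        cj (ev (X k : MvPolynomial (Fin n) ℂ)) w) (fun k _ => (dX k).mul (dcX k))
    rw [e1, wd_add j d1S dAB, wd_add j d1 dS, wd_const,
      wd_neg, wd_neg, wd_add j dA dB, wd_mul j hcu hp, wd_mul j hud hcp,
      hXs, wd_cj_ev, wd_ev]
    have e2 : ∀ k, wd j (fun z => ev (X k : MvPolynomial (Fin n) ℂ) z *
        cj (ev (X k : MvPolynomial (Fin n) ℂ)) z) z
        = if k = j then (starRingEnd ℂ) (z j) else 0 := by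
      intro k
      rw [wd_mul j (dX k) (dcX k), wd_cj_ev, wd_ev, pderiv_X]
      by_cases hkj : k = j
      · subst hkj; simp [ev, cj]
      · simp [hkj, ev]
    simp only [e2]
    simp
    ring
  rw [hwd, wd_cj_eq_wlc j hud, wd_eq_wl]
  simp only [zt, PJ, PJd, cj, map_neg, map_sub, map_add, map_mul, Complex.conj_conj]
  ring

lemma rr_bounds {p : MvPolynomial (Fin n) ℂ} {u : V n → ℂ}
    (hu : ∀ z ∈ Sh n, 2 * ‖u z‖ * ‖ev p z‖ ≤ 1 / 8) (z : V n) :
    7 / 8 - Nn z ≤ rr p u z ∧ rr p u z ≤ 9 / 8 - Nn z := by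
  have h1 := abs_le.mp (psi_small hu z)
  unfold rr
  constructor <;> linarith [h1.1, h1.2]

lemma Nn_smul (ε : ℝ) (x : V n) : Nn (ε • x) = ε ^ 2 * Nn x := by
  unfold Nn
  rw [Finset.mul_sum]
  apply Finset.sum_congr rfl
  intro j _
  rw [Pi.smul_apply, norm_smul, mul_pow, Real.norm_eq_abs, sq_abs]

lemma wd_smul (j : Fin n) {f : V n → ℂ} (hf : Differentiable ℝ f) (ε : ℝ) (x : V n) :
    wd j (fun x => f (ε • x)) x = ε * wd j f (ε • x) := by
  have h1 : HasFDerivAt (fun x : V n => ε • x) (ε • ContinuousLinearMap.id ℝ (V n)) x :=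
    (hasFDerivAt_id x).const_smul ε
  have h2 : HasFDerivAt (fun x : V n => f (ε • x))
      ((fderiv ℝ f (ε • x)).comp (ε • ContinuousLinearMap.id ℝ (V n))) x :=
    (hf (ε • x)).hasFDerivAt.comp x h1
  unfold wd
  rw [h2.fderiv]
  simp only [ContinuousLinearMap.comp_apply, _root_.smul_apply, ContinuousLinearMap.id_apply,
    map_smul, Complex.real_smul]
  ring

lemma ev_lead_smul (P : MvPolynomial (Fin n) ℂ) (ε : ℝ) (w : V n) :
    ev (lead P) (ε • w) = (ε : ℂ) ^ P.totalDegree * ev (lead P) w := by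
  unfold lead
  rw [homogeneousComponent_apply, ev_sum, ev_sum, Finset.mul_sum]
  apply Finset.sum_congr rfl
  intro m hm
  have hd : m.degree = P.totalDegree := (Finset.mem_filter.mp hm).2
  rw [ev_monomial, ev_monomial]
  have h1 : ∏ j, (ε • w) j ^ m j = (ε : ℂ) ^ m.degree * ∏ j, w j ^ m j := by
    simp only [Pi.smul_apply, Complex.real_smul, mul_pow, Finset.prod_mul_distrib]
    rw [Finset.prod_pow_eq_pow_sum, Finsupp.degree_eq_sum]
  rw [h1, hd]
  ring

/-- **Existence of adapted exhaustions.** -/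
theorem adapted_exists {P : MvPolynomial (Fin n) ℂ}
    (hQ : ∀ z : V n, z ≠ 0 → ∃ j, ev (pderiv j (lead P)) z ≠ 0) (ρ : ℝ) :
    ∃ (r : V n → ℝ) (δ c C δ0 : ℝ), Adapted P r δ c C ∧ 0 < δ0 ∧
      ∀ z ∈ Metric.closedBall (0 : V n) ρ, δ0 ≤ r z := by
  obtain ⟨ε0, hε0, hε0'⟩ := Metric.eventually_nhds_iff.mp (exists_root hQ)
  -- choose `ε`
  obtain ⟨ε, hε, hε1, hε2, hε3⟩ : ∃ ε : ℝ, 0 < ε ∧ ε ≤ 1 ∧ ε < ε0 ∧
      ε ^ 2 * (n * ρ ^ 2) ≤ 1 / 4 := by
    have h1 : 0 < 1 + n * ρ ^ 2 := by positivity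
    refine ⟨min (min 1 (ε0 / 2)) (1 / (4 * (1 + n * ρ ^ 2))), by positivity, ?_, ?_, ?_⟩
    · exact (min_le_left _ _).trans (min_le_left _ _)
    · have := (min_le_left (min 1 (ε0 / 2)) (1 / (4 * (1 + n * ρ ^ 2)))).trans (min_le_right _ _)
      linarith
    · set e := min (min 1 (ε0 / 2)) (1 / (4 * (1 + n * ρ ^ 2)))
      have h2 : e ≤ 1 := (min_le_left _ _).trans (min_le_left _ _)
      have h3 : e ≤ 1 / (4 * (1 + n * ρ ^ 2)) := min_le_right _ _
      have h4 : 0 < e := by positivity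
      have h5 : e * (4 * (1 + n * ρ ^ 2)) ≤ 1 := by
        rwa [le_div_iff₀ (by positivity)] at h3
      have h6 : 0 ≤ (n : ℝ) * ρ ^ 2 := by positivity
      have h7 : e ^ 2 ≤ e := by nlinarith
      nlinarith
  obtain ⟨u, hu⟩ := hε0' (y := ε) (by
    rw [Real.dist_eq, sub_zero, abs_of_pos hε]; exact hε2)
  set p := PS P ε with hp
  set M := P.totalDegree with hM
  have hus : ∀ z ∈ Sh n, ContDiffAt ℝ ∞ u z := fun z hz => (hu z hz).1
  have hub : ∀ z ∈ Sh n, 2 * ‖u z‖ * ‖ev p z‖ ≤ 1 / 8 := fun z hz => (hu z hz).2.2.1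
  have hrs : ContDiff ℝ ∞ (rr p u) := contDiff_rr hus
  have hrd : Differentiable ℝ (rc (rr p u)) := (contDiff_rc hrs).differentiable (by simp)
  have hSh : ∀ z : V n, 5 / 8 ≤ Nn z → Nn z ≤ 9 / 8 → z ∈ Sh n := fun z h1 h2 =>
    ⟨by linarith, by linarith⟩
  have heta : ∀ z : V n, 5 / 8 ≤ Nn z → Nn z ≤ 9 / 8 →
      eta (rr p u) z = et P (ε, z) (u z) (fderiv ℝ u z) := fun z h1 h2 =>
    eta_rr (by linarith) (by linarith) (hus z (hSh z h1 h2))
  have hq : ∀ z : V n, 5 / 8 ≤ Nn z → Nn z ≤ 9 / 8 →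
      ‖ev (lead P) (eta (rr p u) z) - ev p z‖ ≤ 1 / 2 * ‖ev p z‖ := by
    intro z h1 h2
    have h3 := (hu z (hSh z h1 h2)).2
    rw [heta z h1 h2]
    have h4 := h3.2.2.1
    rw [h3.1] at h4
    exact h4
  have hnd : ∀ z : V n, 5 / 8 ≤ Nn z → Nn z ≤ 9 / 8 →
      0 < ‖ev p z‖ ^ 2 + tau (rr p u) p z := by
    intro z h1 h2
    have h3 := (hu z (hSh z h1 h2)).2.2.2.2
    have h4 : Hf P (ε, z) (u z) (fderiv ℝ u z) = ‖ev p z‖ ^ 2 + tau (rr p u) p z := by
      have h5 : ∀ k, wd k (rc (rr p u)) z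
          = -(starRingEnd ℂ) (et P (ε, z) (u z) (fderiv ℝ u z) k) := by
        intro k
        rw [← heta z h1 h2]
        simp [eta]
      unfold Hf tau Mi
      simp only [h5]
      rfl
    rw [h4] at h3
    have h5 := tau_nonneg (rr p u) p z
    exact lt_of_le_of_ne (by positivity) (Ne.symm h3)
  obtain ⟨c0, hc0, hc0'⟩ : ∃ c0 : ℝ, 0 < c0 ∧ ∀ z ∈ {z : V n | 5 / 8 ≤ Nn z ∧ Nn z ≤ 9 / 8},
      c0 ≤ ‖ev p z‖ ^ 2 + tau (rr p u) p z := by
    have hK : IsCompact {z : V n | 5 / 8 ≤ Nn z ∧ Nn z ≤ 9 / 8} := by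
      apply Metric.isCompact_of_isClosed_isBounded
      · exact (isClosed_le continuous_const continuous_Nn).inter
          (isClosed_le continuous_Nn continuous_const)
      · exact (Nn_bdd (9 / 8)).subset fun z hz => hz.2
    apply hK.exists_forall_le'
    · exact (((continuous_ev p).norm.pow 2).add (continuous_tau hrs p)).continuousOn
    · intro z hz
      exact hnd z hz.1 hz.2
  have hbd := rr_bounds hub
  let r : V n → ℝ := fun x => rr p u (ε • x)
  have hrr : ∀ x, r x = rr p u (ε • x) := fun x => rfl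
  have hwd : ∀ (x : V n) (j : Fin n), wd j (rc r) x = ε * wd j (rc (rr p u)) (ε • x) := by
    intro x j
    exact wd_smul j hrd ε x
  have heta' : ∀ x, eta r x = ε • eta (rr p u) (ε • x) := by
    intro x
    funext j
    unfold eta
    rw [hwd]
    simp only [Pi.smul_apply, map_mul, Complex.conj_ofReal, Complex.real_smul]
    ring
  have hεM : 0 < ε ^ M := by positivity
  have hev : ∀ x, ev p (ε • x) = (ε : ℂ) ^ M * ev P x := fun x => ev_PS P ε x
  have hnorm : ∀ x, ‖ev p (ε • x)‖ = ε ^ M * ‖ev P x‖ := by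
    intro x
    rw [hev, norm_mul, norm_pow, Complex.norm_real, Real.norm_eq_abs, abs_of_pos hε]
  have hzone : ∀ x, 0 < r x → r x < 1 / 4 →
      5 / 8 ≤ Nn (ε • x) ∧ Nn (ε • x) ≤ 9 / 8 := by
    intro x h1 h2
    have h3 := hbd (ε • x)
    rw [hrr] at h1 h2
    constructor <;> linarith [h3.1, h3.2]
  have hl : ∀ x, ev (lead P) (eta r x) = (ε : ℂ) ^ M * ev (lead P) (eta (rr p u) (ε • x)) := by
    intro x
    rw [heta', ev_lead_smul]
  refine ⟨r, 1 / 4, min (1 / 2 * (ε ^ M) ^ 2) (ε ^ 4 * c0), 3 / 2 * (ε ^ M) ^ 2, 1 / 2,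
    ⟨?_, ?_, by norm_num, by positivity, by positivity, ?_, ?_, ?_⟩, by norm_num, ?_⟩
  · exact hrs.comp (contDiff_const_smul ε)
  · refine ⟨{x : V n | Nn (ε • x) ≤ 9 / 8}, ?_, ?_⟩
    · apply Metric.isCompact_of_isClosed_isBounded
      · exact isClosed_le (continuous_Nn.comp (continuous_const_smul ε)) continuous_const
      · refine (Nn_bdd (9 / 8 / ε ^ 2)).subset fun z hz => ?_
        have h1 : Nn (ε • z) ≤ 9 / 8 := hz
        rw [Nn_smul] at h1
        change Nn z ≤ 9 / 8 / ε ^ 2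
        rw [le_div_iff₀ (by positivity)]
        linarith
    · intro x hx
      have h3 := hbd (ε • x)
      rw [hrr] at hx
      change Nn (ε • x) ≤ 9 / 8
      linarith [h3.2]
  · intro x h1 h2
    obtain ⟨h3, h4⟩ := hzone x h1 h2
    have h5 := hq (ε • x) h3 h4
    have h6 : ev P x * (starRingEnd ℂ) (ev (lead P) (eta r x))
        = ev p (ε • x) * (starRingEnd ℂ) (ev (lead P) (eta (rr p u) (ε • x))) := by
      rw [hl, hev, map_mul, map_pow, Complex.conj_ofReal]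
      ring
    rw [h6]
    have h7 : ∀ a b : ℂ, ‖b - a‖ ≤ 1 / 2 * ‖a‖ → 1 / 2 * ‖a‖ ^ 2 ≤ (a * (starRingEnd ℂ) b).re := by
      intro a b hab
      have h8 : a * (starRingEnd ℂ) b = ((‖a‖ ^ 2 : ℝ) : ℂ) + a * (starRingEnd ℂ) (b - a) := by
        have h80 : a * (starRingEnd ℂ) a = ((‖a‖ ^ 2 : ℝ) : ℂ) := by
          rw [Complex.mul_conj, Complex.normSq_eq_norm_sq]
        rw [map_sub, mul_sub, h80]
        ring
      rw [h8, Complex.add_re, Complex.ofReal_re]
      have h9 : |(a * (starRingEnd ℂ) (b - a)).re| ≤ ‖a‖ * (1 / 2 * ‖a‖) := by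
        refine (Complex.abs_re_le_norm _).trans ?_
        rw [norm_mul, RCLike.norm_conj]
        exact mul_le_mul_of_nonneg_left hab (norm_nonneg _)
      have h10 := (abs_le.mp h9).1
      nlinarith
    have h8 := h7 _ _ h5
    rw [hnorm] at h8
    refine le_trans (mul_le_mul_of_nonneg_right (min_le_left _ _) (by positivity)) ?_
    calc 1 / 2 * (ε ^ M) ^ 2 * ‖ev P x‖ ^ 2 = 1 / 2 * (ε ^ M * ‖ev P x‖) ^ 2 := by ring
      _ ≤ _ := h8
  · intro x h1 h2
    obtain ⟨h3, h4⟩ := hzone x h1 h2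
    have h5 := hq (ε • x) h3 h4
    rw [hl, norm_mul, norm_pow, Complex.norm_real, Real.norm_eq_abs, abs_of_pos hε]
    have h6 : ‖ev (lead P) (eta (rr p u) (ε • x))‖ ≤ 3 / 2 * ‖ev p (ε • x)‖ := by
      have h7 : ev (lead P) (eta (rr p u) (ε • x)) = (ev (lead P) (eta (rr p u) (ε • x))
        - ev p (ε • x)) + ev p (ε • x) := by ring
      rw [h7]
      refine (norm_add_le _ _).trans ?_
      linarith
    rw [hnorm] at h6
    calc ε ^ M * ‖ev (lead P) (eta (rr p u) (ε • x))‖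
        ≤ ε ^ M * (3 / 2 * (ε ^ M * ‖ev P x‖)) := mul_le_mul_of_nonneg_left h6 hεM.le
      _ = 3 / 2 * (ε ^ M) ^ 2 * ‖ev P x‖ := by ring
  · intro x h1 h2
    obtain ⟨h3, h4⟩ := hzone x h1 h2
    have h5 := hc0' (ε • x) ⟨h3, h4⟩
    have hMi : ∀ j k, (ε ^ M) ^ 2 * ‖Mi r P j k x‖ ^ 2 = ε ^ 4 * ‖Mi (rr p u) p j k (ε • x)‖ ^ 2 := by
      intro j k
      have e1 : (ε : ℂ) ^ M * Mi r P j k x = (ε : ℂ) ^ 2 * Mi (rr p u) p j k (ε • x) := by
        unfold Mi
        rw [hwd, hwd]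
        have e2 := ev_pderiv_PS P ε x j
        have e3 := ev_pderiv_PS P ε x k
        linear_combination (-(ε : ℂ) * wd k (rc (rr p u)) (ε • x)) * e2
          + ((ε : ℂ) * wd j (rc (rr p u)) (ε • x)) * e3
      have e4 := congrArg (fun w : ℂ => ‖w‖ ^ 2) e1
      simp only [norm_mul, norm_pow, Complex.norm_real, Real.norm_eq_abs, abs_of_pos hε] at e4
      rw [mul_pow, mul_pow] at e4
      rw [e4]
      ring
    have htau : (ε ^ M) ^ 2 * tau r P x = ε ^ 4 * tau (rr p u) p (ε • x) := by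
      unfold tau
      have e5 : (ε ^ M) ^ 2 * (1 / 2 * ∑ j, ∑ k, ‖Mi r P j k x‖ ^ 2)
          = 1 / 2 * ∑ j, ∑ k, (ε ^ M) ^ 2 * ‖Mi r P j k x‖ ^ 2 := by
        simp only [Finset.mul_sum]
        apply Finset.sum_congr rfl; intro j _
        apply Finset.sum_congr rfl; intro k _
        ring
      rw [e5]
      simp only [hMi, ← Finset.mul_sum]
      ring
    have h6 : (ε ^ M) ^ 2 * (‖ev P x‖ ^ 2 + tau r P x) ≥ ε ^ 4 * c0 := by
      have e6 : (ε ^ M) ^ 2 * (‖ev P x‖ ^ 2 + tau r P x)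
          = ‖ev p (ε • x)‖ ^ 2 + ε ^ 4 * tau (rr p u) p (ε • x) := by
        rw [mul_add, htau, hnorm]; ring
      rw [e6]
      have e7 : ε ^ 4 ≤ 1 := pow_le_one₀ hε.le hε1
      have e8 : 0 ≤ ‖ev p (ε • x)‖ ^ 2 := by positivity
      have e9 : 0 < ε ^ 4 := by positivity
      nlinarith
    have h7 : (ε ^ M) ^ 2 ≤ 1 := pow_le_one₀ hεM.le (pow_le_one₀ hε.le hε1)
    have h8 : 0 ≤ ‖ev P x‖ ^ 2 + tau r P x := by
      have := tau_nonneg r P x
      positivity
    refine (min_le_right _ _).trans ?_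
    nlinarith
  · intro z hz
    rw [mem_closedBall_zero_iff] at hz
    have h1 : Nn z ≤ n * ρ ^ 2 := by
      unfold Nn
      calc ∑ j, ‖z j‖ ^ 2 ≤ ∑ _j : Fin n, ρ ^ 2 := by
            apply Finset.sum_le_sum
            intro j _
            have h2 : ‖z j‖ ≤ ρ := (norm_le_pi_norm z j).trans hz
            exact pow_le_pow_left₀ (norm_nonneg _) h2 2
        _ = n * ρ ^ 2 := by simp
    have h2 : Nn (ε • z) ≤ 1 / 4 := by
      rw [Nn_smul]
      have : ε ^ 2 * Nn z ≤ ε ^ 2 * (n * ρ ^ 2) := mul_le_mul_of_nonneg_left h1 (by positivity)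
      linarith
    have h3 := (hbd (ε • z)).1
    rw [hrr]
    linarith

end Pool.Agent.H60
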