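import Mathlib

set_option autoImplicit false

open ContinuousLinearMap

noncomputable section

namespace Pool.Agent.H60

variable {Z : Type*} [NormedAddCommGroup Z] [InnerProductSpace ℂ Z] [CompleteSpace Z]

/-- An injective finite rank perturbation of an invertible operator is surjective. -/
lemma surj_of_inj (T S : Z →L[ℂ] Z) (hT : IsUnit T)
    (hS : FiniteDimensional ℂ (LinearMap.range (S : Z →ₗ[ℂ] Z)))
    (hinj : Function.Injective (T - S)) : Function.Surjective (T - S) := by
  obtain ⟨u, rfl⟩ := hT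
  set Ti : Z →L[ℂ] Z := ((u⁻¹ : (Z →L[ℂ] Z)ˣ) : Z →L[ℂ] Z) with hTi
  have h1 : ∀ x, Ti ((u : Z →L[ℂ] Z) x) = x := fun x => by
    exact congrArg (fun f : Z →L[ℂ] Z => f x) u.inv_mul
  have h2 : ∀ x, (u : Z →L[ℂ] Z) (Ti x) = x := fun x => by
    exact congrArg (fun f : Z →L[ℂ] Z => f x) u.mul_inv
  let L : Z →ₗ[ℂ] Z := (Ti : Z →ₗ[ℂ] Z) ∘ₗ (S : Z →ₗ[ℂ] Z)
  have hL : ∀ x, L x = Ti (S x) := fun x => rfl
  let W : Submodule ℂ Z := LinearMap.range L
  have hW : FiniteDimensional ℂ W := by
    have : W = Submodule.map (Ti : Z →ₗ[ℂ] Z) (LinearMap.range (S : Z →ₗ[ℂ] Z)) := by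
      simp only [W, L]
      rw [LinearMap.range_comp]
    rw [this]
    infer_instance
  let N : Z →ₗ[ℂ] Z := LinearMap.id - L
  have hN : ∀ x, N x = x - L x := fun x => rfl
  have hNinj : Function.Injective N := by
    rw [← LinearMap.ker_eq_bot, LinearMap.ker_eq_bot']
    intro x hx
    have h3 : (u : Z →L[ℂ] Z) x - S x = 0 := by
      have h4 : x = Ti (S x) := by rw [← hL, eq_comm, ← sub_eq_zero, ← neg_eq_zero, neg_sub]; exact hx
      have h5 := congrArg (u : Z →L[ℂ] Z) h4
      rw [h2] at h5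
      rw [h5, sub_self]
    exact (injective_iff_map_eq_zero _).mp hinj x (by simpa using h3)
  have hmap : ∀ w : Z, w ∈ W → N w ∈ W := by
    intro w hw
    rw [hN]
    exact W.sub_mem hw ⟨w, rfl⟩
  let NW : W →ₗ[ℂ] W := N.restrict hmap
  have hNWinj : Function.Injective NW := by
    intro a b hab
    apply Subtype.ext
    apply hNinj
    have := congrArg Subtype.val hab
    simpa [NW, LinearMap.coe_restrict_apply] using this
  have hNWsurj : Function.Surjective NW := LinearMap.injective_iff_surjective.mp hNWinj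
  have hNsurj : Function.Surjective N := by
    intro z
    obtain ⟨w, hw⟩ := hNWsurj ⟨L z, ⟨z, rfl⟩⟩
    refine ⟨z + w, ?_⟩
    have h3 : N w = L z := by
      have := congrArg Subtype.val hw
      simpa [NW, LinearMap.coe_restrict_apply] using this
    rw [map_add, h3, hN]
    abel
  intro y
  obtain ⟨x, hx⟩ := hNsurj (Ti y)
  refine ⟨x, ?_⟩
  have h3 : (u : Z →L[ℂ] Z) (N x) = y := by rw [hx, h2]
  rw [hN, map_sub, hL, h2] at h3
  simpa using h3

/-- The abstract functional analytic lemma. -/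
theorem fa (A : Z →L[ℂ] Z) {ι : Type*} [Fintype ι] (e : ι → Z) (c C : ℝ) (hc : 0 < c)
    (h : ∀ x, c * ‖x‖ ^ 2 ≤ (inner ℂ x (A x)).re + C * ∑ i, ‖inner ℂ (e i) x‖ ^ 2)
    (hinj : ∀ y, (∀ x, inner ℂ y (A x) = 0) → y = 0) :
    ∃ C' : ℝ, 0 < C' ∧ ∀ x, ‖x‖ ≤ C' * ‖A x‖ := by
  let K : Z →L[ℂ] Z := (C : ℂ) • ∑ i, (innerSL ℂ (e i)).smulRight (e i)
  have hK : ∀ x, K x = (C : ℂ) • ∑ i, (inner ℂ (e i) x : ℂ) • e i := fun x => by
    simp [K]
  have hKx : ∀ x, inner ℂ x (K x) = ((C * ∑ i, ‖inner ℂ (e i) x‖ ^ 2 : ℝ) : ℂ) := by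
    intro x
    rw [hK, inner_smul_right, inner_sum]
    push_cast
    congr 1
    apply Finset.sum_congr rfl
    intro i _
    rw [inner_smul_right, ← inner_conj_symm x (e i), Complex.mul_conj,
      Complex.normSq_eq_norm_sq]
    push_cast
    rfl
  let B : Z →L[ℂ] Z := A + K
  have hB : IsUnit B := by
    refine ContinuousLinearMap.isUnit_of_forall_le_norm_inner_map B
      (c := Real.toNNReal c) (Real.toNNReal_pos.mpr hc) fun x => ?_
    have h1 := h x
    have h2 : (inner ℂ x (B x)).re = (inner ℂ x (A x)).re + C * ∑ i, ‖inner ℂ (e i) x‖ ^ 2 := by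
      have : B x = A x + K x := rfl
      rw [this, inner_add_right, hKx, Complex.add_re, Complex.ofReal_re]
    have h3 : (inner ℂ x (B x)).re ≤ ‖inner ℂ (B x) x‖ := by
      rw [norm_inner_symm]
      exact Complex.re_le_norm _
    rw [Real.coe_toNNReal c hc.le]
    linarith
  -- adjoints
  have hBa : IsUnit (adjoint B) := by
    have := hB.star
    simpa [ContinuousLinearMap.star_eq_adjoint] using this
  have hAB : adjoint A = adjoint B - adjoint K := by
    simp [B, map_add]
  have hKa : FiniteDimensional ℂ (LinearMap.range ((adjoint K : Z →L[ℂ] Z) : Z →ₗ[ℂ] Z)) := by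
    have hsub : LinearMap.range ((adjoint K : Z →L[ℂ] Z) : Z →ₗ[ℂ] Z)
        ≤ Submodule.span ℂ (Set.range e) := by
      rintro _ ⟨y, rfl⟩
      have hy : adjoint K y = (C : ℂ) • ∑ i, (inner ℂ (e i) y : ℂ) • e i := by
        apply ext_inner_left ℂ
        intro v
        rw [adjoint_inner_right, hK, inner_smul_left, sum_inner, inner_smul_right, inner_sum,
          Complex.conj_ofReal]
        congr 1
        apply Finset.sum_congr rfl
        intro i _
        rw [inner_smul_left, inner_smul_right, inner_conj_symm]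
        ring
      show adjoint K y ∈ _
      rw [hy]
      exact Submodule.smul_mem _ _ (Submodule.sum_mem _ fun i _ =>
        Submodule.smul_mem _ _ (Submodule.subset_span ⟨i, rfl⟩))
    have : FiniteDimensional ℂ (Submodule.span ℂ (Set.range e)) :=
      FiniteDimensional.span_of_finite ℂ (Set.finite_range e)
    exact Submodule.finiteDimensional_of_le hsub
  have hAinj : Function.Injective (adjoint A) := by
    rw [injective_iff_map_eq_zero]
    intro y hy
    apply hinj y
    intro x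
    rw [← adjoint_inner_left, hy, inner_zero_left]
  have hAsurj : Function.Surjective (adjoint A) := by
    rw [hAB] at hAinj ⊢
    exact surj_of_inj _ _ hBa hKa hAinj
  have hAu : IsUnit (adjoint A) := ContinuousLinearMap.isUnit_iff_bijective.mpr ⟨hAinj, hAsurj⟩
  have hAu' : IsUnit A := by
    have := hAu.star
    simpa [ContinuousLinearMap.star_eq_adjoint] using this
  obtain ⟨u, hu⟩ := hAu'
  set Ai : Z →L[ℂ] Z := ((u⁻¹ : (Z →L[ℂ] Z)ˣ) : Z →L[ℂ] Z) with hAi
  refine ⟨‖Ai‖ + 1, by positivity, fun x => ?_⟩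
  have h1 : Ai (A x) = x := by
    have := congrArg (fun f : Z →L[ℂ] Z => f x) u.inv_mul
    rw [hu] at this
    exact this
  calc ‖x‖ = ‖Ai (A x)‖ := by rw [h1]
    _ ≤ ‖Ai‖ * ‖A x‖ := Ai.le_opNorm _
    _ ≤ (‖Ai‖ + 1) * ‖A x‖ := by
      have := norm_nonneg (A x)
      nlinarith

end Pool.Agent.H60
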