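import Pool.Agent.H60.FA

set_option autoImplicit false

noncomputable section

namespace Pool.Agent.H60

variable {H : Type*} [NormedAddCommGroup H] [InnerProductSpace ℂ H] [CompleteSpace H]

/-- The functional analytic lemma on a closed subspace. -/
theorem fa2 (Z : Submodule ℂ H) [CompleteSpace Z] (M : H →L[ℂ] H) {ι : Type*} [Fintype ι]
    (e : ι → H) (c C : ℝ) (hc : 0 < c)
    (h : ∀ x ∈ Z, c * ‖x‖ ^ 2 ≤ (inner ℂ x (M x)).re + C * ∑ i, ‖inner ℂ (e i) x‖ ^ 2)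
    (hinj : ∀ y ∈ Z, (∀ x ∈ Z, inner ℂ y (M x) = 0) → y = 0) :
    ∃ C' : ℝ, 0 < C' ∧ ∀ x ∈ Z, ∀ B : ℝ, 0 ≤ B → (∀ y ∈ Z, ‖inner ℂ y (M x)‖ ≤ B * ‖y‖) →
      ‖x‖ ≤ C' * B := by
  let A : Z →L[ℂ] Z := Z.orthogonalProjectionOnto ∘L M ∘L Z.subtypeL
  have hA : ∀ x y : Z, inner ℂ y (A x) = inner ℂ (y : H) (M (x : H)) := by
    intro x y
    have := Z.inner_orthogonalProjectionOnto_eq_of_mem_left y (M (x : H))
    exact this
  obtain ⟨C', hC', hC''⟩ := fa A (fun i => Z.orthogonalProjectionOnto (e i)) c C hc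
    (fun x => by
      have h1 := h x x.2
      have h2 : ∀ i, inner ℂ (Z.orthogonalProjectionOnto (e i)) x = inner ℂ (e i) (x : H) := by
        intro i
        exact Z.inner_orthogonalProjectionOnto_eq_of_mem_right x (e i)
      rw [hA]
      simp only [h2]
      exact h1)
    (fun y hy => by
      apply Subtype.ext
      apply hinj y y.2
      intro x hx
      have := hy ⟨x, hx⟩
      rw [hA] at this
      exact this)
  refine ⟨C', hC', fun x hx B hB0 hB => ?_⟩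
  have h1 := hC'' ⟨x, hx⟩
  refine h1.trans (mul_le_mul_of_nonneg_left ?_ hC'.le)
  have h2 := hA ⟨x, hx⟩ (A ⟨x, hx⟩)
  have h3 := hB (A ⟨x, hx⟩ : H) (A ⟨x, hx⟩).2
  rw [← h2, inner_self_eq_norm_sq_to_K] at h3
  have h4 : ‖A ⟨x, hx⟩‖ ^ 2 ≤ B * ‖A ⟨x, hx⟩‖ := by
    have h5 : ‖((‖A ⟨x, hx⟩‖ : ℂ)) ^ 2‖ = ‖A ⟨x, hx⟩‖ ^ 2 := by
      rw [norm_pow, Complex.norm_real, norm_norm]
    have h6 : ‖((A ⟨x, hx⟩ : Z) : H)‖ = ‖A ⟨x, hx⟩‖ := rfl
    rw [h6] at h3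
    exact h5 ▸ h3
  rcases (norm_nonneg (A ⟨x, hx⟩)).eq_or_lt with h5 | h5
  · rw [← h5]; exact hB0
  · nlinarith

end Pool.Agent.H60
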