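import Pool.Agent.H60.Main1
import Pool.Agent.H60.Dense
import Pool.Agent.H60.Entire

set_option autoImplicit false

open MeasureTheory Complex MvPolynomial
open scoped ContDiff

noncomputable section

namespace Pool.Agent.H60

variable {n : ℕ}

/-- iterated partial derivatives of functions along a list -/
def pdL (l : List (Fin n)) (f : V n → ℂ) : V n → ℂ := l.foldr (fun j h => pd j h) f

lemma pdL_append (l1 l2 : List (Fin n)) (f : V n → ℂ) :
    pdL (l1 ++ l2) f = pdL l1 (pdL l2 f) := by
  simp [pdL, List.foldr_append]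

lemma differentiable_pdL (l : List (Fin n)) {f : V n → ℂ} (hf : Differentiable ℂ f) :
    Differentiable ℂ (pdL l f) := by
  induction l with
  | nil => exact hf
  | cons j l ih => exact differentiable_pd j ih

lemma pd_sub (j : Fin n) {f g : V n → ℂ} (hf : Differentiable ℂ f) (hg : Differentiable ℂ g) :
    pd j (fun z => f z - g z) = fun z => pd j f z - pd j g z := by
  funext z
  unfold pd
  rw [fderiv_fun_sub (hf z) (hg z)]
  rfl

lemma pdL_sub (l : List (Fin n)) {f g : V n → ℂ} (hf : Differentiable ℂ f)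
    (hg : Differentiable ℂ g) :
    pdL l (fun z => f z - g z) = fun z => pdL l f z - pdL l g z := by
  induction l with
  | nil => rfl
  | cons j l ih =>
    have h1 : pdL (j :: l) (fun z => f z - g z) = pd j (pdL l (fun z => f z - g z)) := rfl
    rw [h1, ih, pd_sub j (differentiable_pdL l hf) (differentiable_pdL l hg)]
    rfl

lemma pdL_bound (l : List (Fin n)) {f : V n → ℂ} (hf : Differentiable ℂ f) {s : ℝ} :
    ∀ R : ℝ, (∀ z ∈ Metric.closedBall (0 : V n) (R + l.length), ‖f z‖ ≤ s) →
    ∀ z ∈ Metric.closedBall (0 : V n) R, ‖pdL l f z‖ ≤ s := by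
  induction l with
  | nil =>
    intro R h z hz
    apply h
    simpa using hz
  | cons j l ih =>
    intro R h z hz
    have h1 : pdL (j :: l) f z = pd j (pdL l f) z := rfl
    rw [h1]
    have h2 := norm_fderiv_apply_le (differentiable_pdL l hf) z (Pi.single j 1) (M := s)
      (fun w hw => by
        apply ih (R + 1) _ w
        · rw [Metric.mem_closedBall] at hw hz ⊢
          have := dist_triangle w z 0
          linarith
        · intro x hx
          apply h
          rw [Metric.mem_closedBall] at hx ⊢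
          simp only [List.length_cons]
          push_cast
          linarith)
    have h3 : ‖(Pi.single j (1 : ℂ) : V n)‖ = 1 := by
      rw [Pi.norm_single]; simp
    rw [h3, mul_one] at h2
    exact h2

lemma pdL_ev (l : List (Fin n)) (p : MvPolynomial (Fin n) ℂ) : pdL l (ev p) = ev (pdl l p) := by
  induction l with
  | nil => rfl
  | cons j l ih =>
    have h1 : pdL (j :: l) (ev p) = pd j (pdL l (ev p)) := rfl
    rw [h1, ih]
    funext z
    exact fderiv_ev _ z j

/-- `T_P` on functions -/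
def Tf (P : MvPolynomial (Fin n) ℂ) (f : V n → ℂ) (z : V n) : ℂ :=
  ∑ m ∈ P.support, (starRingEnd ℂ) (P.coeff m) * pdL (Lst m) (fun w => ev P w * f w) z

lemma differentiable_Pf (P : MvPolynomial (Fin n) ℂ) {f : V n → ℂ} (hf : Differentiable ℂ f) :
    Differentiable ℂ (fun w => ev P w * f w) := (differentiable_ev P).mul hf

lemma differentiable_Tf (P : MvPolynomial (Fin n) ℂ) {f : V n → ℂ} (hf : Differentiable ℂ f) :
    Differentiable ℂ (Tf P f) := by
  unfold Tf
  apply Differentiable.fun_sum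
  intro m _
  exact (differentiable_pdL _ (differentiable_Pf P hf)).const_mul _

lemma Tf_sub (P : MvPolynomial (Fin n) ℂ) {f g : V n → ℂ} (hf : Differentiable ℂ f)
    (hg : Differentiable ℂ g) (z : V n) :
    Tf P (fun z => f z - g z) z = Tf P f z - Tf P g z := by
  unfold Tf
  rw [← Finset.sum_sub_distrib]
  apply Finset.sum_congr rfl
  intro m _
  have h1 : (fun w => ev P w * (f w - g w)) = fun w => ev P w * f w - ev P w * g w := by
    funext w; ring
  rw [h1, pdL_sub _ (differentiable_Pf P hf) (differentiable_Pf P hg)]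
  ring

lemma Tf_ev (P p : MvPolynomial (Fin n) ℂ) (z : V n) : Tf P (ev p) z = ev (TP P p) z := by
  unfold Tf TP Dop
  have h1 : (fun w => ev P w * ev p w) = ev (P * p) := by
    funext w; rw [ev_mul]
  rw [h1]
  simp only [pdL_ev]
  simp [ev]

/-- continuity of `T_P` -/
lemma Tf_bound (P : MvPolynomial (Fin n) ℂ) (R : ℝ) :
    ∃ C : ℝ, 0 < C ∧ ∀ (f : V n → ℂ), Differentiable ℂ f → ∀ s : ℝ, 0 ≤ s →
      (∀ z ∈ Metric.closedBall (0 : V n) (R + P.totalDegree), ‖f z‖ ≤ s) →
      ∀ z ∈ Metric.closedBall (0 : V n) R, ‖Tf P f z‖ ≤ C * s := by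
  obtain ⟨M, hM⟩ := (isCompact_closedBall (0 : V n)
    (R + P.totalDegree)).exists_bound_of_continuousOn (continuous_ev P).continuousOn
  refine ⟨(∑ m ∈ P.support, ‖P.coeff m‖) * |M| + 1, by positivity, fun f hf s hs h z hz => ?_⟩
  have hdeg : ∀ m ∈ P.support, m.degree ≤ P.totalDegree := fun m hm => by
    have := le_totalDegree hm
    rwa [Finsupp.degree_eq_sum, ← Finsupp.sum_fintype _ (fun _ x => x) (by simp)]
  have h1 : ∀ m ∈ P.support, ‖pdL (Lst m) (fun w => ev P w * f w) z‖ ≤ |M| * s := by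
    intro m hm
    apply pdL_bound (Lst m) (differentiable_Pf P hf) R _ z hz
    intro w hw
    have hw' : w ∈ Metric.closedBall (0 : V n) (R + P.totalDegree) := by
      rw [length_Lst] at hw
      refine Metric.closedBall_subset_closedBall ?_ hw
      have : (m.degree : ℝ) ≤ P.totalDegree := by exact_mod_cast hdeg m hm
      linarith
    rw [norm_mul]
    exact mul_le_mul ((hM w hw').trans (le_abs_self M)) (h w hw') (norm_nonneg _) (abs_nonneg _)
  unfold Tf
  refine (norm_sum_le _ _).trans ?_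
  calc ∑ m ∈ P.support, ‖(starRingEnd ℂ) (P.coeff m) * pdL (Lst m) (fun w => ev P w * f w) z‖
      ≤ ∑ m ∈ P.support, ‖P.coeff m‖ * (|M| * s) := by
        apply Finset.sum_le_sum
        intro m hm
        rw [norm_mul, RCLike.norm_conj]
        exact mul_le_mul_of_nonneg_left (h1 m hm) (norm_nonneg _)
    _ = (∑ m ∈ P.support, ‖P.coeff m‖) * |M| * s := by rw [Finset.sum_mul, Finset.sum_mul]; apply Finset.sum_congr rfl; intro m _; ring
    _ ≤ _ := by nlinarith

/-- the local estimates hold on every ball -/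
def GoodEst (P : MvPolynomial (Fin n) ℂ) : Prop :=
  ∀ ρ : ℝ, ∃ C ρ' : ℝ, 0 < C ∧ ∀ (F : MvPolynomial (Fin n) ℂ) (s : ℝ), 0 ≤ s →
    (∀ z ∈ Metric.closedBall (0 : V n) ρ', ‖ev (TP P F) z‖ ≤ s) →
    ∀ q ∈ Metric.closedBall (0 : V n) ρ, ‖ev F q‖ ≤ C * s

/-- the a priori estimate for entire functions -/
lemma est_entire {P : MvPolynomial (Fin n) ℂ} (hG : GoodEst P) (ρ : ℝ) :
    ∃ C ρ' : ℝ, 0 < C ∧ ∀ (f : V n → ℂ), Differentiable ℂ f → ∀ s : ℝ, 0 ≤ s →
    (∀ z ∈ Metric.closedBall (0 : V n) ρ', ‖Tf P f z‖ ≤ s) →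
    ∀ q ∈ Metric.closedBall (0 : V n) ρ, ‖f q‖ ≤ C * s := by
  obtain ⟨C, ρ', hC, hest⟩ := hG ρ
  refine ⟨C, ρ', hC, fun f hf s hs h q hq => ?_⟩
  obtain ⟨C1, hC1, hC1'⟩ := Tf_bound P ρ'
  -- for every e > 0
  have key : ∀ e : ℝ, 0 < e → ‖f q‖ ≤ C * (s + C1 * e) + e := by
    intro e he
    obtain ⟨p, hp⟩ := exists_poly_approx hf (max ρ (ρ' + P.totalDegree)) he
    have hdiff : Differentiable ℂ (fun z => f z - ev p z) := hf.sub (differentiable_ev p)
    have h1 : ∀ z ∈ Metric.closedBall (0 : V n) ρ', ‖ev (TP P p) z‖ ≤ s + C1 * e := by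
      intro z hz
      have h2 := hC1' _ hdiff e he.le (fun w hw => hp w
        (Metric.closedBall_subset_closedBall (le_max_right _ _) hw)) z hz
      rw [Tf_sub P hf (differentiable_ev p), Tf_ev] at h2
      have h3 := h z hz
      have h4 : ev (TP P p) z = Tf P f z - (Tf P f z - ev (TP P p) z) := by ring
      rw [h4]
      exact (norm_sub_le _ _).trans (add_le_add h3 h2)
    have h2 := hest p (s + C1 * e) (by positivity) h1 q hq
    have h3 := hp q (Metric.closedBall_subset_closedBall (le_max_left _ _) hq)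
    have h4 : f q = (f q - ev p q) + ev p q := by ring
    rw [h4]
    refine (norm_add_le _ _).trans ?_
    linarith
  refine le_of_forall_pos_le_add fun e he => ?_
  have h1 := key (e / (C * C1 + 1)) (by positivity)
  have h2 : C * (s + C1 * (e / (C * C1 + 1))) + e / (C * C1 + 1) = C * s + e := by
    have h3 : C * C1 + 1 ≠ 0 := by positivity
    have h4 : C * (s + C1 * (e / (C * C1 + 1))) + e / (C * C1 + 1)
        = C * s + e * ((C * C1 + 1) / (C * C1 + 1)) := by ring
    rw [h4, div_self h3, mul_one]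
  linarith

/-- locally uniform limits of polynomials -/
lemma limit_entire (p : ℕ → MvPolynomial (Fin n) ℂ)
    (hp : ∀ R : ℝ, ∀ e : ℝ, 0 < e → ∃ N, ∀ i ≥ N, ∀ j ≥ N,
      ∀ z ∈ Metric.closedBall (0 : V n) R, ‖ev (p i) z - ev (p j) z‖ ≤ e) :
    ∃ f : V n → ℂ, Differentiable ℂ f ∧ ∀ R : ℝ, ∀ e : ℝ, 0 < e → ∃ N, ∀ i ≥ N,
      ∀ z ∈ Metric.closedBall (0 : V n) R, ‖ev (p i) z - f z‖ ≤ e := by
  have hcau : ∀ z, CauchySeq (fun i => ev (p i) z) := by
    intro z
    rw [Metric.cauchySeq_iff']
    intro e he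
    obtain ⟨N, hN⟩ := hp ‖z‖ (e / 2) (by positivity)
    refine ⟨N, fun i hi => ?_⟩
    rw [dist_eq_norm]
    have := hN i hi N le_rfl z (by rw [mem_closedBall_zero_iff])
    linarith
  choose f hf using fun z => cauchySeq_tendsto_of_complete (hcau z)
  have hunif : ∀ R : ℝ, ∀ e : ℝ, 0 < e → ∃ N, ∀ i ≥ N,
      ∀ z ∈ Metric.closedBall (0 : V n) R, ‖ev (p i) z - f z‖ ≤ e := by
    intro R e he
    obtain ⟨N, hN⟩ := hp R e he
    refine ⟨N, fun i hi z hz => ?_⟩
    have h1 : Filter.Tendsto (fun j => ‖ev (p i) z - ev (p j) z‖) Filter.atTop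
        (nhds ‖ev (p i) z - f z‖) := ((tendsto_const_nhds).sub (hf z)).norm
    exact le_of_tendsto h1 (by
      filter_upwards [Filter.eventually_ge_atTop N] with j hj
      exact hN i hi j hj z hz)
  -- derivatives
  have hdcau : ∀ R : ℝ, ∀ e : ℝ, 0 < e → ∃ N, ∀ i ≥ N, ∀ j ≥ N,
      ∀ z ∈ Metric.closedBall (0 : V n) R, ‖fderiv ℂ (ev (p i)) z - fderiv ℂ (ev (p j)) z‖
        ≤ e := by
    intro R e he
    obtain ⟨N, hN⟩ := hp (R + 1) e he
    refine ⟨N, fun i hi j hj z hz => ?_⟩
    have hd : Differentiable ℂ (fun z => ev (p i) z - ev (p j) z) :=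
      (differentiable_ev _).sub (differentiable_ev _)
    have h1 := norm_fderiv_le_of hd z he.le (fun w hw => hN i hi j hj w (by
      rw [Metric.mem_closedBall] at hw hz ⊢
      have := dist_triangle w z 0
      linarith))
    rwa [fderiv_fun_sub (differentiable_ev _ z) (differentiable_ev _ z)] at h1
  have hdc : ∀ z, CauchySeq (fun i => fderiv ℂ (ev (p i)) z) := by
    intro z
    rw [Metric.cauchySeq_iff']
    intro e he
    obtain ⟨N, hN⟩ := hdcau ‖z‖ (e / 2) (by positivity)
    refine ⟨N, fun i hi => ?_⟩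
    rw [dist_eq_norm]
    have := hN i hi N le_rfl z (by rw [mem_closedBall_zero_iff])
    linarith
  choose g hg using fun z => cauchySeq_tendsto_of_complete (hdc z)
  have hloc : TendstoLocallyUniformlyOn (fun i => fderiv ℂ (ev (p i))) g Filter.atTop
      Set.univ := by
    rw [Metric.tendstoLocallyUniformlyOn_iff]
    intro e he x _
    refine ⟨Metric.ball x 1, mem_nhdsWithin_of_mem_nhds (Metric.ball_mem_nhds x one_pos), ?_⟩
    obtain ⟨N, hN⟩ := hdcau (‖x‖ + 1) (e / 2) (by positivity)
    filter_upwards [Filter.eventually_ge_atTop N] with i hi y hy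
    have hy' : y ∈ Metric.closedBall (0 : V n) (‖x‖ + 1) := by
      rw [mem_closedBall_zero_iff]
      rw [Metric.mem_ball, dist_eq_norm] at hy
      have := norm_add_le (y - x) x
      rw [sub_add_cancel] at this
      linarith
    have h1 : Filter.Tendsto (fun j => ‖fderiv ℂ (ev (p i)) y - fderiv ℂ (ev (p j)) y‖)
        Filter.atTop (nhds ‖fderiv ℂ (ev (p i)) y - g y‖) :=
      ((tendsto_const_nhds).sub (hg y)).norm
    have h2 : ‖fderiv ℂ (ev (p i)) y - g y‖ ≤ e / 2 := le_of_tendsto h1 (by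
      filter_upwards [Filter.eventually_ge_atTop N] with j hj
      exact hN i hi j hj y hy')
    rw [dist_comm, dist_eq_norm]
    linarith
  refine ⟨f, fun z => ?_, hunif⟩
  exact (hasFDerivAt_of_tendstoLocallyUniformlyOn isOpen_univ hloc
    (fun i x _ => (differentiable_ev (p i) x).hasFDerivAt) (fun x _ => hf x)
    (Set.mem_univ z)).differentiableAt

/-- **Bijectivity from local estimates.** -/
theorem bij_of_goodEst {P : MvPolynomial (Fin n) ℂ} (hP : P ≠ 0) (hG : GoodEst P) :
    Set.BijOn (Tf P) {f | Differentiable ℂ f} {f | Differentiable ℂ f} := by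
  refine ⟨fun f hf => differentiable_Tf P hf, ?_, ?_⟩
  · intro f hf g hg hfg
    funext q
    obtain ⟨C, ρ', hC, hest⟩ := est_entire hG ‖q‖
    have h1 := hest (fun z => f z - g z) (Differentiable.sub hf hg) 0 le_rfl (fun z _ => by
      rw [Tf_sub P hf hg, hfg, sub_self, norm_zero]) q (by rw [mem_closedBall_zero_iff])
    rw [mul_zero] at h1
    exact sub_eq_zero.mp (norm_le_zero_iff.mp h1)
  · intro g hg
    have hg' : Differentiable ℂ g := hg
    -- approximate solutions
    have hex : ∀ k : ℕ, ∃ F : MvPolynomial (Fin n) ℂ,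
        ∀ z ∈ Metric.closedBall (0 : V n) (k + 1), ‖ev (TP P F) z - g z‖ ≤ 2 * (1 / (k + 1)) := by
      intro k
      obtain ⟨q, hq⟩ := exists_poly_approx hg' (k + 1) (ε := 1 / ((k : ℝ) + 1)) (by positivity)
      obtain ⟨F, hF⟩ := dense_TP hP q (R := (k : ℝ) + 1) (by positivity)
        (ε := 1 / ((k : ℝ) + 1)) (by positivity)
      refine ⟨F, fun z hz => ?_⟩
      have h1 := hq z hz
      have h2 := hF z hz
      have h3 : ev (TP P F) z - g z = (ev (TP P F) z - ev q z) - (g z - ev q z) := by ring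
      rw [h3]
      refine (norm_sub_le _ _).trans ?_
      linarith
    choose F hF using hex
    have hlim : Filter.Tendsto (fun k : ℕ => 2 * (1 / ((k : ℝ) + 1))) Filter.atTop (nhds 0) := by
      have := (tendsto_one_div_add_atTop_nhds_zero_nat (𝕜 := ℝ)).const_mul 2
      simpa using this
    have hsmall : ∀ R : ℝ, ∀ e : ℝ, 0 < e → ∃ N : ℕ, ∀ i ≥ N,
        ∀ z ∈ Metric.closedBall (0 : V n) R, ‖ev (TP P (F i)) z - g z‖ ≤ e := by
      intro R e he
      obtain ⟨N1, hN1⟩ := Filter.eventually_atTop.mp (hlim.eventually (gt_mem_nhds he))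
      obtain ⟨N2, hN2⟩ := exists_nat_ge R
      refine ⟨max N1 N2, fun i hi z hz => ?_⟩
      have hi1 : N1 ≤ i := (le_max_left _ _).trans hi
      have hi2 : (N2 : ℝ) ≤ i := by exact_mod_cast (le_max_right _ _).trans hi
      refine (hF i z ?_).trans (hN1 i hi1).le
      refine Metric.closedBall_subset_closedBall ?_ hz
      linarith
    obtain ⟨f, hf, hf'⟩ := limit_entire F (by
      intro R e he
      obtain ⟨C, ρ', hC, hest⟩ := hG R
      obtain ⟨N, hN⟩ := hsmall ρ' (e / (2 * C)) (by positivity)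
      refine ⟨N, fun i hi j hj z hz => ?_⟩
      have h1 := hest (F i - F j) (e / C) (by positivity) (fun w hw => by
        have h2 := hN i hi w hw
        have h3 := hN j hj w hw
        have h4 : ev (TP P (F i - F j)) w
            = (ev (TP P (F i)) w - g w) - (ev (TP P (F j)) w - g w) := by
          have : TP P (F i - F j) = TP P (F i) - TP P (F j) := map_sub (TPl P) _ _
          rw [this]
          simp [ev]
        rw [h4]
        refine (norm_sub_le _ _).trans ?_
        have h5 : e / C = e / (2 * C) + e / (2 * C) := by field_simp; ring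
        rw [h5]
        exact add_le_add h2 h3) z hz
      have h2 : ev (F i - F j) z = ev (F i) z - ev (F j) z := by simp [ev]
      rw [h2] at h1
      have h3 : C * (e / C) = e := by field_simp
      rwa [h3] at h1)
    refine ⟨f, hf, ?_⟩
    funext z
    obtain ⟨C1, hC1, hC1'⟩ := Tf_bound P ‖z‖
    have h1 : ‖Tf P f z - g z‖ ≤ 0 := by
      refine le_of_forall_pos_le_add fun e he => ?_
      rw [zero_add]
      obtain ⟨N1, hN1⟩ := hf' (‖z‖ + P.totalDegree) (e / (2 * C1)) (by positivity)
      obtain ⟨N2, hN2⟩ := hsmall ‖z‖ (e / 2) (by positivity)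
      have h2 := hN2 (max N1 N2) (le_max_right _ _) z (by rw [mem_closedBall_zero_iff])
      have hd : Differentiable ℂ (fun w => ev (F (max N1 N2)) w - f w) :=
        (differentiable_ev _).sub hf
      have h3 := hC1' _ hd (e / (2 * C1)) (by positivity)
        (fun w hw => hN1 (max N1 N2) (le_max_left _ _) w hw) z (by rw [mem_closedBall_zero_iff])
      rw [Tf_sub P (differentiable_ev _) hf, Tf_ev] at h3
      have h4 : Tf P f z - g z = (ev (TP P (F (max N1 N2))) z - g z)
          - (ev (TP P (F (max N1 N2))) z - Tf P f z) := by ring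
      rw [h4]
      refine (norm_sub_le _ _).trans ?_
      have h5 : C1 * (e / (2 * C1)) = e / 2 := by field_simp
      rw [h5] at h3
      linarith
    exact sub_eq_zero.mp (norm_le_zero_iff.mp h1)

/-- adapted exhaustion gives the good estimates -/
theorem goodEst_of_adapted {P : MvPolynomial (Fin n) ℂ} (hm : 1 ≤ P.totalDegree)
    (h : ∀ ρ : ℝ, ∃ (r : V n → ℝ) (δ c C δ0 : ℝ), Adapted P r δ c C ∧ 0 < δ0 ∧
      ∀ z ∈ Metric.closedBall (0 : V n) ρ, δ0 ≤ r z) : GoodEst P := by
  intro ρ
  obtain ⟨r, δ, c, C, δ0, hA, hδ0, hball⟩ := h ρ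
  obtain ⟨C', hC', hest⟩ := local_estimate hm hA hδ0
  obtain ⟨K, hK, hK'⟩ := hA.cpt
  obtain ⟨R, hR⟩ := hK.isBounded.subset_closedBall (0 : V n)
  refine ⟨C', R, hC', fun F s hs hF q hq => ?_⟩
  exact hest F s hs (fun z hz => hF z (hR (hK' z hz))) q (hball q hq)

end Pool.Agent.H60
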