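import Pool.Agent.H60.Op

set_option autoImplicit false

open Complex MvPolynomial

noncomputable section

namespace Pool.Agent.H60

variable {n : ℕ}

/-- multi-index factorial -/
def fac (α : Fin n →₀ ℕ) : ℕ := ∏ j, (α j).factorial

lemma fac_pos (α : Fin n →₀ ℕ) : 0 < fac α := Finset.prod_pos fun _ _ => Nat.factorial_pos _

lemma fac_single_sub (α : Fin n →₀ ℕ) (j : Fin n) (h : α j ≠ 0) :
    fac α = α j * fac (α - Finsupp.single j 1) := by
  classical
  unfold fac
  have e1 := Finset.mul_prod_erase Finset.univ (fun i => (α i).factorial) (Finset.mem_univ j)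
  have e2 := Finset.mul_prod_erase Finset.univ
    (fun i => ((α - Finsupp.single j 1 : Fin n →₀ ℕ) i).factorial) (Finset.mem_univ j)
  rw [← e1, ← e2, ← mul_assoc]
  congr 1
  · obtain ⟨k, hk⟩ := Nat.exists_eq_succ_of_ne_zero h
    simp [Nat.succ_eq_add_one, hk, Nat.factorial_succ]
  · apply Finset.prod_congr rfl
    intro i hi
    have : i ≠ j := Finset.ne_of_mem_erase hi
    simp [Finsupp.single_apply, this.symm]

lemma fac_add_le (α γ : Fin n →₀ ℕ) :
    fac (α + γ) ≤ 2 ^ (α.degree + γ.degree) * fac α * fac γ := by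
  unfold fac
  rw [Finsupp.degree_eq_sum, Finsupp.degree_eq_sum, ← Finset.sum_add_distrib,
    ← Finset.prod_pow_eq_pow_sum, ← Finset.prod_mul_distrib, ← Finset.prod_mul_distrib]
  apply Finset.prod_le_prod'
  intro j _
  rw [Finsupp.add_apply, ← Nat.add_choose_mul_factorial_mul_factorial]
  gcongr
  exact Nat.choose_le_two_pow _ _

/-- the Fischer pairing of a polynomial with a power series -/
def Bp (v : MvPowerSeries (Fin n) ℂ) : MvPolynomial (Fin n) ℂ →ₗ[ℂ] ℂ :=
  (MvPolynomial.basisMonomials (Fin n) ℂ).constr ℂ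
    fun α => (fac α : ℂ) * (starRingEnd ℂ) (MvPowerSeries.coeff α v)

lemma Bp_monomial (v : MvPowerSeries (Fin n) ℂ) (α : Fin n →₀ ℕ) (a : ℂ) :
    Bp v (monomial α a) = a * ((fac α : ℂ) * (starRingEnd ℂ) (MvPowerSeries.coeff α v)) := by
  have h1 : monomial α a = a • (monomial α 1 : MvPolynomial (Fin n) ℂ) := by
    rw [smul_monomial, smul_eq_mul, mul_one]
  rw [h1, map_smul, smul_eq_mul]
  congr 1
  have := (MvPolynomial.basisMonomials (Fin n) ℂ).constr_basis ℂ
    (fun α => (fac α : ℂ) * (starRingEnd ℂ) (MvPowerSeries.coeff α v)) α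
  rwa [MvPolynomial.coe_basisMonomials] at this

lemma lin_ext {f g : MvPolynomial (Fin n) ℂ →ₗ[ℂ] ℂ}
    (h : ∀ α a, f (monomial α a) = g (monomial α a)) : f = g := by
  apply LinearMap.ext
  intro p
  induction p using MvPolynomial.induction_on' with
  | monomial u a => exact h u a
  | add p q hp hq => rw [map_add, map_add, hp, hq]

lemma Bp_add (v w : MvPowerSeries (Fin n) ℂ) (p : MvPolynomial (Fin n) ℂ) :
    Bp (v + w) p = Bp v p + Bp w p := by
  have : Bp (v + w) = Bp v + Bp w := by
    apply lin_ext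
    intro α a
    rw [LinearMap.add_apply, Bp_monomial, Bp_monomial, Bp_monomial]
    simp
    ring
  rw [this]; rfl

lemma Bp_smul (v : MvPowerSeries (Fin n) ℂ) (c : ℂ) (p : MvPolynomial (Fin n) ℂ) :
    Bp (c • v) p = (starRingEnd ℂ) c * Bp v p := by
  have : Bp (c • v) = (starRingEnd ℂ) c • Bp v := by
    apply lin_ext
    intro α a
    rw [LinearMap.smul_apply, Bp_monomial, Bp_monomial]
    simp
    ring
  rw [this]; rfl

lemma Bp_sum {ι : Type*} (s : Finset ι) (v : ι → MvPowerSeries (Fin n) ℂ)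
    (p : MvPolynomial (Fin n) ℂ) :
    Bp (∑ i ∈ s, v i) p = ∑ i ∈ s, Bp (v i) p := by
  classical
  induction s using Finset.induction_on with
  | empty =>
    have := Bp_smul (0 : MvPowerSeries (Fin n) ℂ) 0 p
    simpa using this
  | insert a s ha ih => rw [Finset.sum_insert ha, Finset.sum_insert ha, Bp_add, ih]

/-- multiplication by a variable is adjoint to the partial derivative -/
lemma Bp_pderiv (v : MvPowerSeries (Fin n) ℂ) (j : Fin n) (p : MvPolynomial (Fin n) ℂ) :
    Bp v (pderiv j p) = Bp (MvPowerSeries.X j * v) p := by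
  classical
  induction p using MvPolynomial.induction_on' with
  | monomial s a =>
    rw [pderiv_monomial, Bp_monomial, Bp_monomial]
    by_cases h : s j = 0
    · rw [h, Nat.cast_zero, mul_zero, zero_mul]
      have : MvPowerSeries.coeff s (MvPowerSeries.X j * v) = 0 := by
        rw [MvPowerSeries.X, MvPowerSeries.coeff_monomial_mul, if_neg]
        rw [Finsupp.single_le_iff]
        omega
      rw [this, map_zero, mul_zero, mul_zero]
    · have h1 : MvPowerSeries.coeff s (MvPowerSeries.X j * v)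
          = MvPowerSeries.coeff (s - Finsupp.single j 1) v := by
        rw [MvPowerSeries.X, MvPowerSeries.coeff_monomial_mul, if_pos, one_mul]
        rw [Finsupp.single_le_iff]
        omega
      rw [h1, fac_single_sub s j h]
      push_cast
      ring
  | add p q hp hq => rw [map_add, map_add, map_add, hp, hq]

lemma Bp_pdl (l : List (Fin n)) : ∀ (v : MvPowerSeries (Fin n) ℂ) (p : MvPolynomial (Fin n) ℂ),
    Bp v (pdl l p) = Bp ((l.map fun j => (MvPowerSeries.X j : MvPowerSeries (Fin n) ℂ)).prod * v)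
      p := by
  induction l with
  | nil => intro v p; simp [pdl]
  | cons j l ih =>
    intro v p
    have : pdl (j :: l) p = pderiv j (pdl l p) := rfl
    rw [this, Bp_pderiv, ih]
    congr 2
    simp only [List.map_cons, List.prod_cons]
    ring

lemma prod_Lst (m : Fin n →₀ ℕ) :
    ((Lst m).map fun j => (MvPowerSeries.X j : MvPowerSeries (Fin n) ℂ)).prod
      = MvPowerSeries.monomial m 1 := by
  have h1 : ((Lst m).map fun j => (MvPowerSeries.X j : MvPowerSeries (Fin n) ℂ)).prod
      = ∏ j, (MvPowerSeries.X j : MvPowerSeries (Fin n) ℂ) ^ (m j) := by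
    unfold Lst
    rw [← List.prod_ofFn, List.ofFn_eq_map]
    generalize List.finRange n = L
    induction L with
    | nil => simp
    | cons a L ih => simp [List.flatMap_cons, ih]
  rw [h1]
  have h2 : (∏ j, (MvPowerSeries.X j : MvPowerSeries (Fin n) ℂ) ^ (m j))
      = ((monomial m 1 : MvPolynomial (Fin n) ℂ) : MvPowerSeries (Fin n) ℂ) := by
    rw [monomial_eq, Finsupp.prod_fintype]
    · have : ((∏ i, X i ^ m i : MvPolynomial (Fin n) ℂ) : MvPowerSeries (Fin n) ℂ)
          = ∏ i, ((X i ^ m i : MvPolynomial (Fin n) ℂ) : MvPowerSeries (Fin n) ℂ) :=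
        map_prod (MvPolynomial.coeToMvPowerSeries.ringHom (R := ℂ) (σ := Fin n)) _ _
      simp [this]
    · intro i; simp
  rw [h2, MvPolynomial.coe_monomial]

/-- `P^*(D)` is adjoint to multiplication by `P`. -/
lemma Bp_Dop (P : MvPolynomial (Fin n) ℂ) (v : MvPowerSeries (Fin n) ℂ)
    (p : MvPolynomial (Fin n) ℂ) :
    Bp v (Dop P p) = Bp ((P : MvPowerSeries (Fin n) ℂ) * v) p := by
  have h1 : (P : MvPowerSeries (Fin n) ℂ) * v
      = ∑ m ∈ P.support, (P.coeff m) • ((MvPowerSeries.monomial m 1) * v) := by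
    conv_lhs => rw [P.as_sum]
    have : ((∑ m ∈ P.support, monomial m (P.coeff m) : MvPolynomial (Fin n) ℂ) :
        MvPowerSeries (Fin n) ℂ) = ∑ m ∈ P.support,
          ((monomial m (P.coeff m) : MvPolynomial (Fin n) ℂ) : MvPowerSeries (Fin n) ℂ) :=
      map_sum (MvPolynomial.coeToMvPowerSeries.ringHom (R := ℂ) (σ := Fin n)) _ _
    rw [this, Finset.sum_mul]
    apply Finset.sum_congr rfl
    intro m _
    rw [MvPolynomial.coe_monomial, ← smul_mul_assoc]
    congr 1
    ext k
    classical
    simp [MvPowerSeries.coeff_monomial]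
  rw [h1, Bp_sum, Dop, map_sum]
  apply Finset.sum_congr rfl
  intro m _
  rw [Bp_smul, ← smul_eq_C_mul, map_smul, smul_eq_mul, Bp_pdl, prod_Lst]

end Pool.Agent.H60
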