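import Pool.Agent.H60.Fock

set_option autoImplicit false

open Complex MvPolynomial

noncomputable section

namespace Pool.Agent.H60

variable {n : ℕ}

lemma summable_pi_prod (f : ℕ → ℝ) (hf : Summable f) (h0 : ∀ k, 0 ≤ f k) (n : ℕ) :
    Summable (fun α : Fin n → ℕ => ∏ j, f (α j)) := by
  induction n with
  | zero => exact Summable.of_finite
  | succ n ih =>
    rw [← (Fin.consEquiv (fun _ : Fin (n + 1) => ℕ)).summable_iff]
    have h1 := hf.mul_of_nonneg ih h0 (fun α => Finset.prod_nonneg fun j _ => h0 _)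
    refine h1.congr fun x => ?_
    simp [Fin.consEquiv, Fin.prod_univ_succ]

lemma summable_exp (R : ℝ) (hR : 0 ≤ R) :
    Summable (fun α : Fin n →₀ ℕ => R ^ α.degree / (fac α : ℝ)) := by
  have h1 := summable_pi_prod (fun k => R ^ k / (k.factorial : ℝ))
    (Real.summable_pow_div_factorial R) (fun k => by positivity) n
  rw [← (Finsupp.equivFunOnFinite (α := Fin n) (M := ℕ)).summable_iff] at h1
  refine h1.congr fun α => ?_
  simp only [Function.comp, Finsupp.equivFunOnFinite_apply, fac]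
  rw [Finset.prod_div_distrib, Finset.prod_pow_eq_pow_sum, Finsupp.degree_eq_sum]
  push_cast
  rfl

/-- shifted coefficient -/
def sh (v : MvPowerSeries (Fin n) ℂ) (γ β : Fin n →₀ ℕ) : ℂ :=
  if γ ≤ β then MvPowerSeries.coeff (β - γ) v else 0

lemma coeff_mul_series (P : MvPolynomial (Fin n) ℂ) (v : MvPowerSeries (Fin n) ℂ)
    (β : Fin n →₀ ℕ) :
    MvPowerSeries.coeff β ((P : MvPowerSeries (Fin n) ℂ) * v)
      = ∑ γ ∈ P.support, P.coeff γ * sh v γ β := by
  classical
  have h1 : (P : MvPowerSeries (Fin n) ℂ) * v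
      = ∑ m ∈ P.support, (MvPowerSeries.monomial m (P.coeff m)) * v := by
    conv_lhs => rw [P.as_sum]
    have : ((∑ m ∈ P.support, monomial m (P.coeff m) : MvPolynomial (Fin n) ℂ) :
        MvPowerSeries (Fin n) ℂ) = ∑ m ∈ P.support,
          ((monomial m (P.coeff m) : MvPolynomial (Fin n) ℂ) : MvPowerSeries (Fin n) ℂ) :=
      map_sum (MvPolynomial.coeToMvPowerSeries.ringHom (R := ℂ) (σ := Fin n)) _ _
    rw [this, Finset.sum_mul]
    apply Finset.sum_congr rfl
    intro m _
    rw [MvPolynomial.coe_monomial]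
  rw [h1, map_sum]
  apply Finset.sum_congr rfl
  intro m _
  rw [MvPowerSeries.coeff_monomial_mul, sh]
  split_ifs <;> simp

lemma coeff_mul_poly (P q : MvPolynomial (Fin n) ℂ) (β : Fin n →₀ ℕ) :
    coeff β (P * q) = ∑ γ ∈ P.support, P.coeff γ * sh (q : MvPowerSeries (Fin n) ℂ) γ β := by
  rw [← coeff_mul_series, ← MvPolynomial.coe_mul, MvPolynomial.coeff_coe]

lemma Bp_eq_tsum (w : MvPowerSeries (Fin n) ℂ) (q : MvPolynomial (Fin n) ℂ) :
    Bp w q = ∑' β, coeff β q * ((fac β : ℂ) * (starRingEnd ℂ) (MvPowerSeries.coeff β w)) := by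
  rw [tsum_eq_sum (s := q.support)]
  · conv_lhs => rw [q.as_sum]
    rw [map_sum]
    apply Finset.sum_congr rfl
    intro m _
    rw [Bp_monomial]
  · intro β hβ
    rw [notMem_support_iff.mp hβ, zero_mul]

/-- If `v` has exponential type coefficients and `P v` is orthogonal to all `P p`, then
`P v = 0`. -/
theorem fock_series (P : MvPolynomial (Fin n) ℂ) (v : MvPowerSeries (Fin n) ℂ) (C ρ : ℝ)
    (hC : 0 ≤ C) (hρ : 0 ≤ ρ)
    (hv : ∀ α : Fin n →₀ ℕ, ‖MvPowerSeries.coeff α v‖ ≤ C * ρ ^ α.degree / (fac α : ℝ))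
    (h : ∀ p : MvPolynomial (Fin n) ℂ, Bp ((P : MvPowerSeries (Fin n) ℂ) * v) (P * p) = 0) :
    (P : MvPowerSeries (Fin n) ℂ) * v = 0 := by
  classical
  set w := (P : MvPowerSeries (Fin n) ℂ) * v with hw
  -- truncations
  let p : Finset (Fin n →₀ ℕ) → MvPolynomial (Fin n) ℂ := fun s =>
    ∑ α ∈ s, monomial α (MvPowerSeries.coeff α v)
  have hp : ∀ s α, coeff α (p s) = if α ∈ s then MvPowerSeries.coeff α v else 0 := by
    intro s α
    simp only [p, coeff_sum, coeff_monomial]
    rw [Finset.sum_ite_eq' s α]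
  -- majorants
  let A : (Fin n →₀ ℕ) → ℝ := fun β => ∑ γ ∈ P.support, ‖P.coeff γ‖ * ‖sh v γ β‖
  have hA0 : ∀ β, 0 ≤ A β := fun β => Finset.sum_nonneg fun γ _ => by positivity
  have hA1 : ∀ β, ‖MvPowerSeries.coeff β w‖ ≤ A β := by
    intro β
    rw [hw, coeff_mul_series]
    refine (norm_sum_le _ _).trans (Finset.sum_le_sum fun γ _ => ?_)
    rw [norm_mul]
  have hA2 : ∀ s β, ‖coeff β (P * p s)‖ ≤ A β := by
    intro s β
    rw [coeff_mul_poly]
    refine (norm_sum_le _ _).trans (Finset.sum_le_sum fun γ _ => ?_)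
    rw [norm_mul]
    apply mul_le_mul_of_nonneg_left _ (norm_nonneg _)
    unfold sh
    split_ifs with h1
    · rw [MvPolynomial.coeff_coe, hp]
      split_ifs
      · exact le_rfl
      · simp
    · exact le_rfl
  -- summability
  have hsum : Summable (fun β => (fac β : ℝ) * A β ^ 2) := by
    have hγ : ∀ γ ∈ P.support,
        Summable (fun β => (fac β : ℝ) * (‖P.coeff γ‖ * ‖sh v γ β‖) ^ 2) := by
      intro γ _
      have hinj : Function.Injective (fun α : Fin n →₀ ℕ => α + γ) := fun a b h => by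
        simpa using h
      rw [← hinj.summable_iff]
      · refine Summable.of_nonneg_of_le (fun α => by simp only [Function.comp]; positivity)
          (fun α => ?_) ((summable_exp (n := n) (2 * ρ ^ 2) (by positivity)).mul_left
            ((2 : ℝ) ^ γ.degree * fac γ * ‖P.coeff γ‖ ^ 2 * C ^ 2))
        simp only [Function.comp]
        have e1 : sh v γ (α + γ) = MvPowerSeries.coeff α v := by
          unfold sh
          rw [if_pos (by simp)]
          simp
        rw [e1]
        have h1 := hv α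
        have h2 : ((fac (α + γ) : ℕ) : ℝ) ≤ 2 ^ (α.degree + γ.degree) * fac α * fac γ := by
          exact_mod_cast fac_add_le α γ
        have hf : (0 : ℝ) < fac α := by exact_mod_cast fac_pos α
        have h3 : (‖P.coeff γ‖ * ‖MvPowerSeries.coeff α v‖) ^ 2
            ≤ ‖P.coeff γ‖ ^ 2 * (C * ρ ^ α.degree / (fac α : ℝ)) ^ 2 := by
          rw [mul_pow]
          gcongr
        calc (fac (α + γ) : ℝ) * (‖P.coeff γ‖ * ‖MvPowerSeries.coeff α v‖) ^ 2
            ≤ (2 ^ (α.degree + γ.degree) * fac α * fac γ) *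
              (‖P.coeff γ‖ ^ 2 * (C * ρ ^ α.degree / (fac α : ℝ)) ^ 2) := by
              apply mul_le_mul h2 h3 (by positivity) (by positivity)
          _ = (2 : ℝ) ^ γ.degree * fac γ * ‖P.coeff γ‖ ^ 2 * C ^ 2 *
              ((2 * ρ ^ 2) ^ α.degree / (fac α : ℝ)) := by
              rw [pow_add, mul_pow, ← pow_mul, mul_comm 2 α.degree, pow_mul]
              field_simp
      · intro β hβ
        have : ¬ γ ≤ β := by
          intro hle
          apply hβ
          exact ⟨β - γ, by simp [tsub_add_cancel_of_le hle]⟩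
        rw [sh, if_neg this]
        simp
    have h2 := (summable_sum hγ).mul_left (P.support.card : ℝ)
    refine Summable.of_nonneg_of_le (fun β => by positivity) (fun β => ?_) h2
    have h3 : A β ^ 2 ≤ P.support.card * ∑ γ ∈ P.support, (‖P.coeff γ‖ * ‖sh v γ β‖) ^ 2 :=
      sq_sum_le_card_mul_sum_sq
    calc (fac β : ℝ) * A β ^ 2
        ≤ (fac β : ℝ) * (P.support.card * ∑ γ ∈ P.support, (‖P.coeff γ‖ * ‖sh v γ β‖) ^ 2) :=
          mul_le_mul_of_nonneg_left h3 (by positivity)
      _ = _ := by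
          rw [Finset.mul_sum, Finset.mul_sum, Finset.mul_sum]
          apply Finset.sum_congr rfl
          intro γ _
          ring
  -- the limit
  have hlim : Filter.Tendsto (fun s => ∑' β, coeff β (P * p s) * ((fac β : ℂ) *
      (starRingEnd ℂ) (MvPowerSeries.coeff β w))) Filter.atTop
      (nhds (∑' β, MvPowerSeries.coeff β w * ((fac β : ℂ) *
      (starRingEnd ℂ) (MvPowerSeries.coeff β w)))) := by
    refine tendsto_tsum_of_dominated_convergence hsum (fun β => ?_)
      (Filter.Eventually.of_forall fun s β => ?_)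
    · refine tendsto_nhds_of_eventually_eq ?_
      filter_upwards [Filter.eventually_ge_atTop (Finset.Iic β)] with s hs
      congr 1
      rw [coeff_mul_poly, hw, coeff_mul_series]
      apply Finset.sum_congr rfl
      intro γ _
      congr 1
      unfold sh
      split_ifs with h1
      · rw [MvPolynomial.coeff_coe, hp, if_pos]
        apply hs
        rw [Finset.mem_Iic]
        exact tsub_le_self
      · rfl
    · rw [norm_mul, norm_mul, RCLike.norm_conj, Complex.norm_natCast]
      have e1 := hA2 s β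
      have e2 := hA1 β
      have e3 := hA0 β
      calc ‖coeff β (P * p s)‖ * ((fac β : ℝ) * ‖MvPowerSeries.coeff β w‖)
          ≤ A β * ((fac β : ℝ) * A β) := by gcongr
        _ = (fac β : ℝ) * A β ^ 2 := by ring
  have h0 : ∀ s, ∑' β, coeff β (P * p s) * ((fac β : ℂ) *
      (starRingEnd ℂ) (MvPowerSeries.coeff β w)) = 0 := by
    intro s
    rw [← Bp_eq_tsum]
    exact h (p s)
  simp only [h0] at hlim
  have h1 := tendsto_nhds_unique hlim tendsto_const_nhds
  have h2 : (fun β => MvPowerSeries.coeff β w * ((fac β : ℂ) *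
      (starRingEnd ℂ) (MvPowerSeries.coeff β w)))
      = fun β => (((fac β : ℝ) * ‖MvPowerSeries.coeff β w‖ ^ 2 : ℝ) : ℂ) := by
    funext β
    have := Complex.mul_conj (MvPowerSeries.coeff β w)
    rw [Complex.normSq_eq_norm_sq] at this
    push_cast at this ⊢
    linear_combination (fac β : ℂ) * this
  rw [h2, ← Complex.ofReal_tsum] at h1
  have h3 : ∑' β, (fac β : ℝ) * ‖MvPowerSeries.coeff β w‖ ^ 2 = 0 := by exact_mod_cast h1
  have h4 : Summable (fun β => (fac β : ℝ) * ‖MvPowerSeries.coeff β w‖ ^ 2) := by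
    refine Summable.of_nonneg_of_le (fun β => by positivity) (fun β => ?_) hsum
    have := hA1 β
    gcongr
  ext β
  rw [map_zero]
  have h5 := (hasSum_zero_iff_of_nonneg (fun β => by positivity)).mp (h3 ▸ h4.hasSum)
  have h6 := congrFun h5 β
  simp only [Pi.zero_apply, mul_eq_zero, Nat.cast_eq_zero, (fac_pos β).ne', false_or] at h6
  simpa using h6

/-- **Fock space lemma.** -/
theorem fock {P : MvPolynomial (Fin n) ℂ} (hP : P ≠ 0) (l : MvPolynomial (Fin n) ℂ →ₗ[ℂ] ℂ)
    (C ρ : ℝ) (hC : 0 ≤ C) (hρ : 0 ≤ ρ)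
    (hb : ∀ α : Fin n →₀ ℕ, ‖l (monomial α 1)‖ ≤ C * ρ ^ α.degree)
    (h : ∀ p, l (TP P p) = 0) (p : MvPolynomial (Fin n) ℂ) : l p = 0 := by
  let v : MvPowerSeries (Fin n) ℂ := fun α =>
    (starRingEnd ℂ) (l (monomial α 1)) / (fac α : ℂ)
  have hv : ∀ α, MvPowerSeries.coeff α v = (starRingEnd ℂ) (l (monomial α 1)) / (fac α : ℂ) :=
    fun α => rfl
  have hfac : ∀ α : Fin n →₀ ℕ, (fac α : ℂ) ≠ 0 := fun α => by
    exact_mod_cast (fac_pos α).ne'
  have hl : l = Bp v := by
    apply lin_ext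
    intro α a
    rw [Bp_monomial, hv]
    have h1 : monomial α a = a • (monomial α 1 : MvPolynomial (Fin n) ℂ) := by
      rw [smul_monomial, smul_eq_mul, mul_one]
    rw [h1, map_smul, smul_eq_mul, map_div₀, Complex.conj_conj]
    congr 1
    have : (starRingEnd ℂ) (fac α : ℂ) = (fac α : ℂ) := by simp
    rw [this]
    field_simp [hfac α]
  have h1 : ∀ q, Bp ((P : MvPowerSeries (Fin n) ℂ) * v) (P * q) = 0 := by
    intro q
    rw [← Bp_Dop, ← hl]
    exact h q
  have h2 := fock_series P v C ρ hC hρ (fun α => by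
    rw [hv, norm_div, RCLike.norm_conj, Complex.norm_natCast]
    exact div_le_div_of_nonneg_right (hb α) (by positivity)) h1
  have h3 : v = 0 := by
    rcases mul_eq_zero.mp h2 with h4 | h4
    · exact absurd (MvPolynomial.coe_injective _ _ (by rw [h4]; simp)) hP
    · exact h4
  rw [hl, h3]
  have : Bp (0 : MvPowerSeries (Fin n) ℂ) = 0 := by
    apply lin_ext
    intro α a
    rw [Bp_monomial]
    simp
  rw [this]; rfl

end Pool.Agent.H60
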