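import Pool.Agent.H60.Final
import Pool.Agent.H60.Exist

set_option autoImplicit false

open MeasureTheory Complex MvPolynomial
open scoped ContDiff Topology

noncomputable section

namespace Pool.Agent.H60

variable {n : ℕ}

lemma foldr_replicate_iterate {α β : Type*} (F : α → β → β) (k : ℕ) (j : α) (h : β) :
    (List.replicate k j).foldr F h = (F j)^[k] h := by
  induction k with
  | zero => rfl
  | succ k ih => rw [List.replicate_succ, List.foldr_cons, ih, Function.iterate_succ_apply']

lemma foldr_flatMap_nested {α β γ : Type*} (F : α → β → β) (g : γ → List α) (L : List γ) (h : β) :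
    (L.flatMap g).foldr F h = L.foldr (fun j h => (g j).foldr F h) h := by
  induction L with
  | nil => rfl
  | cons a L ih => rw [List.flatMap_cons, List.foldr_append, ih, List.foldr_cons]

lemma pdL_Lst (m : Fin n →₀ ℕ) (f : V n → ℂ) :
    pdL (Lst m) f = (List.finRange n).foldr
      (fun (j : Fin n) (g : (Fin n → ℂ) → ℂ) =>
        (fun h : (Fin n → ℂ) → ℂ => fun w : Fin n → ℂ =>
          fderiv ℂ h w (Pi.single j (1 : ℂ) : Fin n → ℂ))^[m j] g) f := by
  unfold pdL Lst
  rw [foldr_flatMap_nested]
  congr 1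
  funext j h
  rw [foldr_replicate_iterate]
  rfl

/-- The operator of the problem. -/
lemma Tf_eq (P : MvPolynomial (Fin n) ℂ) :
    Tf P = (fun f : (Fin n → ℂ) → ℂ => fun z : Fin n → ℂ =>
        ∑ m ∈ P.support, (starRingEnd ℂ) (P.coeff m) *
          ((List.finRange n).foldr
            (fun (j : Fin n) (g : (Fin n → ℂ) → ℂ) =>
              (fun h : (Fin n → ℂ) → ℂ => fun w : Fin n → ℂ =>
                fderiv ℂ h w (Pi.single j (1 : ℂ) : Fin n → ℂ))^[m j] g)
            (fun w : Fin n → ℂ => MvPolynomial.eval w P * f w)) z) := by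
  funext f z
  unfold Tf
  apply Finset.sum_congr rfl
  intro m _
  rw [pdL_Lst]
  rfl

lemma bij_const {P : MvPolynomial (Fin n) ℂ} (hP : P ≠ 0) (h0 : P.totalDegree = 0) :
    Set.BijOn (Tf P) {f | Differentiable ℂ f} {f | Differentiable ℂ f} := by
  obtain ⟨c, hc⟩ : ∃ c : ℂ, P = C c := ⟨_, totalDegree_eq_zero_iff_eq_C.mp h0⟩
  have hc0 : c ≠ 0 := by
    rintro rfl
    exact hP (by rw [hc]; simp)
  have hT : ∀ f, Tf P f = fun z => (starRingEnd ℂ) c * (c * f z) := by
    intro f
    funext z
    unfold Tf
    rw [hc]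
    have hs : (C c : MvPolynomial (Fin n) ℂ).support = {0} := by
      classical
      rw [C_apply, support_monomial, if_neg hc0]
    rw [hs, Finset.sum_singleton, coeff_zero_C]
    have hL : Lst (0 : Fin n →₀ ℕ) = [] := by
      have := length_Lst (0 : Fin n →₀ ℕ)
      rw [map_zero] at this
      exact List.length_eq_zero_iff.mp this
    rw [hL]
    simp [pdL, ev]
  have hcc : (starRingEnd ℂ) c ≠ 0 := by simpa using hc0
  refine ⟨fun f hf => differentiable_Tf P hf, ?_, ?_⟩
  · intro f _ g _ hfg
    rw [hT, hT] at hfg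
    funext z
    have h1 := congrFun hfg z
    exact mul_left_cancel₀ hc0 (mul_left_cancel₀ hcc h1)
  · intro g hg
    have hg' : Differentiable ℂ g := hg
    refine ⟨fun z => c⁻¹ * ((starRingEnd ℂ) c)⁻¹ * g z, hg'.const_mul _, ?_⟩
    rw [hT]
    funext z
    field_simp

/-- **Bijectivity for polynomials with a leading form without critical points.** -/
theorem bij_generic {P : MvPolynomial (Fin n) ℂ} (hP : P ≠ 0)
    (hQ : P.totalDegree = 0 ∨ ∀ z : V n, z ≠ 0 → ∃ j, ev (pderiv j (lead P)) z ≠ 0) :
    Set.BijOn (Tf P) {f | Differentiable ℂ f} {f | Differentiable ℂ f} := by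
  rcases Nat.eq_zero_or_pos P.totalDegree with h0 | h0
  · exact bij_const hP h0
  · rcases hQ with h | h
    · exact bij_const hP h
    · exact bij_of_goodEst hP (goodEst_of_adapted h0 (adapted_exists h))

end Pool.Agent.H60
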