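import Mathlib

set_option autoImplicit false

open scoped ContDiff Topology

noncomputable section

namespace Pool.Agent.H60

variable {X : Type*} [NormedAddCommGroup X] [NormedSpace ℝ X] [CompleteSpace X]

lemma inv_of_mul {f : X × ℂ → ℂ} {u : X × ℂ} {c : ℂ} (hc : c ≠ 0)
    (h : ∀ s, fderiv ℝ f u (0, s) = c * s) :
    (fderiv ℝ f u ∘L .inr ℝ X ℂ).IsInvertible := by
  refine ContinuousLinearMap.IsInvertible.of_inverse (g := ContinuousLinearMap.mul ℝ ℂ c⁻¹) ?_ ?_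
  · apply ContinuousLinearMap.ext
    intro s
    simp [h, hc]
  · apply ContinuousLinearMap.ext
    intro s
    simp [h, hc]

/-- local uniqueness of small roots -/
def Uni (f : X × ℂ → ℂ) (ρ : ℝ) (y : X) : Prop :=
  ∀ s1 s2 : ℂ, ‖s1‖ < ρ → ‖s2‖ < ρ → f (y, s1) = 0 → f (y, s2) = 0 → s1 = s2

/-- **Smooth small roots along a compact set.** -/
theorem glue {f g : X × ℂ → ℂ} (hf : ContDiff ℝ ∞ f) (hg : Continuous g)
    (hfg : ∀ u s, fderiv ℝ f u (0, s) = g u * s) {K : Set X} (hK : IsCompact K)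
    (h0 : ∀ x ∈ K, f (x, 0) = 0) (hg0 : ∀ x ∈ K, g (x, 0) ≠ 0) :
    ∃ τ : X → ℂ, ∀ x ∈ K, ∀ᶠ y in 𝓝 x, f (y, τ y) = 0 ∧ ContDiffAt ℝ ∞ τ y ∧
      (f (y, 0) = 0 → τ y = 0) := by
  classical
  have hinf : (∞ : ℕ∞ω) ≠ 0 := by simp
  -- uniform uniqueness
  have hU : ∃ ρ : ℝ, 0 < ρ ∧ ∀ x ∈ K, ∀ᶠ y in 𝓝 x, Uni f ρ y := by
    refine hK.induction_on (p := fun s => ∃ ρ : ℝ, 0 < ρ ∧ ∀ x ∈ s, ∀ᶠ y in 𝓝 x, Uni f ρ y)
      ⟨1, one_pos, by simp⟩ ?_ ?_ ?_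
    · rintro s t hst ⟨ρ, hρ, h⟩
      exact ⟨ρ, hρ, fun x hx => h x (hst hx)⟩
    · rintro s t ⟨ρ1, hρ1, h1⟩ ⟨ρ2, hρ2, h2⟩
      refine ⟨min ρ1 ρ2, lt_min hρ1 hρ2, ?_⟩
      rintro x (hx | hx)
      · filter_upwards [h1 x hx] with y hy s1 s2 hs1 hs2
        exact hy s1 s2 (hs1.trans_le (min_le_left _ _)) (hs2.trans_le (min_le_left _ _))
      · filter_upwards [h2 x hx] with y hy s1 s2 hs1 hs2
        exact hy s1 s2 (hs1.trans_le (min_le_right _ _)) (hs2.trans_le (min_le_right _ _))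
    · intro x hx
      have hinv := inv_of_mul (f := f) (u := (x, 0)) (hg0 x hx) (hfg (x, 0))
      have hcd : ContDiffAt ℝ ∞ f (x, 0) := hf.contDiffAt
      have hev := hcd.eventually_apply_eq_iff_implicitFunction hinf hinv
      rw [nhds_prod_eq, Filter.eventually_prod_iff] at hev
      obtain ⟨pa, ha, pb, hb, hab⟩ := hev
      obtain ⟨ρ, hρ, hρ'⟩ := Metric.eventually_nhds_iff.mp hb
      obtain ⟨U, hUpa, hUo, hxU⟩ := eventually_nhds_iff.mp ha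
      refine ⟨U, mem_nhdsWithin_of_mem_nhds (hUo.mem_nhds hxU), ρ, hρ, fun y hy => ?_⟩
      filter_upwards [hUo.mem_nhds hy] with z hz s1 s2 hs1 hs2 hf1 hf2
      have e1 := (hab (hUpa z hz) (hρ' (y := s1) (by simpa using hs1))).mp
        (by rw [hf1, h0 x hx])
      have e2 := (hab (hUpa z hz) (hρ' (y := s2) (by simpa using hs2))).mp
        (by rw [hf2, h0 x hx])
      simp only at e1 e2
      rw [← e1, ← e2]
  obtain ⟨ρ, hρ, hU⟩ := hU
  let τ : X → ℂ := fun y => if h : ∃ s : ℂ, ‖s‖ < ρ ∧ f (y, s) = 0 then h.choose else 0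
  have hτ : ∀ y s, Uni f ρ y → ‖s‖ < ρ → f (y, s) = 0 → τ y = s := by
    intro y s hu hs hfs
    have h : ∃ s : ℂ, ‖s‖ < ρ ∧ f (y, s) = 0 := ⟨s, hs, hfs⟩
    have e : τ y = h.choose := by
      simp only [τ]
      rw [dif_pos h]
    rw [e]
    exact hu _ _ h.choose_spec.1 hs h.choose_spec.2 hfs
  -- local structure
  have hloc : ∀ (y0 : X) (s0 : ℂ), (∀ᶠ y in 𝓝 y0, Uni f ρ y) → ‖s0‖ < ρ → f (y0, s0) = 0 →
      g (y0, s0) ≠ 0 → ContDiffAt ℝ ∞ τ y0 ∧ τ y0 = s0 ∧ ∀ᶠ y in 𝓝 y0, f (y, τ y) = 0 := by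
    intro y0 s0 hu hs0 hfs0 hgs0
    have hinv := inv_of_mul (f := f) (u := (y0, s0)) hgs0 (hfg (y0, s0))
    have hcd : ContDiffAt ℝ ∞ f (y0, s0) := hf.contDiffAt
    have hev := hcd.eventually_apply_implicitFunction hinf hinv
    have hsm := hcd.contDiffAt_implicitFunction hinf hinv
    have hself := hcd.implicitFunction_apply_self hinf hinv
    set ψ := hcd.implicitFunction hinf hinv
    simp only at hev hsm hself
    have hcont : ContinuousAt ψ y0 := hsm.continuousAt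
    have hsmall : ∀ᶠ y in 𝓝 y0, ‖ψ y‖ < ρ := by
      have h1 : Filter.Tendsto (fun y => ‖ψ y‖) (𝓝 y0) (𝓝 ‖s0‖) := by
        rw [← hself]
        exact hcont.norm
      exact h1.eventually (gt_mem_nhds hs0)
    have heq : τ =ᶠ[𝓝 y0] ψ := by
      filter_upwards [hu, hev, hsmall] with y h1 h2 h3
      exact hτ y _ h1 h3 (by rw [h2, hfs0])
    refine ⟨hsm.congr_of_eventuallyEq heq, by rw [heq.eq_of_nhds, hself], ?_⟩
    filter_upwards [heq, hev] with y h1 h2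
    rw [h1, h2, hfs0]
  refine ⟨τ, fun x hx => ?_⟩
  obtain ⟨h1, h2, h3⟩ := hloc x 0 (hU x hx) (by simpa using hρ) (h0 x hx) (hg0 x hx)
  have hc : ContinuousAt τ x := h1.continuousAt
  have h4 : ∀ᶠ y in 𝓝 x, ‖τ y‖ < ρ := by
    have h5 : Filter.Tendsto (fun y => ‖τ y‖) (𝓝 x) (𝓝 ‖(0 : ℂ)‖) := by
      rw [← h2]
      exact hc.norm
    exact h5.eventually (gt_mem_nhds (by simpa using hρ))
  have h5 : ∀ᶠ y in 𝓝 x, g (y, τ y) ≠ 0 := by
    have h6 : ContinuousAt (fun y => g (y, τ y)) x :=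
      hg.continuousAt.comp (continuousAt_id.prodMk hc)
    have h7 : g (x, τ x) ≠ 0 := by rw [h2]; exact hg0 x hx
    exact h6.eventually_ne h7
  filter_upwards [eventually_eventually_nhds.mpr (hU x hx), h3, h4, h5] with y e1 e2 e3 e4
  refine ⟨e2, (hloc y (τ y) e1 e3 e2 e4).1, fun h => ?_⟩
  exact hτ y 0 e1.self_of_nhds (by simpa using hρ) h

end Pool.Agent.H60
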