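import Pool.Agent.H60.Garding
import Pool.Agent.H60.Cpt
import Pool.Agent.H60.Fock2
import Pool.Agent.H60.FA2

set_option autoImplicit false

open MeasureTheory Complex MvPolynomial
open scoped ContDiff ENNReal NNReal

noncomputable section

namespace Pool.Agent.H60

variable {n : ℕ}

/-- polynomials as elements of `L²(μ)` -/
def Jm (μ : Measure (V n)) (hμ : ∀ F : MvPolynomial (Fin n) ℂ, MemLp (ev F) 2 μ) :
    MvPolynomial (Fin n) ℂ →ₗ[ℂ] Lp ℂ 2 μ where
  toFun F := (hμ F).toLp (ev F)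
  map_add' F G := by
    rw [← MemLp.toLp_add]
    congr 1
    funext z
    simp [ev_add]
  map_smul' c F := by
    rw [RingHom.id_apply, ← MemLp.toLp_const_smul]
    congr 1
    funext z
    simp [ev]

lemma coeFn_Jm (μ : Measure (V n)) (hμ : ∀ F : MvPolynomial (Fin n) ℂ, MemLp (ev F) 2 μ)
    (F : MvPolynomial (Fin n) ℂ) : Jm μ hμ F =ᵐ[μ] ev F := (hμ F).coeFn_toLp

/-- multiplication by a bounded function on `L²(μ)` -/
def Mb (μ : Measure (V n)) (b : V n → ℂ) (hb : MemLp b ∞ μ) : Lp ℂ 2 μ →L[ℂ] Lp ℂ 2 μ :=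
  (ContinuousLinearMap.mul ℂ ℂ).holderL μ ∞ 2 2 (hb.toLp b)

lemma coeFn_Mb (μ : Measure (V n)) (b : V n → ℂ) (hb : MemLp b ∞ μ) (f : Lp ℂ 2 μ) :
    Mb μ b hb f =ᵐ[μ] fun z => b z * f z := by
  have h1 := (ContinuousLinearMap.mul ℂ ℂ).coeFn_holder (r := 2) (hb.toLp b) f
  have h2 := hb.coeFn_toLp
  filter_upwards [h1, h2] with z h1 h2
  have h3 : Mb μ b hb f = (ContinuousLinearMap.mul ℂ ℂ).holder 2 (hb.toLp b) f := rfl
  rw [h3, h1, h2]
  rfl

/-- the density as a nonnegative real -/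
def dens (P : MvPolynomial (Fin n) ℂ) (r : V n → ℝ) (z : V n) : ℝ≥0 := Real.toNNReal (rho P r z)

/-- the weighted measure -/
def mu (P : MvPolynomial (Fin n) ℂ) (r : V n → ℝ) : Measure (V n) :=
  volume.withDensity fun z => (dens P r z : ℝ≥0∞)

section
variable {P : MvPolynomial (Fin n) ℂ} {r : V n → ℝ}

lemma measurable_dens (hr : ContDiff ℝ ∞ r) : Measurable (dens P r) :=
  ((continuous_rho P hr).measurable).real_toNNReal

lemma coe_dens (z : V n) : ((dens P r z : ℝ≥0) : ℝ) = rho P r z :=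
  Real.coe_toNNReal _ (rho_nonneg P r z)

lemma integral_mu (hr : ContDiff ℝ ∞ r) {E : Type*} [NormedAddCommGroup E] [NormedSpace ℝ E]
    (g : V n → E) : ∫ z, g z ∂(mu P r) = ∫ z, rho P r z • g z := by
  unfold mu
  rw [integral_withDensity_eq_integral_smul (measurable_dens hr)]
  refine integral_congr_ae (Filter.Eventually.of_forall fun z => ?_)
  simp only [NNReal.smul_def, coe_dens]

lemma integrable_mu (hr : ContDiff ℝ ∞ r) {E : Type*} [NormedAddCommGroup E] [NormedSpace ℝ E]
    {g : V n → E} : Integrable g (mu P r) ↔ Integrable (fun z => rho P r z • g z) := by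
  unfold mu
  rw [integrable_withDensity_iff_integrable_smul (measurable_dens hr)]
  have : (fun z => dens P r z • g z) = fun z => rho P r z • g z := by
    funext z
    simp only [NNReal.smul_def, coe_dens]
  rw [this]

lemma rho_eq_zero {z : V n} (hz : r z ≤ 0) : rho P r z = 0 := by
  unfold rho
  rw [max_eq_right hz]
  simp

lemma integrable_rho_mul (hr : ContDiff ℝ ∞ r) (hK : CptPos r) {E : Type*}
    [NormedAddCommGroup E] [NormedSpace ℝ E] {g : V n → E} (hg : Continuous g) :
    Integrable (fun z => rho P r z • g z) := by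
  refine ((continuous_rho P hr).smul hg).integrable_of_hasCompactSupport ?_
  obtain ⟨K, hK, hK'⟩ := hK
  refine HasCompactSupport.of_support_subset_isCompact hK ?_
  intro z hz
  by_contra hzK
  have : ¬ 0 < r z := fun h => hzK (hK' z h)
  apply hz
  show rho P r z • g z = 0
  rw [rho_eq_zero (not_lt.mp this), zero_smul]

lemma memLp_ev (hr : ContDiff ℝ ∞ r) (hK : CptPos r) {g : V n → ℂ} (hg : Continuous g) :
    MemLp g 2 (mu P r) := by
  rw [memLp_two_iff_integrable_sq_norm hg.aestronglyMeasurable, integrable_mu hr]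
  exact integrable_rho_mul hr hK (hg.norm.pow 2)

lemma integral_norm_sq (hr : ContDiff ℝ ∞ r) (hK : CptPos r) (F : MvPolynomial (Fin n) ℂ) :
    ∫ z, ‖ev F z‖ ^ 2 ∂(mu P r) = S r 1 (ev (P * F)) + S r 2 (ev F) := by
  rw [integral_mu hr]
  unfold S
  rw [← integral_add (integrable_S hr hK 1 (by omega) (continuous_ev _))
    (integrable_S hr hK 2 (by omega) (continuous_ev _))]
  refine integral_congr_ae (Filter.Eventually.of_forall fun z => ?_)
  simp only [rho, smul_eq_mul, ev_mul, norm_mul]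
  ring

lemma norm_Jm_sq (hr : ContDiff ℝ ∞ r) (hK : CptPos r) (F : MvPolynomial (Fin n) ℂ) :
    ‖Jm (mu P r) (fun F => memLp_ev hr hK (continuous_ev F)) F‖ ^ 2
      = S r 1 (ev (P * F)) + S r 2 (ev F) := by
  rw [← integral_norm_sq hr hK F]
  have h1 := @inner_self_eq_norm_sq_to_K ℂ _ _ _ _
    (Jm (mu P r) (fun F => memLp_ev hr hK (continuous_ev F)) F)
  rw [L2.inner_def] at h1
  have h2 : ∫ z, inner ℂ (Jm (mu P r) (fun F => memLp_ev hr hK (continuous_ev F)) F z)
      (Jm (mu P r) (fun F => memLp_ev hr hK (continuous_ev F)) F z) ∂(mu P r)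
      = ((∫ z, ‖ev F z‖ ^ 2 ∂(mu P r) : ℝ) : ℂ) := by
    rw [← integral_complex_ofReal]
    refine integral_congr_ae ?_
    filter_upwards [coeFn_Jm (mu P r) (fun F => memLp_ev hr hK (continuous_ev F)) F] with z hz
    rw [hz, inner_self_eq_norm_sq_to_K]
    norm_cast
  rw [h2] at h1
  have h3 := congrArg Complex.re h1
  rw [Complex.ofReal_re] at h3
  rw [h3]
  norm_cast

end

end Pool.Agent.H60
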