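import Pool.Agent.H60.L2

set_option autoImplicit false

open MeasureTheory Complex MvPolynomial
open scoped ContDiff ENNReal NNReal

noncomputable section

namespace Pool.Agent.H60

variable {n : ℕ} {P : MvPolynomial (Fin n) ℂ} {r : V n → ℝ}

lemma inner_Mb (hr : ContDiff ℝ ∞ r) (hK : CptPos r)
    {b g : V n → ℂ} (hb : MemLp b ∞ (mu P r)) (hbg : ∀ z, (rho P r z : ℂ) * b z = g z)
    (F H : MvPolynomial (Fin n) ℂ) :
    inner ℂ (Jm (mu P r) (fun F => memLp_ev hr hK (continuous_ev F)) H)
      (Mb (mu P r) b hb (Jm (mu P r) (fun F => memLp_ev hr hK (continuous_ev F)) F))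
      = ∫ z, (ev F z * cj (ev H) z) * g z := by
  rw [L2.inner_def]
  have h1 : ∫ z, inner ℂ (Jm (mu P r) (fun F => memLp_ev hr hK (continuous_ev F)) H z)
      (Mb (mu P r) b hb (Jm (mu P r) (fun F => memLp_ev hr hK (continuous_ev F)) F) z)
        ∂(mu P r)
      = ∫ z, b z * (ev F z * cj (ev H) z) ∂(mu P r) := by
    refine integral_congr_ae ?_
    filter_upwards [coeFn_Jm (mu P r) (fun F => memLp_ev hr hK (continuous_ev F)) F,
      coeFn_Jm (mu P r) (fun F => memLp_ev hr hK (continuous_ev F)) H,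
      coeFn_Mb (mu P r) b hb (Jm (mu P r) (fun F => memLp_ev hr hK (continuous_ev F)) F)]
      with z h1 h2 h3
    rw [h2, h3, h1, RCLike.inner_apply, cj]
    ring
  rw [h1, integral_mu hr]
  refine integral_congr_ae (Filter.Eventually.of_forall fun z => ?_)
  simp only [Complex.real_smul]
  rw [← hbg z]
  ring

/-- bound for norms of polynomials -/
lemma norm_Jm_le (hr : ContDiff ℝ ∞ r) (hK : CptPos r) (G : MvPolynomial (Fin n) ℂ) {s : ℝ}
    (hs : 0 ≤ s) (hG : ∀ z, 0 < r z → ‖ev G z‖ ≤ s) :
    ‖Jm (mu P r) (fun F => memLp_ev hr hK (continuous_ev F)) G‖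
      ≤ Real.sqrt (∫ z, rho P r z) * s := by
  have hI : 0 ≤ ∫ z, rho P r z := integral_nonneg fun z => rho_nonneg P r z
  have h1 := norm_Jm_sq (P := P) hr hK G
  rw [← integral_norm_sq hr hK G, integral_mu hr] at h1
  have h2 : ∫ z, rho P r z • ‖ev G z‖ ^ 2 ≤ ∫ z, rho P r z * s ^ 2 := by
    have i1 : Integrable (fun z => rho P r z • ‖ev G z‖ ^ 2) :=
      integrable_rho_mul hr hK ((continuous_ev G).norm.pow 2)
    have i2 : Integrable (fun z => rho P r z * s ^ 2) := by
      have := integrable_rho_mul (P := P) hr hK (g := fun _ : V n => s ^ 2) continuous_const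
      simpa using this
    refine integral_mono i1 i2 fun z => ?_
    simp only [smul_eq_mul]
    rcases le_or_gt (r z) 0 with hz | hz
    · rw [rho_eq_zero hz]; simp
    · apply mul_le_mul_of_nonneg_left _ (rho_nonneg P r z)
      exact pow_le_pow_left₀ (norm_nonneg _) (hG z hz) 2
  rw [integral_mul_const] at h2
  have h3 : ‖Jm (mu P r) (fun F => memLp_ev hr hK (continuous_ev F)) G‖ ^ 2
      ≤ (Real.sqrt (∫ z, rho P r z) * s) ^ 2 := by
    rw [mul_pow, Real.sq_sqrt hI, h1]
    exact h2
  exact le_of_sq_le_sq h3 (by positivity)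

/-- representation of point evaluations -/
lemma exists_eval (hr : ContDiff ℝ ∞ r) (hK : CptPos r) {δ : ℝ} (hδ : 0 < δ) (p : V n)
    (hp : δ ≤ r p) :
    ∃ e : Lp ℂ 2 (mu P r), ∀ F : MvPolynomial (Fin n) ℂ,
      inner ℂ e (Jm (mu P r) (fun F => memLp_ev hr hK (continuous_ev F)) F) = ev F p := by
  obtain ⟨ρ, hρ, hρ'⟩ := exists_ball hr hδ hp
  have hball : ∀ z ∈ Metric.ball p ρ, δ / 2 ≤ r z := fun z hz =>
    hρ' z (Metric.ball_subset_ball (by linarith) hz)
  set v := volume.real (Metric.ball p ρ) with hv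
  have hv0 : 0 < v := vol_ball_pos p hρ
  have hrho : ∀ z ∈ Metric.ball p ρ, (δ / 2) ^ 2 ≤ rho P r z := by
    intro z hz
    have h1 := hball z hz
    unfold rho
    have h2 : (δ / 2) ^ 2 ≤ (max (r z) 0) ^ 2 :=
      pow_le_pow_left₀ (by positivity) (h1.trans (le_max_left _ _)) 2
    have h3 : 0 ≤ (max (r z) 0) ^ 1 * ‖ev P z‖ ^ 2 := by positivity
    linarith
  let f : V n → ℂ := fun z => Set.indicator (Metric.ball p ρ)
    (fun z => (((v * rho P r z)⁻¹ : ℝ) : ℂ)) z
  have hfm : Measurable f := by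
    apply Measurable.indicator _ measurableSet_ball
    exact Complex.measurable_ofReal.comp
      ((measurable_const.mul (continuous_rho P hr).measurable).inv)
  have hfb : ∀ z, ‖f z‖ ≤ (v * (δ / 2) ^ 2)⁻¹ := by
    intro z
    simp only [f]
    by_cases hz : z ∈ Metric.ball p ρ
    · rw [Set.indicator_of_mem hz, Complex.norm_real, Real.norm_eq_abs, abs_of_nonneg
        (inv_nonneg.mpr (mul_nonneg hv0.le (rho_nonneg P r z)))]
      apply inv_anti₀ (by positivity)
      exact mul_le_mul_of_nonneg_left (hrho z hz) hv0.le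
    · rw [Set.indicator_of_notMem hz, norm_zero]
      positivity
  have hfin : IsFiniteMeasure (mu P r) := by
    have h1 : Integrable (fun _ : V n => (1 : ℝ)) (mu P r) := by
      rw [integrable_mu hr]
      exact integrable_rho_mul hr hK continuous_const
    exact (integrable_const_iff_isFiniteMeasure one_ne_zero).mp h1
  have hfL : MemLp f 2 (mu P r) :=
    MemLp.of_bound hfm.aestronglyMeasurable _ (Filter.Eventually.of_forall hfb)
  refine ⟨hfL.toLp f, fun F => ?_⟩
  rw [L2.inner_def]
  have h1 : ∫ z, inner ℂ (hfL.toLp f z)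
      (Jm (mu P r) (fun F => memLp_ev hr hK (continuous_ev F)) F z) ∂(mu P r)
      = ∫ z, (starRingEnd ℂ) (f z) * ev F z ∂(mu P r) := by
    refine integral_congr_ae ?_
    filter_upwards [coeFn_Jm (mu P r) (fun F => memLp_ev hr hK (continuous_ev F)) F,
      hfL.coeFn_toLp] with z h1 h2
    rw [h2, h1, RCLike.inner_apply]
    ring
  rw [h1, integral_mu hr]
  have h2 : (fun z => rho P r z • ((starRingEnd ℂ) (f z) * ev F z))
      = Set.indicator (Metric.ball p ρ) (fun z => ((v⁻¹ : ℝ) : ℂ) * ev F z) := by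
    funext z
    by_cases hz : z ∈ Metric.ball p ρ
    · rw [Set.indicator_of_mem hz]
      simp only [f]
      rw [Set.indicator_of_mem hz, Complex.conj_ofReal, Complex.real_smul]
      have h3 : rho P r z ≠ 0 := by
        have h4 := hrho z hz
        have : 0 < (δ / 2) ^ 2 := by positivity
        linarith
      rw [← mul_assoc, ← Complex.ofReal_mul]
      congr 2
      field_simp
    · rw [Set.indicator_of_notMem hz]
      simp only [f]
      rw [Set.indicator_of_notMem hz]
      simp
  rw [h2, integral_indicator measurableSet_ball, integral_const_mul, ← mean_value, ← hv,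
    ← mul_assoc, ← Complex.ofReal_mul, inv_mul_cancel₀ hv0.ne']
  simp

end Pool.Agent.H60
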