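import Pool.Agent.H60.Loc

set_option autoImplicit false

open MeasureTheory Complex MvPolynomial
open scoped ContDiff ENNReal NNReal

noncomputable section

namespace Pool.Agent.H60

variable {n : ℕ}

/-- **Local a priori estimate** for `T_P` on a domain adapted to `P`. -/
theorem local_estimate {P : MvPolynomial (Fin n) ℂ} {r : V n → ℝ} (hm : 1 ≤ P.totalDegree)
    {δ c C : ℝ} (hA : Adapted P r δ c C) {δ0 : ℝ} (hδ0 : 0 < δ0) :
    ∃ C' : ℝ, 0 < C' ∧ ∀ (F : MvPolynomial (Fin n) ℂ) (s : ℝ), 0 ≤ s →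
      (∀ z, 0 < r z → ‖ev (TP P F) z‖ ≤ s) → ∀ q, δ0 ≤ r q → ‖ev F q‖ ≤ C' * s := by
  have hP0 : P ≠ 0 := by
    rintro rfl
    simp at hm
  have hr := hA.smooth
  have hK := hA.cpt
  obtain ⟨W, hWc, hW1, ⟨C5, hC5, hW2⟩, c2, C2, δ2, hc2, hC2, hδ2, hG⟩ := garding hA
  obtain ⟨t, Ct, hCt, htr, ht⟩ := cpt_bound hr hK hδ2 (e := c2 / (2 * C2)) (by positivity)
  obtain ⟨Cs, hCs, hCs'⟩ := sup_bound hr hK hδ0
  obtain ⟨Mr, hMr, hMr'⟩ := bddOnPos hK hr.continuous
  have hMrr : ∀ z, 0 < r z → r z ≤ Mr := fun z hz => (le_abs_self _).trans (hMr' z hz)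
  set hμ : ∀ F : MvPolynomial (Fin n) ℂ, MemLp (ev F) 2 (mu P r) :=
    fun F => memLp_ev hr hK (continuous_ev F) with hhμ
  set J := Jm (mu P r) hμ with hJ
  -- the multiplier b
  let b : V n → ℂ := fun z => ev P z * W z / (rho P r z : ℂ)
  have hbrho : ∀ z, (rho P r z : ℂ) * b z = ev P z * W z := by
    intro z
    simp only [b]
    by_cases h0 : rho P r z = 0
    · have h1 := hW2 z
      rw [h0, mul_zero] at h1
      have h2 : ev P z * W z = 0 := norm_le_zero_iff.mp h1
      rw [h2, h0]; simp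
    · have : (rho P r z : ℂ) ≠ 0 := by exact_mod_cast h0
      field_simp
  have hbm : Measurable b :=
    (((continuous_ev P).mul hWc).measurable).div
      (Complex.measurable_ofReal.comp (continuous_rho P hr).measurable)
  have hbb : ∀ z, ‖b z‖ ≤ C5 := by
    intro z
    simp only [b]
    rw [norm_div, Complex.norm_real, Real.norm_eq_abs, abs_of_nonneg (rho_nonneg P r z)]
    exact div_le_of_le_mul₀ (rho_nonneg P r z) hC5.le (hW2 z)
  have hbL : MemLp b ∞ (mu P r) :=
    memLp_top_of_bound hbm.aestronglyMeasurable C5 (Filter.Eventually.of_forall hbb)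
  -- the multiplier beta
  let be : V n → ℂ := fun z => rp r (P.totalDegree + 1) z / (rho P r z : ℂ)
  have hrpz : ∀ z, ‖rp r (P.totalDegree + 1) z‖ ≤ Mr ^ (P.totalDegree - 1) * rho P r z := by
    intro z
    rw [norm_rp]
    rcases le_or_gt (r z) 0 with hz | hz
    · rw [max_eq_right hz, zero_pow (by omega)]
      have := rho_nonneg P r z
      positivity
    · rw [max_eq_left hz.le]
      have e1 : P.totalDegree + 1 = (P.totalDegree - 1) + 2 := by omega
      have h1 : r z ^ (P.totalDegree - 1) ≤ Mr ^ (P.totalDegree - 1) :=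
        pow_le_pow_left₀ hz.le (hMrr z hz) _
      have h2 : r z ^ 2 ≤ rho P r z := by
        unfold rho
        rw [max_eq_left hz.le]
        have : 0 ≤ r z ^ 1 * ‖ev P z‖ ^ 2 := by positivity
        linarith
      rw [e1, pow_add]
      exact mul_le_mul h1 h2 (by positivity) (by positivity)
  have hberho : ∀ z, (rho P r z : ℂ) * be z = rp r (P.totalDegree + 1) z := by
    intro z
    simp only [be]
    by_cases h0 : rho P r z = 0
    · have h1 := hrpz z
      rw [h0, mul_zero] at h1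
      have h2 : rp r (P.totalDegree + 1) z = 0 := norm_le_zero_iff.mp h1
      rw [h2, h0]; simp
    · have : (rho P r z : ℂ) ≠ 0 := by exact_mod_cast h0
      field_simp
  have hbem : Measurable be :=
    ((continuous_rp hr _).measurable).div
      (Complex.measurable_ofReal.comp (continuous_rho P hr).measurable)
  have hbeb : ∀ z, ‖be z‖ ≤ Mr ^ (P.totalDegree - 1) := by
    intro z
    simp only [be]
    rw [norm_div, Complex.norm_real, Real.norm_eq_abs, abs_of_nonneg (rho_nonneg P r z)]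
    exact div_le_of_le_mul₀ (rho_nonneg P r z) (by positivity) (hrpz z)
  have hbeL : MemLp be ∞ (mu P r) :=
    memLp_top_of_bound hbem.aestronglyMeasurable _ (Filter.Eventually.of_forall hbeb)
  set M := Mb (mu P r) b hbL with hM
  set N := Mb (mu P r) be hbeL with hN
  -- inner products
  have hinM : ∀ F H, inner ℂ (J H) (M (J F)) = ∫ z, (ev (P * F) z * cj (ev H) z) * W z := by
    intro F H
    rw [hJ, hM, inner_Mb hr hK hbL hbrho F H]
    refine integral_congr_ae (Filter.Eventually.of_forall fun z => ?_)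
    simp only [ev_mul]
    ring
  have hinN : ∀ G H, inner ℂ (J H) (N (J G))
      = ∫ z, rp r (P.totalDegree + 1) z * (ev G z * cj (ev H) z) := by
    intro G H
    rw [hJ, hN, inner_Mb hr hK hbeL hberho G H]
    refine integral_congr_ae (Filter.Eventually.of_forall fun z => ?_)
    simp only
    ring
  have hMN : ∀ F H, inner ℂ (J H) (M (J F)) = inner ℂ (J H) (N (J (TP P F))) := by
    intro F H
    rw [hinM, hinN]
    exact (hW1 (P * F) H).symm
  -- the closed subspace
  set Z : Submodule ℂ (Lp ℂ 2 (mu P r)) := (LinearMap.range J).topologicalClosure with hZ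
  haveI : CompleteSpace Z := (Submodule.isClosed_topologicalClosure _).completeSpace_coe
  have hJZ : ∀ F, J F ∈ Z := fun F => Submodule.le_topologicalClosure _ ⟨F, rfl⟩
  have hdense : ∀ (p : Lp ℂ 2 (mu P r) → Prop), IsClosed {x | p x} → (∀ F, p (J F)) →
      ∀ x ∈ Z, p x := by
    intro p hp hF x hx
    have h1 : (LinearMap.range J : Set (Lp ℂ 2 (mu P r))) ⊆ {x | p x} := by
      rintro _ ⟨F, rfl⟩
      exact hF F
    have h2 := closure_minimal h1 hp
    exact h2 hx
  have hMNy : ∀ F, ∀ y ∈ Z, inner ℂ y (M (J F)) = inner ℂ y (N (J (TP P F))) := by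
    intro F
    apply hdense
    · exact isClosed_eq (by fun_prop) (by fun_prop)
    · exact fun H => hMN F H
  -- evaluations
  choose e he using fun p : t => exists_eval (P := P) hr hK hδ2 (p : V n) (htr p p.2)
  -- the lower bound
  have hlow : ∀ x ∈ Z, c2 / 2 * ‖x‖ ^ 2 ≤ (inner ℂ x (M x)).re
      + (C2 * Ct) * ∑ i, ‖inner ℂ (e i) x‖ ^ 2 := by
    apply hdense
    · exact isClosed_le (by fun_prop) (by fun_prop)
    · intro F
      have h1 := hG F
      have h2 := ht F
      rw [hinM, hJ, norm_Jm_sq hr hK F]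
      have h3 : ∑ i : t, ‖inner ℂ (e i) (Jm (mu P r) hμ F)‖ ^ 2 = ∑ p ∈ t, ‖ev F p‖ ^ 2 := by
        rw [← Finset.sum_coe_sort t (fun p => ‖ev F p‖ ^ 2)]
        apply Finset.sum_congr rfl
        intro i _
        rw [he i F]
      rw [h3]
      have h4 : C2 * Kt r δ2 (ev F) ≤ C2 * (c2 / (2 * C2) * S r 2 (ev F)
          + Ct * ∑ p ∈ t, ‖ev F p‖ ^ 2) := mul_le_mul_of_nonneg_left h2 hC2.le
      have h5 : C2 * (c2 / (2 * C2) * S r 2 (ev F) + Ct * ∑ p ∈ t, ‖ev F p‖ ^ 2)
          = c2 / 2 * S r 2 (ev F) + C2 * Ct * ∑ p ∈ t, ‖ev F p‖ ^ 2 := by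
        field_simp
      have s1 := S_nonneg r 1 (ev (P * F))
      nlinarith
  -- injectivity of the adjoint
  have hinj : ∀ y ∈ Z, (∀ x ∈ Z, inner ℂ y (M x) = 0) → y = 0 := by
    intro y hy hyx
    let l : MvPolynomial (Fin n) ℂ →ₗ[ℂ] ℂ :=
      (innerSL ℂ y : Lp ℂ 2 (mu P r) →ₗ[ℂ] ℂ) ∘ₗ (N : Lp ℂ 2 (mu P r) →ₗ[ℂ] Lp ℂ 2 (mu P r)) ∘ₗ J
    have hl : ∀ G, l G = inner ℂ y (N (J G)) := fun G => rfl
    obtain ⟨K, hKc, hK'⟩ := id hK
    obtain ⟨R0, hR0, hR0'⟩ := bddOnPos hK (continuous_id (X := V n))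
    have hmono : ∀ α : Fin n →₀ ℕ, ∀ z, 0 < r z → ‖ev (monomial α (1 : ℂ)) z‖
        ≤ R0 ^ α.degree := by
      intro α z hz
      unfold ev
      rw [eval_monomial, one_mul, Finsupp.prod_fintype _ _ (by simp), norm_prod,
        Finsupp.degree_eq_sum, ← Finset.prod_pow_eq_pow_sum]
      apply Finset.prod_le_prod (fun _ _ => norm_nonneg _)
      intro j _
      rw [norm_pow]
      exact pow_le_pow_left₀ (norm_nonneg _) ((norm_le_pi_norm z j).trans (hR0' z hz)) _
    have hl0 : ∀ G, l G = 0 := by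
      apply fock hP0 l (‖y‖ * (‖N‖ * Real.sqrt (∫ z, rho P r z))) R0 (by positivity) hR0.le
      · intro α
        rw [hl]
        have h1 : ‖inner ℂ y (N (J (monomial α 1)))‖ ≤ ‖y‖ * ‖N (J (monomial α 1))‖ :=
          norm_inner_le_norm _ _
        have h2 : ‖N (J (monomial α 1))‖ ≤ ‖N‖ * ‖J (monomial α 1)‖ := N.le_opNorm _
        have h3 : ‖J (monomial α 1)‖ ≤ Real.sqrt (∫ z, rho P r z) * R0 ^ α.degree :=
          norm_Jm_le hr hK (monomial α 1) (by positivity) (hmono α)
        calc ‖inner ℂ y (N (J (monomial α 1)))‖ ≤ ‖y‖ * ‖N (J (monomial α 1))‖ := h1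
          _ ≤ ‖y‖ * (‖N‖ * (Real.sqrt (∫ z, rho P r z) * R0 ^ α.degree)) := by
              apply mul_le_mul_of_nonneg_left _ (norm_nonneg _)
              exact h2.trans (mul_le_mul_of_nonneg_left h3 (norm_nonneg _))
          _ = _ := by ring
      · intro F
        rw [hl, ← hMNy F y hy]
        exact hyx _ (hJZ F)
    have h1 : ∀ x ∈ Z, inner ℂ y (N x) = 0 := by
      apply hdense
      · exact isClosed_eq (by fun_prop) (by fun_prop)
      · exact fun G => hl0 G
    have h2 := h1 y hy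
    rw [L2.inner_def] at h2
    have h3 : ∫ z, inner ℂ (y z) (N y z) ∂(mu P r)
        = ((∫ z, ((max (r z) 0) ^ (P.totalDegree + 1) / rho P r z) * ‖y z‖ ^ 2 ∂(mu P r) : ℝ)
          : ℂ) := by
      rw [← integral_complex_ofReal]
      refine integral_congr_ae ?_
      filter_upwards [coeFn_Mb (mu P r) be hbeL y] with z hz
      rw [hN, hz, RCLike.inner_apply]
      have := Complex.mul_conj (y z)
      rw [Complex.normSq_eq_norm_sq] at this
      simp only [be, rp]
      push_cast at this ⊢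
      linear_combination ((max (r z) 0 : ℝ) : ℂ) ^ (P.totalDegree + 1) / (rho P r z : ℂ) * this
    rw [h3] at h2
    have h4 : ∫ z, ((max (r z) 0) ^ (P.totalDegree + 1) / rho P r z) * ‖y z‖ ^ 2 ∂(mu P r)
        = 0 := by exact_mod_cast h2
    have hy2 : MemLp (fun z => y z) 2 (mu P r) := Lp.memLp y
    have i1 : Integrable (fun z => ((max (r z) 0) ^ (P.totalDegree + 1) / rho P r z)
        * ‖y z‖ ^ 2) (mu P r) := by
      have i2 := (memLp_two_iff_integrable_sq_norm hy2.aestronglyMeasurable).mp hy2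
      refine i2.bdd_mul (c := Mr ^ (P.totalDegree - 1)) ?_ ?_
      · have hcr := hr.continuous
        have : Measurable (fun z => (max (r z) 0) ^ (P.totalDegree + 1) / rho P r z) := by
          apply Measurable.div
          · exact ((hcr.max continuous_const).pow _).measurable
          · exact (continuous_rho P hr).measurable
        exact this.aestronglyMeasurable
      · refine Filter.Eventually.of_forall fun z => ?_
        have h5 := hbeb z
        simp only [be] at h5
        rw [norm_div, norm_rp, Complex.norm_real] at h5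
        rw [norm_div, Real.norm_eq_abs, abs_of_nonneg (by positivity)]
        exact h5
    have h5 := (integral_eq_zero_iff_of_nonneg (fun z => by
      have := rho_nonneg P r z
      simp only [Pi.zero_apply]
      positivity) i1).mp h4
    have h6 : ∀ᵐ z ∂(mu P r), rho P r z ≠ 0 := by
      unfold mu
      rw [ae_withDensity_iff (measurable_dens hr).coe_nnreal_ennreal]
      refine Filter.Eventually.of_forall fun z hz h0 => ?_
      apply hz
      unfold dens
      rw [h0]
      simp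
    have h7 : y =ᵐ[mu P r] 0 := by
      filter_upwards [h5, h6] with z hz hz0
      simp only [Pi.zero_apply, mul_eq_zero, div_eq_zero_iff] at hz
      rcases hz with (hz | hz) | hz
      · exfalso
        apply hz0
        have hz' : max (r z) 0 = 0 := eq_zero_of_pow_eq_zero hz
        unfold rho
        rw [hz']
        simp
      · exact absurd hz hz0
      · simpa using hz
    exact Lp.ext (h7.trans (Lp.coeFn_zero ℂ 2 (mu P r)).symm)
  obtain ⟨C', hC', hC''⟩ := fa2 Z M e (c2 / 2) (C2 * Ct) (by positivity) hlow hinj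
  set B0 := ‖N‖ * Real.sqrt (∫ z, rho P r z) with hB0
  refine ⟨Real.sqrt Cs * (C' * (B0 + 1)), by positivity, fun F s hs hFs q hq => ?_⟩
  have h1 : ‖J F‖ ≤ C' * ((B0 + 1) * s) := by
    apply hC'' (J F) (hJZ F) ((B0 + 1) * s) (by positivity)
    intro y hy
    rw [hMNy F y hy]
    have h2 : ‖inner ℂ y (N (J (TP P F)))‖ ≤ ‖y‖ * ‖N (J (TP P F))‖ := norm_inner_le_norm _ _
    have h3 : ‖N (J (TP P F))‖ ≤ ‖N‖ * ‖J (TP P F)‖ := N.le_opNorm _
    have h4 : ‖J (TP P F)‖ ≤ Real.sqrt (∫ z, rho P r z) * s := norm_Jm_le hr hK _ hs hFs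
    have h5 : ‖N (J (TP P F))‖ ≤ B0 * s := by
      rw [hB0, mul_assoc]
      exact h3.trans (mul_le_mul_of_nonneg_left h4 (norm_nonneg _))
    calc ‖inner ℂ y (N (J (TP P F)))‖ ≤ ‖y‖ * ‖N (J (TP P F))‖ := h2
      _ ≤ ‖y‖ * ((B0 + 1) * s) := by
          apply mul_le_mul_of_nonneg_left _ (norm_nonneg _)
          nlinarith
      _ = _ := by ring
  have h2 := hCs' F q hq
  have h3 : S r 2 (ev F) ≤ ‖J F‖ ^ 2 := by
    rw [hJ, norm_Jm_sq hr hK F]
    have := S_nonneg r 1 (ev (P * F))
    linarith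
  have h4 : ‖ev F q‖ ^ 2 ≤ (Real.sqrt Cs * ‖J F‖) ^ 2 := by
    rw [mul_pow, Real.sq_sqrt hCs.le]
    exact h2.trans (mul_le_mul_of_nonneg_left h3 hCs.le)
  have h5 : ‖ev F q‖ ≤ Real.sqrt Cs * ‖J F‖ := le_of_sq_le_sq h4 (by positivity)
  calc ‖ev F q‖ ≤ Real.sqrt Cs * ‖J F‖ := h5
    _ ≤ Real.sqrt Cs * (C' * ((B0 + 1) * s)) :=
      mul_le_mul_of_nonneg_left h1 (Real.sqrt_nonneg _)
    _ = _ := by ring

end Pool.Agent.H60
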