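import Pool.Agent.H60.Div2

set_option autoImplicit false

open MeasureTheory Complex MvPolynomial
open scoped ContDiff

noncomputable section

namespace Pool.Agent.H60

variable {n : ℕ}

lemma mp_smul (om : ℂ) (hom : ‖om‖ = 1) :
    MeasurePreserving (fun w : V n => om • w) volume volume := by
  have h1 : MeasurePreserving (fun x : ℂ => om * x) volume volume := by
    let a : Circle := ⟨om, mem_sphere_zero_iff_norm.mpr hom⟩
    exact (rotation a).measurePreserving
  exact volume_preserving_pi (fun _ : Fin n => h1)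

lemma integral_monomial_ball (ρ : ℝ) (α : Fin n →₀ ℕ) (hα : α ≠ 0) :
    ∫ w in Metric.ball (0 : V n) ρ, ev (monomial α (1 : ℂ)) w = 0 := by
  have hd : α.degree ≠ 0 := by
    rwa [Ne, Finsupp.degree_eq_zero_iff]
  set d := α.degree with hd'
  let om : ℂ := Complex.exp (((Real.pi / d : ℝ) : ℂ) * I)
  have hom : ‖om‖ = 1 := Complex.norm_exp_ofReal_mul_I _
  have hom0 : om ≠ 0 := Complex.exp_ne_zero _
  have homd : om ^ d = -1 := by
    have : (d : ℂ) ≠ 0 := by exact_mod_cast hd
    simp only [om]
    rw [← Complex.exp_nat_mul, ← Complex.exp_pi_mul_I]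
    congr 1
    push_cast
    field_simp
  have h1 := (mp_smul (n := n) om hom).setIntegral_preimage_emb
    (Homeomorph.smulOfNeZero om hom0).measurableEmbedding
    (ev (monomial α (1 : ℂ))) (Metric.ball 0 ρ)
  have h2 : (fun w : V n => om • w) ⁻¹' Metric.ball 0 ρ = Metric.ball 0 ρ := by
    ext w
    simp [norm_smul, hom]
  have h3 : ∀ w : V n, ev (monomial α (1 : ℂ)) (om • w) = - ev (monomial α (1 : ℂ)) w := by
    intro w
    unfold ev
    rw [eval_monomial, eval_monomial, Finsupp.prod_fintype _ _ (by simp),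
      Finsupp.prod_fintype _ _ (by simp)]
    simp only [Pi.smul_apply, smul_eq_mul, mul_pow, Finset.prod_mul_distrib, one_mul]
    rw [Finset.prod_pow_eq_pow_sum, ← Finsupp.degree_eq_sum, ← hd', homd]
    ring
  rw [h2] at h1
  simp only [h3] at h1
  rw [integral_neg] at h1
  have h4 : (2 : ℂ) * ∫ w in Metric.ball (0 : V n) ρ, ev (monomial α (1 : ℂ)) w = 0 := by
    linear_combination -h1
  simpa using h4

lemma integrableOn_ball {f : V n → ℂ} (hf : Continuous f) (p : V n) (ρ : ℝ) :
    IntegrableOn f (Metric.ball p ρ) :=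
  (hf.continuousOn.integrableOn_compact (isCompact_closedBall p ρ)).mono_set
    Metric.ball_subset_closedBall

lemma integral_ball_zero (ρ : ℝ) (G : MvPolynomial (Fin n) ℂ) :
    ∫ w in Metric.ball (0 : V n) ρ, ev G w
      = ((volume.real (Metric.ball (0 : V n) ρ) : ℝ) : ℂ) * ev G 0 := by
  induction G using MvPolynomial.induction_on' with
  | monomial α a =>
    have h1 : ∀ w : V n, ev (monomial α a) w = a * ev (monomial α (1 : ℂ)) w := by
      intro w
      unfold ev
      rw [eval_monomial, eval_monomial, one_mul]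
    simp only [h1]
    rw [integral_const_mul]
    by_cases hα : α = 0
    · subst hα
      have : ∀ w : V n, ev (monomial 0 (1 : ℂ)) w = 1 := by
        intro w; simp [ev]
      simp only [this]
      rw [setIntegral_const, Complex.real_smul]
      ring
    · rw [integral_monomial_ball ρ α hα]
      have : ev (monomial α (1 : ℂ)) (0 : V n) = 0 := by
        unfold ev
        rw [eval_monomial, Finsupp.prod_fintype _ _ (by simp), one_mul]
        obtain ⟨j, hj⟩ := Finsupp.ne_iff.mp hα
        apply Finset.prod_eq_zero (Finset.mem_univ j)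
        simp only [Pi.zero_apply]
        exact zero_pow (by simpa using hj)
      rw [this]
      ring
  | add p q hp hq =>
    simp only [ev_add]
    rw [integral_add (integrableOn_ball (continuous_ev p) 0 ρ)
      (integrableOn_ball (continuous_ev q) 0 ρ), hp, hq]
    ring

/-- translation of a polynomial -/
def tr (p : V n) (F : MvPolynomial (Fin n) ℂ) : MvPolynomial (Fin n) ℂ :=
  bind₁ (fun j => X j + C (p j)) F

lemma ev_tr (p : V n) (F : MvPolynomial (Fin n) ℂ) (w : V n) :
    ev (tr p F) w = ev F (w + p) := by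
  unfold ev tr
  have : MvPolynomial.eval w (bind₁ (fun j => X j + C (p j)) F)
      = MvPolynomial.eval₂Hom (RingHom.id ℂ) w (bind₁ (fun j => X j + C (p j)) F) := rfl
  rw [this, eval₂Hom_bind₁]
  have h2 : (fun i => (eval₂Hom (RingHom.id ℂ) w) (X i + C (p i))) = w + p := by
    funext i; simp
  rw [h2]
  rfl

/-- The mean value property of polynomials. -/
lemma mean_value (p : V n) (ρ : ℝ) (F : MvPolynomial (Fin n) ℂ) :
    ((volume.real (Metric.ball p ρ) : ℝ) : ℂ) * ev F p = ∫ w in Metric.ball p ρ, ev F w := by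
  have h1 := (measurePreserving_add_right (volume : Measure (V n)) p).setIntegral_preimage_emb
    (Homeomorph.addRight p).measurableEmbedding (ev F) (Metric.ball p ρ)
  have h2 : (fun w : V n => w + p) ⁻¹' Metric.ball p ρ = Metric.ball 0 ρ := by
    ext w
    simp [dist_eq_norm]
  rw [h2] at h1
  rw [← h1]
  simp only [← ev_tr]
  rw [integral_ball_zero, ev_tr, zero_add]
  congr 2
  rw [← h2]
  exact ((measurePreserving_add_right (volume : Measure (V n)) p).measureReal_preimage
    measurableSet_ball.nullMeasurableSet).symm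

lemma vol_ball_pos (p : V n) {ρ : ℝ} (hρ : 0 < ρ) : 0 < volume.real (Metric.ball p ρ) := by
  rw [Measure.real, ENNReal.toReal_pos_iff]
  exact ⟨Metric.measure_ball_pos _ _ hρ, measure_ball_lt_top⟩

/-- pointwise bound by the mean of the square -/
lemma sq_le_mean (p : V n) {ρ : ℝ} (hρ : 0 < ρ) (F : MvPolynomial (Fin n) ℂ) :
    volume.real (Metric.ball p ρ) * ‖ev F p‖ ^ 2 ≤ ∫ w in Metric.ball p ρ, ‖ev F w‖ ^ 2 := by
  set v := volume.real (Metric.ball p ρ) with hv
  have hv0 := vol_ball_pos p hρ
  set t := ‖ev F p‖ with ht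
  have ht0 : 0 ≤ t := norm_nonneg _
  have h1 : v * t ≤ ∫ w in Metric.ball p ρ, ‖ev F w‖ := by
    have := congrArg norm (mean_value p ρ F)
    rw [norm_mul, Complex.norm_real, Real.norm_eq_abs, abs_of_pos hv0] at this
    rw [ht, hv, this]
    exact norm_integral_le_integral_norm _
  have i1 : IntegrableOn (fun w => ‖ev F w‖) (Metric.ball p ρ) :=
    (integrableOn_ball (continuous_ev F) p ρ).norm
  have i2 : IntegrableOn (fun w => ‖ev F w‖ ^ 2) (Metric.ball p ρ) :=
    (((continuous_ev F).norm.pow 2).continuousOn.integrableOn_compact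
      (isCompact_closedBall p ρ)).mono_set Metric.ball_subset_closedBall
  have i3 : IntegrableOn (fun _ : V n => t ^ 2) (Metric.ball p ρ) :=
    (continuousOn_const.integrableOn_compact
      (isCompact_closedBall p ρ)).mono_set Metric.ball_subset_closedBall
  have h2 : ∫ w in Metric.ball p ρ, 2 * t * ‖ev F w‖
      ≤ ∫ w in Metric.ball p ρ, (‖ev F w‖ ^ 2 + t ^ 2) := by
    refine integral_mono (i1.const_mul _) (i2.add i3) fun w => ?_
    simp only
    nlinarith [sq_nonneg (‖ev F w‖ - t)]
  rw [integral_const_mul, integral_add i2 i3, setIntegral_const, smul_eq_mul, ← hv] at h2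
  have h3 : 2 * t * (v * t) ≤ 2 * t * ∫ w in Metric.ball p ρ, ‖ev F w‖ :=
    mul_le_mul_of_nonneg_left h1 (by positivity)
  nlinarith

/-- weighted pointwise bound -/
lemma pt_bound {r : V n → ℝ} (hr : ContDiff ℝ ∞ r) (hK : CptPos r) (k : ℕ) (hk : k ≠ 0)
    {p : V n} {ρ δ : ℝ} (hρ : 0 < ρ) (hδ : 0 < δ) (hB : ∀ z ∈ Metric.ball p ρ, δ ≤ r z)
    (F : MvPolynomial (Fin n) ℂ) :
    ‖ev F p‖ ^ 2 ≤ (volume.real (Metric.ball p ρ) * δ ^ k)⁻¹ * S r k (ev F) := by
  have h1 := sq_le_mean p hρ F
  have hv0 := vol_ball_pos p hρ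
  have i2 : IntegrableOn (fun w => ‖ev F w‖ ^ 2) (Metric.ball p ρ) :=
    (((continuous_ev F).norm.pow 2).continuousOn.integrableOn_compact
      (isCompact_closedBall p ρ)).mono_set Metric.ball_subset_closedBall
  have h2 : δ ^ k * ∫ w in Metric.ball p ρ, ‖ev F w‖ ^ 2 ≤ S r k (ev F) := by
    rw [← integral_const_mul]
    have h3 : ∫ w in Metric.ball p ρ, δ ^ k * ‖ev F w‖ ^ 2
        ≤ ∫ w in Metric.ball p ρ, (max (r w) 0) ^ k * ‖ev F w‖ ^ 2 := by
      refine setIntegral_mono_on (i2.const_mul _)
        (integrable_S hr hK k hk (continuous_ev F)).integrableOn measurableSet_ball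
        fun w hw => ?_
      apply mul_le_mul_of_nonneg_right _ (by positivity)
      exact pow_le_pow_left₀ hδ.le ((hB w hw).trans (le_max_left _ _)) k
    refine h3.trans ?_
    exact setIntegral_le_integral (integrable_S hr hK k hk (continuous_ev F))
      (Filter.Eventually.of_forall fun w => by positivity)
  rw [inv_mul_eq_div, le_div_iff₀ (by positivity)]
  have h3 : δ ^ k * (volume.real (Metric.ball p ρ) * ‖ev F p‖ ^ 2)
      ≤ δ ^ k * ∫ w in Metric.ball p ρ, ‖ev F w‖ ^ 2 :=
    mul_le_mul_of_nonneg_left h1 (by positivity)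
  linarith

end Pool.Agent.H60
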