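import Pool.Agent.H60.Adj

set_option autoImplicit false

open MeasureTheory Complex MvPolynomial
open scoped ContDiff

noncomputable section

namespace Pool.Agent.H60

variable {n : ℕ}

/-- the list of indices of a multi-index -/
def Lst (m : Fin n →₀ ℕ) : List (Fin n) :=
  (List.finRange n).flatMap fun j => List.replicate (m j) j

lemma pdl_append (l1 l2 : List (Fin n)) (p : MvPolynomial (Fin n) ℂ) :
    pdl (l1 ++ l2) p = pdl l1 (pdl l2 p) := by
  simp [pdl, List.foldr_append]

lemma length_Lst (m : Fin n →₀ ℕ) : (Lst m).length = m.degree := by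
  unfold Lst
  rw [List.length_flatMap]
  simp only [List.length_replicate]
  rw [Finsupp.degree_eq_sum, ← List.ofFn_eq_map, List.sum_ofFn]

lemma prl_Lst (r : V n → ℝ) (m : Fin n →₀ ℕ) (z : V n) :
    prl r (Lst m) z = ∏ j, (- wd j (rc r) z) ^ (m j) := by
  unfold prl Lst
  rw [← List.prod_ofFn, List.ofFn_eq_map]
  generalize List.finRange n = L
  induction L with
  | nil => simp
  | cons a L ih => simp [List.flatMap_cons, ih]

/-- the constant coefficient operator `P^*(D)` on polynomials -/
def Dop (P F : MvPolynomial (Fin n) ℂ) : MvPolynomial (Fin n) ℂ :=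
  ∑ m ∈ P.support, C ((starRingEnd ℂ) (P.coeff m)) * pdl (Lst m) F

/-- the operator `T_P` on polynomials -/
def TP (P F : MvPolynomial (Fin n) ℂ) : MvPolynomial (Fin n) ℂ := Dop P (P * F)

/-- the direction `- ∂r/∂z̄` -/
def eta (r : V n → ℝ) (z : V n) : V n := fun j => - (starRingEnd ℂ) (wd j (rc r) z)

/-- the leading form -/
def lead (P : MvPolynomial (Fin n) ℂ) : MvPolynomial (Fin n) ℂ :=
  homogeneousComponent P.totalDegree P

lemma continuous_eta {r : V n → ℝ} (hr : ContDiff ℝ ∞ r) : Continuous (eta r) := by
  refine continuous_pi fun j => ?_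
  exact (contDiff_cj (contDiff_wd j (contDiff_rc hr))).continuous.neg

lemma ev_lead_eta (r : V n → ℝ) (P : MvPolynomial (Fin n) ℂ) (z : V n) :
    (starRingEnd ℂ) (ev (lead P) (eta r z))
      = ∑ m ∈ P.support, (if m.degree = P.totalDegree then
          (starRingEnd ℂ) (P.coeff m) * prl r (Lst m) z else 0) := by
  unfold lead ev
  rw [homogeneousComponent_apply, map_sum, map_sum, ← Finset.sum_filter]
  apply Finset.sum_congr rfl
  intro m _
  rw [eval_monomial, map_mul, prl_Lst, Finsupp.prod_fintype]
  · rw [map_prod]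
    congr 1
    apply Finset.prod_congr rfl
    intro j _
    simp [eta]
  · intro i; simp

lemma adj_mono {r : V n → ℝ} (hr : ContDiff ℝ ∞ r) (hK : CptPos r) (m : Fin n →₀ ℕ) (d : ℕ)
    (hd : m.degree ≤ d) (c : ℂ) :
    ∃ E : V n → ℂ, Continuous E ∧ ∀ U H : MvPolynomial (Fin n) ℂ,
      ∫ z, rp r (d + 1) z * (ev (pdl (Lst m) U) z * cj (ev H) z * c)
        = ∫ z, (ev U z * cj (ev H) z) *
          (rp r 1 z * (((d + 1).factorial : ℕ) *
              (if m.degree = d then c * prl r (Lst m) z else 0))
            + rp r 2 z * E z) := by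
  obtain ⟨E, hE, hE'⟩ := adj_list hr hK (Lst m) (d + 1) (by rw [length_Lst]; omega)
    (fun _ => c) contDiff_const
  rw [length_Lst] at hE'
  by_cases h : m.degree = d
  · refine ⟨E, hE, fun U H => ?_⟩
    rw [hE' U H]
    refine integral_congr_ae (Filter.Eventually.of_forall fun z => ?_)
    simp only
    rw [if_pos h, h]
    have e1 : d + 1 - d = 1 := by omega
    have e2 : (d + 1).descFactorial d = (d + 1).factorial := by
      have := Nat.factorial_mul_descFactorial (n := d + 1) (k := d) (by omega)
      rw [e1] at this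
      simpa using this
    rw [e1, e2]
    ring
  · have h' : m.degree < d := lt_of_le_of_ne hd h
    refine ⟨fun z => rp r (d - 1 - m.degree) z * (((d + 1).descFactorial m.degree : ℕ) * c *
      prl r (Lst m) z + rp r 1 z * E z), ?_, fun U H => ?_⟩
    · exact (continuous_rp hr _).mul ((continuous_const.mul (contDiff_prl hr _).continuous).add
        ((continuous_rp hr 1).mul hE))
    rw [hE' U H]
    refine integral_congr_ae (Filter.Eventually.of_forall fun z => ?_)
    simp only
    rw [if_neg h]
    have e1 : d + 1 - m.degree = 2 + (d - 1 - m.degree) := by omega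
    rw [← rp_mul r (d + 1 - m.degree) 1 z, e1, ← rp_mul]
    ring

/-- The adjoint formula for `P^*(D)`. -/
theorem adj_Dop {r : V n → ℝ} (hr : ContDiff ℝ ∞ r) (hK : CptPos r)
    (P : MvPolynomial (Fin n) ℂ) :
    ∃ E : V n → ℂ, Continuous E ∧ ∀ U H : MvPolynomial (Fin n) ℂ,
      ∫ z, rp r (P.totalDegree + 1) z * (ev (Dop P U) z * cj (ev H) z)
        = ∫ z, (ev U z * cj (ev H) z) *
          (rp r 1 z * (((P.totalDegree + 1).factorial : ℕ) *
              (starRingEnd ℂ) (ev (lead P) (eta r z)))
            + rp r 2 z * E z) := by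
  classical
  have hdeg : ∀ m ∈ P.support, m.degree ≤ P.totalDegree := fun m hm => by
    have := le_totalDegree hm
    rwa [Finsupp.degree_eq_sum, ← Finsupp.sum_fintype _ (fun _ x => x) (by simp)]
  have hex : ∀ m : Fin n →₀ ℕ, ∃ E : V n → ℂ, Continuous E ∧ (m ∈ P.support →
      ∀ U H : MvPolynomial (Fin n) ℂ,
      ∫ z, rp r (P.totalDegree + 1) z * (ev (pdl (Lst m) U) z * cj (ev H) z
        * (starRingEnd ℂ) (P.coeff m))
        = ∫ z, (ev U z * cj (ev H) z) *
          (rp r 1 z * (((P.totalDegree + 1).factorial : ℕ) *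
              (if m.degree = P.totalDegree then
                (starRingEnd ℂ) (P.coeff m) * prl r (Lst m) z else 0))
            + rp r 2 z * E z)) := by
    intro m
    by_cases hm : m ∈ P.support
    · obtain ⟨E, hE, hE'⟩ := adj_mono hr hK m P.totalDegree (hdeg m hm)
        ((starRingEnd ℂ) (P.coeff m))
      exact ⟨E, hE, fun _ => hE'⟩
    · exact ⟨fun _ => 0, continuous_const, fun h => absurd h hm⟩
  choose E hE hE' using hex
  refine ⟨fun z => ∑ m ∈ P.support, E m z, continuous_finset_sum _ fun m _ => hE m,
    fun U H => ?_⟩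
  have h1 : ∀ z, rp r (P.totalDegree + 1) z * (ev (Dop P U) z * cj (ev H) z)
      = ∑ m ∈ P.support, rp r (P.totalDegree + 1) z * (ev (pdl (Lst m) U) z * cj (ev H) z
        * (starRingEnd ℂ) (P.coeff m)) := by
    intro z
    have : ev (Dop P U) z = ∑ m ∈ P.support, (starRingEnd ℂ) (P.coeff m)
        * ev (pdl (Lst m) U) z := by
      simp [Dop, ev]
    rw [this, Finset.sum_mul, Finset.mul_sum]
    apply Finset.sum_congr rfl
    intro m _
    ring
  simp only [h1]
  have hcH : Continuous (cj (ev H)) := (contDiff_cj (contDiff_ev H)).continuous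
  have i0 : ∀ m ∈ P.support, Integrable (fun z => rp r (P.totalDegree + 1) z *
      (ev (pdl (Lst m) U) z * cj (ev H) z * (starRingEnd ℂ) (P.coeff m))) := fun m _ =>
    integrable_rp_mul hr hK _ (by omega)
      (((continuous_ev _).mul hcH).mul continuous_const)
  rw [integral_finset_sum _ i0]
  rw [Finset.sum_congr rfl fun m hm => hE' m hm U H, ← integral_finset_sum]
  · refine integral_congr_ae (Filter.Eventually.of_forall fun z => ?_)
    simp only
    rw [ev_lead_eta, ← Finset.mul_sum, Finset.sum_add_distrib, ← Finset.mul_sum,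
      ← Finset.mul_sum, ← Finset.mul_sum]
  · intro m _
    have : (fun z => (ev U z * cj (ev H) z) *
          (rp r 1 z * (((P.totalDegree + 1).factorial : ℕ) *
              (if m.degree = P.totalDegree then
                (starRingEnd ℂ) (P.coeff m) * prl r (Lst m) z else 0))
            + rp r 2 z * E m z))
        = fun z => rp r 1 z * ((ev U z * cj (ev H) z) *
          ((((P.totalDegree + 1).factorial : ℕ) *
              (if m.degree = P.totalDegree then
                (starRingEnd ℂ) (P.coeff m) * prl r (Lst m) z else 0))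
            + rp r 1 z * E m z)) := by
      funext z
      have : rp r 2 z = rp r 1 z * rp r 1 z := by rw [rp_mul]
      rw [this]
      ring
    rw [this]
    refine integrable_rp_mul hr hK _ one_ne_zero ?_
    refine ((continuous_ev U).mul hcH).mul ((continuous_const.mul ?_).add
      ((continuous_rp hr 1).mul (hE m)))
    split_ifs
    · exact continuous_const.mul (contDiff_prl hr _).continuous
    · exact continuous_const

end Pool.Agent.H60
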