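import Pool.Agent.H60.Wirt

set_option autoImplicit false

open MeasureTheory Complex MvPolynomial
open scoped ContDiff

noncomputable section

namespace Pool.Agent.H60

variable {n : ℕ}

/-- polynomial functions -/
def ev (p : MvPolynomial (Fin n) ℂ) (z : V n) : ℂ := MvPolynomial.eval z p

lemma ev_add (p q : MvPolynomial (Fin n) ℂ) (z : V n) : ev (p + q) z = ev p z + ev q z := by
  simp [ev]

lemma ev_mul (p q : MvPolynomial (Fin n) ℂ) (z : V n) : ev (p * q) z = ev p z * ev q z := by
  simp [ev]

/-- the differential of a polynomial function -/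
def dev (p : MvPolynomial (Fin n) ℂ) (z : V n) : V n →L[ℂ] ℂ :=
  ∑ j, (ev (pderiv j p) z) • (ContinuousLinearMap.proj j : V n →L[ℂ] ℂ)

lemma dev_apply (p : MvPolynomial (Fin n) ℂ) (z v : V n) :
    dev p z v = ∑ j, ev (pderiv j p) z * v j := by
  unfold dev
  simp only [_root_.sum_apply, _root_.smul_apply, ContinuousLinearMap.proj_apply, smul_eq_mul]

lemma hasFDerivAt_ev (p : MvPolynomial (Fin n) ℂ) (z : V n) :
    HasFDerivAt (ev p) (dev p z) z := by
  induction p using MvPolynomial.induction_on with
  | C a =>
    have : ev (C a : MvPolynomial (Fin n) ℂ) = fun _ => a := by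
      funext z; simp [ev]
    rw [this]
    have h0 : dev (C a : MvPolynomial (Fin n) ℂ) z = 0 := by
      ext v
      rw [dev_apply]
      simp [ev]
    rw [h0]
    exact hasFDerivAt_const a z
  | add p q hp hq =>
    have h1 := hp.add hq
    have h2 : ev (p + q) = ev p + ev q := by
      funext z; simp [ev]
    have h3 : dev (p + q) z = dev p z + dev q z := by
      ext v
      simp only [_root_.add_apply, dev_apply]
      rw [← Finset.sum_add_distrib]
      apply Finset.sum_congr rfl
      intro j _
      rw [map_add, ev_add, add_mul]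
    rw [h2, h3]
    exact h1
  | mul_X p i hp =>
    have h0 : HasFDerivAt (fun z : V n => z i) (ContinuousLinearMap.proj i : V n →L[ℂ] ℂ) z :=
      hasFDerivAt_apply i z
    have h1 := hp.mul h0
    have h2 : ev (p * X i) = ev p * fun z : V n => z i := by
      funext z; simp [ev]
    rw [h2]
    refine h1.congr_fderiv ?_
    ext v
    have h3 : ∀ j, ev (pderiv j (p * X i)) z
        = ev (pderiv j p) z * z i + ev p z * (if i = j then 1 else 0) := by
      intro j
      rw [Derivation.leibniz, pderiv_X]
      simp only [smul_eq_mul, ev, map_add, map_mul, eval_X]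
      by_cases hij : i = j
      · subst hij; simp [add_comm, mul_comm]
      · simp [hij, mul_comm]
    rw [dev_apply]
    simp only [h3, _root_.add_apply, _root_.smul_apply, smul_eq_mul,
      ContinuousLinearMap.proj_apply, dev_apply, add_mul, Finset.sum_add_distrib]
    rw [add_comm]
    congr 1
    · rw [Finset.mul_sum]
      apply Finset.sum_congr rfl
      intro j _
      ring
    · simp

lemma differentiable_ev (p : MvPolynomial (Fin n) ℂ) : Differentiable ℂ (ev p) :=
  fun z => (hasFDerivAt_ev p z).differentiableAt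

lemma fderiv_ev (p : MvPolynomial (Fin n) ℂ) (z : V n) (j : Fin n) :
    fderiv ℂ (ev p) z (Pi.single j 1) = ev (pderiv j p) z := by
  rw [(hasFDerivAt_ev p z).fderiv, dev_apply]
  rw [Finset.sum_eq_single j]
  · simp
  · intro b _ hb
    simp [hb]
  · simp

lemma contDiff_ev (p : MvPolynomial (Fin n) ℂ) : ContDiff ℝ ∞ (ev p) := by
  have h1 : AnalyticOnNhd ℂ (fun x : V n => MvPolynomial.eval x p) Set.univ :=
    AnalyticOnNhd.eval_mvPolynomial p
  have h2 : ContDiff ℂ ∞ (ev p) := by
    have := h1.contDiff (n := ∞)
    exact this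
  exact h2.restrict_scalars ℝ

lemma continuous_ev (p : MvPolynomial (Fin n) ℂ) : Continuous (ev p) :=
  (contDiff_ev p).continuous

lemma wd_ev (j : Fin n) (p : MvPolynomial (Fin n) ℂ) : wd j (ev p) = ev (pderiv j p) := by
  funext z
  rw [wd_of_complex j (differentiable_ev p z), fderiv_ev]

lemma wd_cj_ev (j : Fin n) (p : MvPolynomial (Fin n) ℂ) (z : V n) : wd j (cj (ev p)) z = 0 :=
  wd_cj_of_complex j (differentiable_ev p z)

end Pool.Agent.H60
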