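import Pool.Agent.H60.Op

set_option autoImplicit false

open MeasureTheory Complex MvPolynomial
open scoped ContDiff Topology

noncomputable section

namespace Pool.Agent.H60

variable {n : ℕ}

/-- the rescaled polynomial -/
def PS (P : MvPolynomial (Fin n) ℂ) (ε : ℝ) : MvPolynomial (Fin n) ℂ :=
  ∑ m ∈ P.support, monomial m ((ε : ℂ) ^ (P.totalDegree - m.degree) * P.coeff m)

lemma deg_le {P : MvPolynomial (Fin n) ℂ} {m : Fin n →₀ ℕ} (hm : m ∈ P.support) :
    m.degree ≤ P.totalDegree := by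
  have := le_totalDegree hm
  rwa [Finsupp.degree_eq_sum, ← Finsupp.sum_fintype _ (fun _ x => x) (by simp)]

lemma PS_zero (P : MvPolynomial (Fin n) ℂ) : PS P 0 = lead P := by
  unfold PS lead
  rw [homogeneousComponent_apply, Finset.sum_filter]
  apply Finset.sum_congr rfl
  intro m hm
  have h := deg_le hm
  by_cases hd : m.degree = P.totalDegree
  · rw [if_pos hd, hd]; simp
  · rw [if_neg hd]
    have : P.totalDegree - m.degree ≠ 0 := by omega
    simp [this]

lemma ev_monomial (m : Fin n →₀ ℕ) (a : ℂ) (z : V n) :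
    ev (monomial m a) z = a * ∏ j, z j ^ m j := by
  unfold ev
  rw [eval_monomial, Finsupp.prod_fintype]
  intro i; simp

lemma ev_sum {ι : Type*} (s : Finset ι) (F : ι → MvPolynomial (Fin n) ℂ) (z : V n) :
    ev (∑ i ∈ s, F i) z = ∑ i ∈ s, ev (F i) z := by
  simp [ev]

lemma ev_eq_sum (P : MvPolynomial (Fin n) ℂ) (z : V n) :
    ev P z = ∑ m ∈ P.support, P.coeff m * ∏ j, z j ^ m j := by
  unfold ev
  rw [eval_eq']

lemma ev_PS (P : MvPolynomial (Fin n) ℂ) (ε : ℝ) (x : V n) :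
    ev (PS P ε) (ε • x) = (ε : ℂ) ^ P.totalDegree * ev P x := by
  rw [ev_eq_sum P x]
  unfold PS
  rw [ev_sum, Finset.mul_sum]
  apply Finset.sum_congr rfl
  intro m hm
  rw [ev_monomial]
  have h1 : ∏ j, (ε • x) j ^ m j = (ε : ℂ) ^ m.degree * ∏ j, x j ^ m j := by
    simp only [Pi.smul_apply, Complex.real_smul, mul_pow, Finset.prod_mul_distrib]
    rw [Finset.prod_pow_eq_pow_sum, Finsupp.degree_eq_sum]
  rw [h1]
  have h2 : (ε : ℂ) ^ P.totalDegree = (ε : ℂ) ^ (P.totalDegree - m.degree) * (ε : ℂ) ^ m.degree := by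
    rw [← pow_add, Nat.sub_add_cancel (deg_le hm)]
  rw [h2]
  ring

/-- the joint function -/
def PJ (P : MvPolynomial (Fin n) ℂ) (p : ℝ × V n) : ℂ := ev (PS P p.1) p.2

/-- the joint derivative -/
def PJd (P : MvPolynomial (Fin n) ℂ) (j : Fin n) (p : ℝ × V n) : ℂ :=
  ev (pderiv j (PS P p.1)) p.2

lemma contDiff_PJ (P : MvPolynomial (Fin n) ℂ) : ContDiff ℝ ∞ (PJ P) := by
  have h1 : PJ P = fun p => ∑ m ∈ P.support, ((p.1 : ℂ) ^ (P.totalDegree - m.degree) * P.coeff m)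
      * ∏ j, p.2 j ^ m j := by
    funext p
    unfold PJ PS
    rw [ev_sum]
    apply Finset.sum_congr rfl
    intro m _
    rw [ev_monomial]
  rw [h1]
  apply ContDiff.sum
  intro m _
  have h2 : ContDiff ℝ ∞ (fun p : ℝ × V n => (p.1 : ℂ)) :=
    Complex.ofRealCLM.contDiff.comp contDiff_fst
  have h3 : ∀ j, ContDiff ℝ ∞ (fun p : ℝ × V n => p.2 j) := fun j =>
    (contDiff_apply ℝ ℂ j).comp contDiff_snd
  apply ContDiff.mul
  · exact (h2.pow _).mul contDiff_const
  · apply contDiff_prod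
    intro j _
    exact (h3 j).pow _

lemma PJd_eq (P : MvPolynomial (Fin n) ℂ) (j : Fin n) (p : ℝ × V n) :
    PJd P j p = fderiv ℝ (PJ P) p (0, Pi.single j 1) := by
  have hd : DifferentiableAt ℝ (PJ P) (p.1, p.2) :=
    ((contDiff_PJ P).differentiable (by simp)).differentiableAt
  have hin : HasFDerivAt (fun z : V n => (p.1, z))
      ((0 : V n →L[ℝ] ℝ).prod (ContinuousLinearMap.id ℝ (V n))) p.2 :=
    (hasFDerivAt_const p.1 p.2).prodMk (hasFDerivAt_id p.2)
  have h1 : HasFDerivAt (fun z : V n => PJ P (p.1, z))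
      ((fderiv ℝ (PJ P) (p.1, p.2)).comp ((0 : V n →L[ℝ] ℝ).prod (ContinuousLinearMap.id ℝ (V n))))
      p.2 := hd.hasFDerivAt.comp p.2 hin
  have h2 : (fun z : V n => PJ P (p.1, z)) = ev (PS P p.1) := rfl
  rw [h2] at h1
  have h3 := (hasFDerivAt_ev (PS P p.1) p.2).restrictScalars ℝ
  have h4 := h1.unique h3
  have h5 := congrArg (fun L : V n →L[ℝ] ℂ => L (Pi.single j 1)) h4
  simp only [ContinuousLinearMap.comp_apply, ContinuousLinearMap.coe_restrictScalars'] at h5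
  have h6 : dev (PS P p.1) p.2 (Pi.single j 1) = PJd P j p := by
    rw [← (hasFDerivAt_ev (PS P p.1) p.2).fderiv, fderiv_ev]
    rfl
  rw [h6] at h5
  rw [← h5]
  rfl

lemma contDiff_PJd (P : MvPolynomial (Fin n) ℂ) (j : Fin n) : ContDiff ℝ ∞ (PJd P j) := by
  have h1 : PJd P j = fun p => fderiv ℝ (PJ P) p (0, Pi.single j 1) := by
    funext p; exact PJd_eq P j p
  rw [h1]
  exact ((contDiff_PJ P).fderiv_right (m := ∞) (by simp)).clm_apply contDiff_const

lemma ev_pderiv_PS (P : MvPolynomial (Fin n) ℂ) (ε : ℝ) (x : V n) (j : Fin n) :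
    (ε : ℂ) * ev (pderiv j (PS P ε)) (ε • x) = (ε : ℂ) ^ P.totalDegree * ev (pderiv j P) x := by
  have h1 : HasFDerivAt (fun x : V n => ev (PS P ε) (ε • x))
      ((dev (PS P ε) (ε • x)).comp ((ε : ℂ) • ContinuousLinearMap.id ℂ (V n))) x := by
    have h2 : HasFDerivAt (fun x : V n => ε • x) ((ε : ℂ) • ContinuousLinearMap.id ℂ (V n)) x := by
      have := (hasFDerivAt_id (𝕜 := ℂ) x).const_smul (ε : ℂ)
      exact this
    exact (hasFDerivAt_ev (PS P ε) (ε • x)).comp x h2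
  have h2 : HasFDerivAt (fun x : V n => (ε : ℂ) ^ P.totalDegree * ev P x)
      (((ε : ℂ) ^ P.totalDegree) • dev P x) x := (hasFDerivAt_ev P x).const_mul _
  have h3 : (fun x : V n => ev (PS P ε) (ε • x)) = fun x => (ε : ℂ) ^ P.totalDegree * ev P x := by
    funext x; exact ev_PS P ε x
  rw [h3] at h1
  have h4 := congrArg (fun L : V n →L[ℂ] ℂ => L (Pi.single j 1)) (h1.unique h2)
  have h5 : ∀ (Q : MvPolynomial (Fin n) ℂ) (y : V n), dev Q y (Pi.single j 1)
      = ev (pderiv j Q) y := by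
    intro Q y
    rw [← (hasFDerivAt_ev Q y).fderiv, fderiv_ev]
  simp only [ContinuousLinearMap.comp_apply, _root_.smul_apply, ContinuousLinearMap.id_apply,
    map_smul, h5, smul_eq_mul] at h4
  exact h4

/-- the base point of the implicit equation -/
def zt (P : MvPolynomial (Fin n) ℂ) (u : (ℝ × V n) × ℂ) : V n :=
  fun j => u.1.2 j + u.2 * (starRingEnd ℂ) (PJd P j u.1)

/-- the implicit equation -/
def Gf (P : MvPolynomial (Fin n) ℂ) (u : (ℝ × V n) × ℂ) : ℂ :=
  ev (lead P) (zt P u) - PJ P u.1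

/-- its derivative in the last variable -/
def gf (P : MvPolynomial (Fin n) ℂ) (u : (ℝ × V n) × ℂ) : ℂ :=
  ∑ j, ev (pderiv j (lead P)) (zt P u) * (starRingEnd ℂ) (PJd P j u.1)

lemma contDiff_zt (P : MvPolynomial (Fin n) ℂ) : ContDiff ℝ ∞ (zt P) := by
  apply contDiff_pi.mpr
  intro j
  have h3 : ContDiff ℝ ∞ (fun p : (ℝ × V n) × ℂ => p.1.2 j) :=
    (contDiff_apply ℝ ℂ j).comp (contDiff_snd.comp contDiff_fst)
  have h4 : ContDiff ℝ ∞ (fun p : (ℝ × V n) × ℂ => (starRingEnd ℂ) (PJd P j p.1)) :=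
    Complex.conjCLE.contDiff.comp ((contDiff_PJd P j).comp contDiff_fst)
  exact h3.add (contDiff_snd.mul h4)

lemma contDiff_Gf (P : MvPolynomial (Fin n) ℂ) : ContDiff ℝ ∞ (Gf P) :=
  ((contDiff_ev _).comp (contDiff_zt P)).sub ((contDiff_PJ P).comp contDiff_fst)

lemma continuous_gf (P : MvPolynomial (Fin n) ℂ) : Continuous (gf P) := by
  unfold gf
  apply continuous_finset_sum
  intro j _
  exact ((continuous_ev _).comp (contDiff_zt P).continuous).mul
    (Complex.continuous_conj.comp ((contDiff_PJd P j).continuous.comp continuous_fst))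

lemma fderiv_Gf (P : MvPolynomial (Fin n) ℂ) (u : (ℝ × V n) × ℂ) (s : ℂ) :
    fderiv ℝ (Gf P) u (0, s) = gf P u * s := by
  have hd : DifferentiableAt ℝ (Gf P) (u.1, u.2) :=
    ((contDiff_Gf P).differentiable (by simp)).differentiableAt
  have hin : HasFDerivAt (fun t : ℂ => (u.1, t))
      ((0 : ℂ →L[ℝ] (ℝ × V n)).prod (ContinuousLinearMap.id ℝ ℂ)) u.2 :=
    (hasFDerivAt_const u.1 u.2).prodMk (hasFDerivAt_id u.2)
  have h1 : HasFDerivAt (fun t : ℂ => Gf P (u.1, t))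
      ((fderiv ℝ (Gf P) (u.1, u.2)).comp
        ((0 : ℂ →L[ℝ] (ℝ × V n)).prod (ContinuousLinearMap.id ℝ ℂ))) u.2 :=
    hd.hasFDerivAt.comp u.2 hin
  have h2 : HasFDerivAt (fun t : ℂ => zt P (u.1, t))
      (ContinuousLinearMap.pi fun j => (starRingEnd ℂ) (PJd P j u.1) •
        ContinuousLinearMap.id ℂ ℂ) u.2 := by
    apply hasFDerivAt_pi.mpr
    intro j
    have := ((hasFDerivAt_id (𝕜 := ℂ) u.2).mul_const ((starRingEnd ℂ) (PJd P j u.1))).const_add
      (u.1.2 j)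
    exact this
  have h3 : HasFDerivAt (fun t : ℂ => Gf P (u.1, t))
      ((dev (lead P) (zt P u)).comp (ContinuousLinearMap.pi fun j =>
        (starRingEnd ℂ) (PJd P j u.1) • ContinuousLinearMap.id ℂ ℂ)) u.2 := by
    have h30 : HasFDerivAt (ev (lead P)) (dev (lead P) (zt P u))
        ((fun t : ℂ => zt P (u.1, t)) u.2) := hasFDerivAt_ev (lead P) (zt P u)
    have h31 := (h30.comp u.2 h2).sub_const (PJ P u.1)
    exact h31
  have h4 := h1.unique (h3.restrictScalars ℝ)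
  have h5 := congrArg (fun L : ℂ →L[ℝ] ℂ => L s) h4
  simp only [ContinuousLinearMap.comp_apply, ContinuousLinearMap.coe_restrictScalars'] at h5
  have h6 : (fderiv ℝ (Gf P) (u.1, u.2)) (((0 : ℂ →L[ℝ] (ℝ × V n)).prod
      (ContinuousLinearMap.id ℝ ℂ)) s) = fderiv ℝ (Gf P) u (0, s) := rfl
  rw [h6] at h5
  rw [h5, dev_apply]
  unfold gf
  rw [Finset.sum_mul]
  apply Finset.sum_congr rfl
  intro j _
  simp only [ContinuousLinearMap.coe_pi', _root_.smul_apply, ContinuousLinearMap.id_apply,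
    smul_eq_mul]
  ring

lemma PJ_zero (P : MvPolynomial (Fin n) ℂ) (z : V n) : PJ P (0, z) = ev (lead P) z := by
  unfold PJ
  simp only
  rw [PS_zero]

lemma PJd_zero (P : MvPolynomial (Fin n) ℂ) (j : Fin n) (z : V n) :
    PJd P j (0, z) = ev (pderiv j (lead P)) z := by
  unfold PJd
  simp only
  rw [PS_zero]

lemma zt_zero (P : MvPolynomial (Fin n) ℂ) (p : ℝ × V n) : zt P (p, 0) = p.2 := by
  funext j
  simp [zt]

lemma Gf_zero (P : MvPolynomial (Fin n) ℂ) (z : V n) : Gf P ((0, z), 0) = 0 := by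
  unfold Gf
  rw [zt_zero, PJ_zero]
  simp

lemma gf_zero (P : MvPolynomial (Fin n) ℂ) (z : V n) :
    gf P ((0, z), 0) = ((∑ j, ‖ev (pderiv j (lead P)) z‖ ^ 2 : ℝ) : ℂ) := by
  unfold gf
  rw [zt_zero]
  push_cast
  apply Finset.sum_congr rfl
  intro j _
  rw [PJd_zero, Complex.mul_conj, Complex.normSq_eq_norm_sq]
  push_cast
  rfl

lemma gf_zero_ne {P : MvPolynomial (Fin n) ℂ} {z : V n}
    (h : ∃ j, ev (pderiv j (lead P)) z ≠ 0) : gf P ((0, z), 0) ≠ 0 := by
  rw [gf_zero]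
  obtain ⟨j, hj⟩ := h
  have : 0 < ∑ j, ‖ev (pderiv j (lead P)) z‖ ^ 2 := by
    apply Finset.sum_pos' (fun i _ => by positivity)
    exact ⟨j, Finset.mem_univ j, by positivity⟩
  exact_mod_cast this.ne'

end Pool.Agent.H60
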