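import Pool.Agent.H60.Glue
import Pool.Agent.H60.Scale

set_option autoImplicit false

open MeasureTheory Complex MvPolynomial
open scoped ContDiff Topology

noncomputable section

namespace Pool.Agent.H60

variable {n : ℕ}

/-- the squared Euclidean norm -/
def Nn (z : V n) : ℝ := ∑ j, ‖z j‖ ^ 2

/-- the shell -/
def Sh (n : ℕ) : Set (V n) := {z | 1 / 8 ≤ Nn z ∧ Nn z ≤ 31 / 8}

lemma continuous_Nn : Continuous (Nn : V n → ℝ) := by
  unfold Nn
  fun_prop

lemma norm_sq_le_Nn (z : V n) (j : Fin n) : ‖z j‖ ^ 2 ≤ Nn z := by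
  unfold Nn
  exact Finset.single_le_sum (f := fun j => ‖z j‖ ^ 2) (fun i _ => by positivity)
    (Finset.mem_univ j)

lemma Nn_bdd (a : ℝ) : Bornology.IsBounded {z : V n | Nn z ≤ a} := by
  refine (Metric.isBounded_closedBall (x := (0 : V n)) (r := |a| + 1)).subset ?_
  intro z hz
  rw [mem_closedBall_zero_iff, pi_norm_le_iff_of_nonneg (by positivity)]
  intro j
  have h1 := norm_sq_le_Nn z j
  have h2 : Nn z ≤ a := hz
  have h3 : a ≤ |a| := le_abs_self a
  nlinarith [norm_nonneg (z j), abs_nonneg a]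

lemma isCompact_Sh : IsCompact (Sh n) := by
  apply Metric.isCompact_of_isClosed_isBounded
  · exact (isClosed_le continuous_const continuous_Nn).inter
      (isClosed_le continuous_Nn continuous_const)
  · exact (Nn_bdd (31 / 8)).subset fun z hz => hz.2

lemma ne_zero_of_mem_Sh {z : V n} (hz : z ∈ Sh n) : z ≠ 0 := by
  rintro rfl
  have h1 := hz.1
  have : Nn (0 : V n) = 0 := by simp [Nn]
  rw [this] at h1
  norm_num at h1

/-- Wirtinger component of a real linear form -/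
def wl (j : Fin n) (D : V n →L[ℝ] ℂ) : ℂ :=
  (D (Pi.single j 1) - I * D (Pi.single j I)) / 2

/-- Wirtinger component of the conjugate -/
def wlc (j : Fin n) (D : V n →L[ℝ] ℂ) : ℂ :=
  ((starRingEnd ℂ) (D (Pi.single j 1)) - I * (starRingEnd ℂ) (D (Pi.single j I))) / 2

lemma norm_wl_le (j : Fin n) (D : V n →L[ℝ] ℂ) : ‖wl j D‖ ≤ ‖D‖ := by
  unfold wl
  have h1 : ‖D (Pi.single j 1)‖ ≤ ‖D‖ := by
    have := D.le_opNorm (Pi.single j 1)
    rwa [Pi.norm_single, norm_one, mul_one] at this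
  have h2 : ‖D (Pi.single j I)‖ ≤ ‖D‖ := by
    have := D.le_opNorm (Pi.single j I)
    rwa [Pi.norm_single, Complex.norm_I, mul_one] at this
  rw [norm_div]
  have h3 : ‖D (Pi.single j 1) - I * D (Pi.single j I)‖ ≤ ‖D‖ + ‖D‖ := by
    refine (norm_sub_le _ _).trans (add_le_add h1 ?_)
    rw [norm_mul, Complex.norm_I, one_mul]
    exact h2
  have h4 : ‖(2 : ℂ)‖ = 2 := by simp
  rw [h4]
  linarith

lemma norm_wlc_le (j : Fin n) (D : V n →L[ℝ] ℂ) : ‖wlc j D‖ ≤ ‖D‖ := by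
  unfold wlc
  have h1 : ‖D (Pi.single j 1)‖ ≤ ‖D‖ := by
    have := D.le_opNorm (Pi.single j 1)
    rwa [Pi.norm_single, norm_one, mul_one] at this
  have h2 : ‖D (Pi.single j I)‖ ≤ ‖D‖ := by
    have := D.le_opNorm (Pi.single j I)
    rwa [Pi.norm_single, Complex.norm_I, mul_one] at this
  rw [norm_div]
  have h3 : ‖(starRingEnd ℂ) (D (Pi.single j 1)) - I * (starRingEnd ℂ) (D (Pi.single j I))‖
      ≤ ‖D‖ + ‖D‖ := by
    refine (norm_sub_le _ _).trans (add_le_add ?_ ?_)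
    · rw [RCLike.norm_conj]; exact h1
    · rw [norm_mul, Complex.norm_I, one_mul, RCLike.norm_conj]
      exact h2
  have h4 : ‖(2 : ℂ)‖ = 2 := by simp
  rw [h4]
  linarith

lemma continuous_wl (j : Fin n) : Continuous (wl j) := by
  unfold wl
  have h1 : Continuous fun D : V n →L[ℝ] ℂ => D (Pi.single j 1) :=
    (ContinuousLinearMap.apply ℝ ℂ (Pi.single j 1 : V n)).continuous
  have h2 : Continuous fun D : V n →L[ℝ] ℂ => D (Pi.single j I) :=
    (ContinuousLinearMap.apply ℝ ℂ (Pi.single j I : V n)).continuous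
  fun_prop

lemma continuous_wlc (j : Fin n) : Continuous (wlc j) := by
  unfold wlc
  have h1 : Continuous fun D : V n →L[ℝ] ℂ => D (Pi.single j 1) :=
    (ContinuousLinearMap.apply ℝ ℂ (Pi.single j 1 : V n)).continuous
  have h2 : Continuous fun D : V n →L[ℝ] ℂ => D (Pi.single j I) :=
    (ContinuousLinearMap.apply ℝ ℂ (Pi.single j I : V n)).continuous
  have h3 := Complex.continuous_conj.comp h1
  have h4 := Complex.continuous_conj.comp h2
  exact (h3.sub (continuous_const.mul h4)).div_const 2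

lemma wd_eq_wl (j : Fin n) (u : V n → ℂ) (z : V n) : wd j u z = wl j (fderiv ℝ u z) := rfl

lemma wd_cj_eq_wlc (j : Fin n) {u : V n → ℂ} {z : V n} (hu : DifferentiableAt ℝ u z) :
    wd j (cj u) z = wlc j (fderiv ℝ u z) := by
  unfold wd wlc
  rw [fderiv_cj hu, fderiv_cj hu]

/-- the direction of the gradient of the corrected defining function -/
def et (P : MvPolynomial (Fin n) ℂ) (p : ℝ × V n) (t : ℂ) (D : V n →L[ℝ] ℂ) : V n :=
  fun j => zt P (p, t) j + ((starRingEnd ℂ) (PJ P p) * (starRingEnd ℂ) (wlc j D)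
    + PJ P p * (starRingEnd ℂ) (wl j D))

lemma continuous_et (P : MvPolynomial (Fin n) ℂ) :
    Continuous fun q : (ℝ × V n) × ℂ × (V n →L[ℝ] ℂ) => et P q.1 q.2.1 q.2.2 := by
  apply continuous_pi
  intro j
  unfold et
  have h1 : Continuous fun q : (ℝ × V n) × ℂ × (V n →L[ℝ] ℂ) => zt P (q.1, q.2.1) j :=
    (continuous_apply j).comp ((contDiff_zt P).continuous.comp
      (continuous_fst.prodMk (continuous_fst.comp continuous_snd)))
  have h2 : Continuous fun q : (ℝ × V n) × ℂ × (V n →L[ℝ] ℂ) => PJ P q.1 :=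
    (contDiff_PJ P).continuous.comp continuous_fst
  have h3 : Continuous fun q : (ℝ × V n) × ℂ × (V n →L[ℝ] ℂ) => wl j q.2.2 :=
    (continuous_wl j).comp (continuous_snd.comp continuous_snd)
  have h4 : Continuous fun q : (ℝ × V n) × ℂ × (V n →L[ℝ] ℂ) => wlc j q.2.2 :=
    (continuous_wlc j).comp (continuous_snd.comp continuous_snd)
  exact h1.add (((Complex.continuous_conj.comp h2).mul (Complex.continuous_conj.comp h4)).add
    (h2.mul (Complex.continuous_conj.comp h3)))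

lemma et_zero (P : MvPolynomial (Fin n) ℂ) (p : ℝ × V n) : et P p 0 0 = p.2 := by
  funext j
  unfold et
  rw [zt_zero]
  simp [wl, wlc]

lemma et_sub_zt (P : MvPolynomial (Fin n) ℂ) (p : ℝ × V n) (t : ℂ) (D : V n →L[ℝ] ℂ) :
    ‖et P p t D - zt P (p, t)‖ ≤ 2 * ‖PJ P p‖ * ‖D‖ := by
  rw [pi_norm_le_iff_of_nonneg (by positivity)]
  intro j
  have h1 : (et P p t D - zt P (p, t)) j = (starRingEnd ℂ) (PJ P p) * (starRingEnd ℂ) (wlc j D)
    + PJ P p * (starRingEnd ℂ) (wl j D) := by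
    simp [et]
  rw [h1]
  refine (norm_add_le _ _).trans ?_
  rw [norm_mul, norm_mul, RCLike.norm_conj, RCLike.norm_conj, RCLike.norm_conj]
  have h2 := norm_wl_le j D
  have h3 := norm_wlc_le j D
  have h4 := norm_nonneg (PJ P p)
  nlinarith

/-- the nondegeneracy function -/
def Hf (P : MvPolynomial (Fin n) ℂ) (p : ℝ × V n) (t : ℂ) (D : V n →L[ℝ] ℂ) : ℝ :=
  ‖PJ P p‖ ^ 2 + (1 / 2) * ∑ j, ∑ k, ‖PJd P j p * (-(starRingEnd ℂ) (et P p t D k))
    - PJd P k p * (-(starRingEnd ℂ) (et P p t D j))‖ ^ 2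

lemma continuous_Hf (P : MvPolynomial (Fin n) ℂ) :
    Continuous fun q : (ℝ × V n) × ℂ × (V n →L[ℝ] ℂ) => Hf P q.1 q.2.1 q.2.2 := by
  unfold Hf
  have h2 : Continuous fun q : (ℝ × V n) × ℂ × (V n →L[ℝ] ℂ) => PJ P q.1 :=
    (contDiff_PJ P).continuous.comp continuous_fst
  have h3 : ∀ j, Continuous fun q : (ℝ × V n) × ℂ × (V n →L[ℝ] ℂ) => PJd P j q.1 := fun j =>
    (contDiff_PJd P j).continuous.comp continuous_fst
  have h4 : ∀ j, Continuous fun q : (ℝ × V n) × ℂ × (V n →L[ℝ] ℂ) =>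
      (starRingEnd ℂ) (et P q.1 q.2.1 q.2.2 j) := fun j =>
    Complex.continuous_conj.comp ((continuous_apply j).comp (continuous_et P))
  exact (h2.norm.pow 2).add (continuous_const.mul (continuous_finsetSum _ fun j _ =>
    continuous_finsetSum _ fun k _ =>
      (((h3 j).mul (h4 k).neg).sub ((h3 k).mul (h4 j).neg)).norm.pow 2))

lemma euler (P : MvPolynomial (Fin n) ℂ) (z : V n) :
    ∑ j, z j * ev (pderiv j (lead P)) z = P.totalDegree * ev (lead P) z := by
  have h := (homogeneousComponent_isHomogeneous P.totalDegree P).sum_X_mul_pderiv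
  have h2 := congrArg (fun F => ev F z) h
  simp only [ev, map_sum, map_mul, eval_X, nsmul_eq_mul, map_natCast] at h2
  exact h2

lemma Hf_zero_ne {P : MvPolynomial (Fin n) ℂ} {z : V n} (hz : z ≠ 0)
    (h : ∃ j, ev (pderiv j (lead P)) z ≠ 0) : Hf P (0, z) 0 0 ≠ 0 := by
  intro h0
  unfold Hf at h0
  rw [et_zero, PJ_zero] at h0
  simp only [PJd_zero] at h0
  have hnn : 0 ≤ (1 / 2 : ℝ) * ∑ j, ∑ k, ‖ev (pderiv j (lead P)) z * (-(starRingEnd ℂ) (z k))
    - ev (pderiv k (lead P)) z * (-(starRingEnd ℂ) (z j))‖ ^ 2 := by positivity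
  have h1 : ev (lead P) z = 0 := by
    have : ‖ev (lead P) z‖ ^ 2 = 0 := le_antisymm (by linarith) (by positivity)
    simpa using this
  have h2 : ∑ j, ∑ k, ‖ev (pderiv j (lead P)) z * (-(starRingEnd ℂ) (z k))
    - ev (pderiv k (lead P)) z * (-(starRingEnd ℂ) (z j))‖ ^ 2 = 0 := by
    rw [h1] at h0
    simp only [norm_zero] at h0
    linarith
  have h3 : ∀ j k, ev (pderiv j (lead P)) z * (starRingEnd ℂ) (z k)
      = ev (pderiv k (lead P)) z * (starRingEnd ℂ) (z j) := by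
    intro j k
    rw [Finset.sum_eq_zero_iff_of_nonneg (fun i _ => by positivity)] at h2
    have h4 := h2 j (Finset.mem_univ j)
    rw [Finset.sum_eq_zero_iff_of_nonneg (fun i _ => by positivity)] at h4
    have h5 := h4 k (Finset.mem_univ k)
    have h6 := norm_eq_zero.mp (pow_eq_zero_iff (by norm_num) |>.mp h5)
    linear_combination -h6
  obtain ⟨j, hj⟩ := h
  have h4 : ev (pderiv j (lead P)) z * ((Nn z : ℝ) : ℂ) = 0 := by
    have h5 : ((Nn z : ℝ) : ℂ) = ∑ k, (starRingEnd ℂ) (z k) * z k := by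
      unfold Nn
      push_cast
      apply Finset.sum_congr rfl
      intro k _
      rw [mul_comm, Complex.mul_conj, Complex.normSq_eq_norm_sq]
      push_cast
      rfl
    rw [h5, Finset.mul_sum]
    have h6 : ∀ k, ev (pderiv j (lead P)) z * ((starRingEnd ℂ) (z k) * z k)
        = (starRingEnd ℂ) (z j) * (z k * ev (pderiv k (lead P)) z) := by
      intro k
      linear_combination z k * h3 j k
    simp only [h6]
    rw [← Finset.mul_sum, euler, h1]
    simp
  have h5 : ((Nn z : ℝ) : ℂ) ≠ 0 := by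
    have : 0 < Nn z := by
      obtain ⟨k, hk⟩ := Function.ne_iff.mp hz
      have h6 := norm_sq_le_Nn z k
      have h7 : 0 < ‖z k‖ ^ 2 := by
        have : z k ≠ 0 := hk
        positivity
      linarith
    exact_mod_cast this.ne'
  exact hj ((mul_eq_zero.mp h4).resolve_right h5)

/-- the list of required properties -/
def Good (P : MvPolynomial (Fin n) ℂ) (p : ℝ × V n) (t : ℂ) (D : V n →L[ℝ] ℂ) : Prop :=
  ev (lead P) (zt P (p, t)) = PJ P p ∧ 2 * ‖t‖ * ‖PJ P p‖ ≤ 1 / 8 ∧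
  ‖ev (lead P) (et P p t D) - ev (lead P) (zt P (p, t))‖ ≤ 1 / 2 * ‖PJ P p‖ ∧
  Hf P p t D ≠ 0

theorem exists_root {P : MvPolynomial (Fin n) ℂ}
    (hQ : ∀ z : V n, z ≠ 0 → ∃ j, ev (pderiv j (lead P)) z ≠ 0) :
    ∀ᶠ ε in 𝓝 (0 : ℝ), ∃ u : V n → ℂ, ∀ z ∈ Sh n, ContDiffAt ℝ ∞ u z ∧
      Good P (ε, z) (u z) (fderiv ℝ u z) := by
  have hK : IsCompact (({(0 : ℝ)} : Set ℝ) ×ˢ Sh n) := isCompact_singleton.prod isCompact_Sh
  obtain ⟨τ, hτ⟩ := glue (contDiff_Gf P) (continuous_gf P) (fderiv_Gf P) hK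
    (by
      rintro ⟨a, z⟩ ⟨ha, hz⟩
      rw [Set.mem_singleton_iff] at ha
      simp only at ha
      rw [ha]
      exact Gf_zero P z)
    (by
      rintro ⟨a, z⟩ ⟨ha, hz⟩
      rw [Set.mem_singleton_iff] at ha
      simp only at ha
      rw [ha]
      exact gf_zero_ne (hQ z (ne_zero_of_mem_Sh hz)))
  let Df : ℝ × V n → (V n →L[ℝ] ℂ) := fun p => (fderiv ℝ τ p).comp (.inr ℝ ℝ (V n))
  have key : ∀ z ∈ Sh n, ∀ᶠ p : ℝ × V n in 𝓝 ((0 : ℝ), z),
      ContDiffAt ℝ ∞ τ p ∧ Good P p (τ p) (Df p) := by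
    intro z hz
    have hz0 := ne_zero_of_mem_Sh hz
    have hev := hτ (0, z) ⟨rfl, hz⟩
    have hat := hev.self_of_nhds
    have hτ0 : τ (0, z) = 0 := hat.2.2 (Gf_zero P z)
    have hsm : ContDiffAt ℝ ∞ τ (0, z) := hat.2.1
    have hcτ : ContinuousAt τ (0, z) := hsm.continuousAt
    have hcD : ContinuousAt (fderiv ℝ τ) (0, z) :=
      (hsm.fderiv_right (m := 0) (by simp)).continuousAt
    have hcDf : ContinuousAt Df (0, z) := by
      have h1 : Continuous fun L : (ℝ × V n) →L[ℝ] ℂ => L.comp (.inr ℝ ℝ (V n)) :=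
        (ContinuousLinearMap.compL ℝ (V n) (ℝ × V n) ℂ).flip (.inr ℝ ℝ (V n)) |>.continuous
      exact h1.continuousAt.comp hcD
    have hDf0 : Df (0, z) = 0 := by
      have h1 : ∀ᶠ z' in 𝓝 z, τ (0, z') = 0 := by
        have h2 : Filter.Tendsto (fun z' : V n => ((0 : ℝ), z')) (𝓝 z) (𝓝 ((0 : ℝ), z)) :=
          (continuous_const.prodMk continuous_id).continuousAt
        filter_upwards [h2.eventually hev] with z' hz'
        exact hz'.2.2 (Gf_zero P z')
      have hin : HasFDerivAt (fun z : V n => ((0 : ℝ), z))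
          (ContinuousLinearMap.inr ℝ ℝ (V n)) z := by
        have := (hasFDerivAt_const (0 : ℝ) z).prodMk (hasFDerivAt_id (𝕜 := ℝ) z)
        exact this
      have hd : HasFDerivAt τ (fderiv ℝ τ (0, z)) (0, z) :=
        (hsm.differentiableAt (by simp)).hasFDerivAt
      have h3 : HasFDerivAt (fun z' => τ (0, z')) (Df (0, z)) z := hd.comp z hin
      have h4 : HasFDerivAt (fun z' : V n => τ (0, z')) (0 : V n →L[ℝ] ℂ) z :=
        (hasFDerivAt_const (0 : ℂ) z).congr_of_eventuallyEq h1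
      exact h3.unique h4
    have hcP : ContinuousAt (PJ P) (0, z) := (contDiff_PJ P).continuous.continuousAt
    -- conditions
    have c2 : ∀ᶠ p in 𝓝 ((0 : ℝ), z), 2 * ‖τ p‖ * ‖PJ P p‖ ≤ 1 / 8 := by
      have h1 : Filter.Tendsto (fun p => 2 * ‖τ p‖ * ‖PJ P p‖) (𝓝 ((0 : ℝ), z))
          (𝓝 (2 * ‖τ (0, z)‖ * ‖PJ P (0, z)‖)) :=
        (tendsto_const_nhds.mul hcτ.norm).mul hcP.norm
      rw [hτ0, norm_zero, mul_zero, zero_mul] at h1
      exact (h1.eventually (gt_mem_nhds (show (0 : ℝ) < 1 / 8 by norm_num))).mono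
        fun p hp => hp.le
    have hct : ContinuousAt (fun p => (p, τ p, Df p)) ((0 : ℝ), z) :=
      continuousAt_id.prodMk (hcτ.prodMk hcDf)
    have c4 : ∀ᶠ p in 𝓝 ((0 : ℝ), z), Hf P p (τ p) (Df p) ≠ 0 := by
      have h1 : ContinuousAt (fun p => Hf P p (τ p) (Df p)) ((0 : ℝ), z) :=
        ContinuousAt.comp (f := fun p => (p, τ p, Df p))
          (g := fun q : (ℝ × V n) × ℂ × (V n →L[ℝ] ℂ) => Hf P q.1 q.2.1 q.2.2)
          (continuous_Hf P).continuousAt hct
      refine h1.eventually_ne ?_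
      rw [hτ0, hDf0]
      exact Hf_zero_ne hz0 (hQ z hz0)
    have c3 : ∀ᶠ p in 𝓝 ((0 : ℝ), z),
        ‖ev (lead P) (et P p (τ p) (Df p)) - ev (lead P) (zt P (p, τ p))‖
          ≤ 1 / 2 * ‖PJ P p‖ := by
      obtain ⟨L, U, hU, hL⟩ := ((contDiff_ev (lead P)).contDiffAt (x := z)
        |>.of_le (m := 1) (by simp)).exists_lipschitzOnWith
      have h1 : ContinuousAt (fun p => et P p (τ p) (Df p)) ((0 : ℝ), z) :=
        ContinuousAt.comp (f := fun p => (p, τ p, Df p))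
          (g := fun q : (ℝ × V n) × ℂ × (V n →L[ℝ] ℂ) => et P q.1 q.2.1 q.2.2)
          (continuous_et P).continuousAt hct
      have h2 : ContinuousAt (fun p => zt P (p, τ p)) ((0 : ℝ), z) :=
        ContinuousAt.comp (f := fun p => (p, τ p)) (g := zt P)
          (contDiff_zt P).continuous.continuousAt (continuousAt_id.prodMk hcτ)
      have e1 : ∀ᶠ p in 𝓝 ((0 : ℝ), z), et P p (τ p) (Df p) ∈ U := by
        apply h1
        simp only
        rw [hτ0, hDf0, et_zero]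
        exact hU
      have e2 : ∀ᶠ p in 𝓝 ((0 : ℝ), z), zt P (p, τ p) ∈ U := by
        apply h2
        simp only
        rw [hτ0, zt_zero]
        exact hU
      have e3 : ∀ᶠ p in 𝓝 ((0 : ℝ), z), (L : ℝ) * (2 * ‖Df p‖) ≤ 1 / 2 := by
        have h3 : Filter.Tendsto (fun p => (L : ℝ) * (2 * ‖Df p‖)) (𝓝 ((0 : ℝ), z))
            (𝓝 ((L : ℝ) * (2 * ‖Df (0, z)‖))) :=
          tendsto_const_nhds.mul (tendsto_const_nhds.mul hcDf.norm)
        rw [hDf0, norm_zero, mul_zero, mul_zero] at h3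
        exact (h3.eventually (gt_mem_nhds (show (0 : ℝ) < 1 / 2 by norm_num))).mono
          fun p hp => hp.le
      filter_upwards [e1, e2, e3] with p p1 p2 p3
      have h3 := hL.dist_le_mul _ p1 _ p2
      rw [dist_eq_norm, dist_eq_norm] at h3
      refine h3.trans ?_
      have h4 := et_sub_zt P p (τ p) (Df p)
      calc (L : ℝ) * ‖et P p (τ p) (Df p) - zt P (p, τ p)‖
          ≤ (L : ℝ) * (2 * ‖PJ P p‖ * ‖Df p‖) := mul_le_mul_of_nonneg_left h4 L.2
        _ = (L : ℝ) * (2 * ‖Df p‖) * ‖PJ P p‖ := by ring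
        _ ≤ 1 / 2 * ‖PJ P p‖ := mul_le_mul_of_nonneg_right p3 (norm_nonneg _)
    filter_upwards [hev, c2, c3, c4] with p p1 p2 p3 p4
    refine ⟨p1.2.1, ?_, p2, p3, p4⟩
    have := p1.1
    unfold Gf at this
    exact sub_eq_zero.mp this
  have h2 := (isCompact_Sh (n := n)).eventually_forall_of_forall_eventually (x₀ := (0 : ℝ))
    (P := fun a z => ContDiffAt ℝ ∞ τ (a, z) ∧ Good P (a, z) (τ (a, z)) (Df (a, z))) key
  filter_upwards [h2] with ε hε
  refine ⟨fun z => τ (ε, z), fun z hz => ?_⟩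
  obtain ⟨h3, h4⟩ := hε z hz
  have hin : HasFDerivAt (fun z : V n => (ε, z)) (ContinuousLinearMap.inr ℝ ℝ (V n)) z := by
    have := (hasFDerivAt_const ε z).prodMk (hasFDerivAt_id (𝕜 := ℝ) z)
    exact this
  have hd : HasFDerivAt τ (fderiv ℝ τ (ε, z)) (ε, z) :=
    (h3.differentiableAt (by simp)).hasFDerivAt
  have h5 : HasFDerivAt (fun z' => τ (ε, z')) (Df (ε, z)) z := hd.comp z hin
  refine ⟨?_, ?_⟩
  · have h6 : ContDiffAt ℝ ∞ (fun z : V n => (ε, z)) z :=
      (contDiff_const.prodMk contDiff_id).contDiffAt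
    exact ContDiffAt.comp z h3 h6
  · rw [h5.fderiv]
    exact h4

end Pool.Agent.H60
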