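import Mathlib

set_option autoImplicit false

open MeasureTheory Complex
open scoped ContDiff

noncomputable section

namespace Pool.Agent.H60

/-- The underlying space `ℂⁿ`. -/
abbrev V (n : ℕ) := Fin n → ℂ

variable {n : ℕ}

/-- The Wirtinger derivative in the `j`-th complex direction. -/
def wd (j : Fin n) (u : V n → ℂ) (z : V n) : ℂ :=
  (fderiv ℝ u z (Pi.single j 1) - I * fderiv ℝ u z (Pi.single j I)) / 2

/-- conjugate of a function -/
def cj (u : V n → ℂ) (z : V n) : ℂ := (starRingEnd ℂ) (u z)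

lemma wd_add (j : Fin n) {u v : V n → ℂ} {z : V n} (hu : DifferentiableAt ℝ u z)
    (hv : DifferentiableAt ℝ v z) :
    wd j (fun z => u z + v z) z = wd j u z + wd j v z := by
  unfold wd
  rw [fderiv_fun_add hu hv]
  simp only [_root_.add_apply]
  ring

lemma wd_mul (j : Fin n) {u v : V n → ℂ} {z : V n} (hu : DifferentiableAt ℝ u z)
    (hv : DifferentiableAt ℝ v z) :
    wd j (fun z => u z * v z) z = wd j u z * v z + u z * wd j v z := by
  unfold wd
  rw [fderiv_fun_mul hu hv]
  simp only [_root_.add_apply, _root_.smul_apply, smul_eq_mul]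
  ring

lemma wd_const (j : Fin n) (c : ℂ) (z : V n) : wd j (fun _ => c) z = 0 := by
  unfold wd
  simp

lemma wd_neg (j : Fin n) (u : V n → ℂ) (z : V n) :
    wd j (fun z => - u z) z = - wd j u z := by
  unfold wd
  rw [fderiv_fun_neg]
  simp only [_root_.neg_apply]
  ring

lemma wd_sum (j : Fin n) {ι : Type*} (s : Finset ι) {u : ι → V n → ℂ} {z : V n}
    (hu : ∀ i ∈ s, DifferentiableAt ℝ (u i) z) :
    wd j (fun z => ∑ i ∈ s, u i z) z = ∑ i ∈ s, wd j (u i) z := by
  unfold wd
  rw [fderiv_fun_sum hu]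
  simp only [_root_.sum_apply]
  rw [Finset.mul_sum, ← Finset.sum_sub_distrib, Finset.sum_div]

/-- the Wirtinger derivative of a smooth function is smooth -/
lemma contDiff_wd (j : Fin n) {u : V n → ℂ} (hu : ContDiff ℝ ∞ u) : ContDiff ℝ ∞ (wd j u) := by
  have h1 : ContDiff ℝ ∞ (fun z => fderiv ℝ u z (Pi.single j 1)) :=
    (hu.fderiv_right (m := ∞) (by simp)).clm_apply contDiff_const
  have h2 : ContDiff ℝ ∞ (fun z => fderiv ℝ u z (Pi.single j I)) :=
    (hu.fderiv_right (m := ∞) (by simp)).clm_apply contDiff_const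
  exact (h1.sub (contDiff_const.mul h2)).div_const 2

lemma contDiff_cj {u : V n → ℂ} (hu : ContDiff ℝ ∞ u) : ContDiff ℝ ∞ (cj u) :=
  Complex.conjCLE.contDiff.comp hu

lemma fderiv_cj {u : V n → ℂ} {z : V n} (hu : DifferentiableAt ℝ u z) (v : V n) :
    fderiv ℝ (cj u) z v = (starRingEnd ℂ) (fderiv ℝ u z v) := by
  have h : HasFDerivAt (cj u)
      ((Complex.conjCLE : ℂ →L[ℝ] ℂ).comp (fderiv ℝ u z)) z :=
    (Complex.conjCLE : ℂ →L[ℝ] ℂ).hasFDerivAt.comp z hu.hasFDerivAt
  rw [h.fderiv]
  rfl

/-- entire functions on `ℂⁿ`, as smooth functions -/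
lemma fderiv_real_of_complex {f : V n → ℂ} {z : V n} (hf : DifferentiableAt ℂ f z) (v : V n) :
    fderiv ℝ f z v = fderiv ℂ f z v := by
  rw [(hf.hasFDerivAt.restrictScalars ℝ).fderiv]
  rfl

lemma wd_of_complex (j : Fin n) {f : V n → ℂ} {z : V n} (hf : DifferentiableAt ℂ f z) :
    wd j f z = fderiv ℂ f z (Pi.single j 1) := by
  unfold wd
  rw [fderiv_real_of_complex hf, fderiv_real_of_complex hf]
  have h : (Pi.single j I : V n) = I • (Pi.single j 1 : V n) := by
    rw [← Pi.single_smul]; simp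
  rw [h, map_smul, smul_eq_mul, ← mul_assoc, Complex.I_mul_I]
  ring

lemma wd_cj_of_complex (j : Fin n) {f : V n → ℂ} {z : V n} (hf : DifferentiableAt ℂ f z) :
    wd j (cj f) z = 0 := by
  unfold wd
  have hf' : DifferentiableAt ℝ f z := hf.restrictScalars ℝ
  rw [fderiv_cj hf', fderiv_cj hf', fderiv_real_of_complex hf, fderiv_real_of_complex hf]
  have h : (Pi.single j I : V n) = I • (Pi.single j 1 : V n) := by
    rw [← Pi.single_smul]; simp
  rw [h, map_smul, smul_eq_mul, map_mul, Complex.conj_I]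
  linear_combination ((starRingEnd ℂ) (fderiv ℂ f z (Pi.single j 1)) / 2) * Complex.I_mul_I

/-! ### Truncated powers of a real function -/

lemma hasDerivAt_maxpow (k : ℕ) (hk : 2 ≤ k) (x : ℝ) :
    HasDerivAt (fun x : ℝ => (max x 0) ^ k) (k * (max x 0) ^ (k - 1)) x := by
  rcases lt_trichotomy x 0 with hx | hx | hx
  · have h1 : (fun x : ℝ => (max x 0) ^ k) =ᶠ[nhds x] fun _ => 0 := by
      filter_upwards [Iio_mem_nhds hx] with y hy
      rw [max_eq_right (le_of_lt hy), zero_pow (by omega)]
    rw [max_eq_right hx.le, zero_pow (by omega), mul_zero]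
    exact (hasDerivAt_const x (0 : ℝ)).congr_of_eventuallyEq h1
  · subst hx
    rw [max_self, zero_pow (by omega), mul_zero]
    rw [hasDerivAt_iff_isLittleO_nhds_zero]
    simp only [zero_add, max_self, smul_zero, sub_zero]
    rw [zero_pow (by omega)]
    simp only [sub_zero]
    have h2 : (fun h : ℝ => (max h 0) ^ k) =O[nhds 0] fun h : ℝ => h ^ k := by
      refine Asymptotics.isBigO_of_le _ (fun h => ?_)
      rw [norm_pow, norm_pow]
      apply pow_le_pow_left₀ (norm_nonneg _)
      rw [Real.norm_eq_abs, Real.norm_eq_abs, abs_of_nonneg (le_max_right _ _)]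
      exact max_le (le_abs_self h) (abs_nonneg h)
    refine h2.trans_isLittleO ?_
    have h3 : (fun h : ℝ => h ^ k) =o[nhds 0] fun h : ℝ => h ^ 1 :=
      Asymptotics.isLittleO_pow_pow (by omega)
    simpa using h3
  · have h1 : (fun x : ℝ => (max x 0) ^ k) =ᶠ[nhds x] fun x => x ^ k := by
      filter_upwards [Ioi_mem_nhds hx] with y hy
      rw [max_eq_left (le_of_lt hy)]
    rw [max_eq_left hx.le]
    exact (hasDerivAt_pow k x).congr_of_eventuallyEq h1

/-- The `k`-th power of the positive part of `r`, as a complex valued function. -/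
def rp (r : V n → ℝ) (k : ℕ) (z : V n) : ℂ := (((max (r z) 0) ^ k : ℝ) : ℂ)

/-- the real function `r` seen as complex valued -/
def rc (r : V n → ℝ) (z : V n) : ℂ := (r z : ℂ)

lemma contDiff_rc {r : V n → ℝ} (hr : ContDiff ℝ ∞ r) : ContDiff ℝ ∞ (rc r) :=
  Complex.ofRealCLM.contDiff.comp hr

lemma hasFDerivAt_rp {r : V n → ℝ} (hr : ContDiff ℝ ∞ r) (k : ℕ) (hk : 2 ≤ k) (z : V n) :
    HasFDerivAt (rp r k) (((k : ℂ) * rp r (k - 1) z) • fderiv ℝ (rc r) z) z := by
  have h1 : HasFDerivAt r (fderiv ℝ r z) z :=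
    (hr.differentiable (by simp)).differentiableAt.hasFDerivAt
  have h2 := (hasDerivAt_maxpow k hk (r z)).comp_hasFDerivAt z h1
  have h3 : HasFDerivAt (rp r k)
      (Complex.ofRealCLM.comp (((k : ℝ) * (max (r z) 0) ^ (k - 1)) • fderiv ℝ r z)) z :=
    Complex.ofRealCLM.hasFDerivAt.comp z h2
  have h4 : HasFDerivAt (rc r) (Complex.ofRealCLM.comp (fderiv ℝ r z)) z :=
    Complex.ofRealCLM.hasFDerivAt.comp z h1
  rw [h4.fderiv]
  convert h3 using 1
  ext v
  simp [rp]

lemma continuous_rp {r : V n → ℝ} (hr : ContDiff ℝ ∞ r) (k : ℕ) : Continuous (rp r k) := by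
  unfold rp
  have := hr.continuous
  fun_prop

lemma rp_mul (r : V n → ℝ) (k l : ℕ) (z : V n) : rp r k z * rp r l z = rp r (k + l) z := by
  unfold rp
  rw [← Complex.ofReal_mul, pow_add]

/-- `r` is positive only in a compact set -/
def CptPos (r : V n → ℝ) : Prop := ∃ K : Set (V n), IsCompact K ∧ ∀ z, 0 < r z → z ∈ K

lemma hasCompactSupport_rp_mul {r : V n → ℝ} (hK : CptPos r) (k : ℕ) (hk : k ≠ 0)
    (g : V n → ℂ) : HasCompactSupport (fun z => rp r k z * g z) := by
  obtain ⟨K, hK, hK'⟩ := hK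
  refine HasCompactSupport.of_support_subset_isCompact hK ?_
  intro z hz
  by_contra hzK
  have : ¬ 0 < r z := fun h => hzK (hK' z h)
  apply hz
  simp only [rp]
  rw [max_eq_right (not_lt.mp this), zero_pow hk]
  simp

lemma integrable_rp_mul {r : V n → ℝ} (hr : ContDiff ℝ ∞ r) (hK : CptPos r) (k : ℕ)
    (hk : k ≠ 0) {g : V n → ℂ} (hg : Continuous g) :
    Integrable (fun z => rp r k z * g z) :=
  ((continuous_rp hr k).mul hg).integrable_of_hasCompactSupport
    (hasCompactSupport_rp_mul hK k hk g)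

/-- Integration by parts. -/
lemma ibp {r : V n → ℝ} (hr : ContDiff ℝ ∞ r) (hK : CptPos r) (k : ℕ) (hk : 2 ≤ k)
    (j : Fin n) {g : V n → ℂ} (hg : ContDiff ℝ ∞ g) :
    ∫ z, rp r k z * wd j g z = - ∫ z, rp r (k - 1) z * ((k : ℂ) * wd j (rc r) z * g z) := by
  have hgd : Differentiable ℝ g := hg.differentiable (by simp)
  have hfd : ∀ v : V n, Continuous (fun z => fderiv ℝ g z v) := fun v =>
    ((hg.fderiv_right (m := ∞) (by simp)).clm_apply contDiff_const).continuous
  have hrd : ∀ v : V n, Continuous (fun z => fderiv ℝ (rc r) z v) := fun v =>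
    (((contDiff_rc hr).fderiv_right (m := ∞) (by simp)).clm_apply contDiff_const).continuous
  have key : ∀ v : V n, ∫ z, rp r k z * fderiv ℝ g z v
      = - ∫ z, rp r (k - 1) z * ((k : ℂ) * fderiv ℝ (rc r) z v * g z) := by
    intro v
    have e : ∀ z, fderiv ℝ (rp r k) z v = (k : ℂ) * rp r (k - 1) z * fderiv ℝ (rc r) z v := by
      intro z
      rw [(hasFDerivAt_rp hr k hk z).fderiv]
      simp
    rw [integral_mul_fderiv_eq_neg_fderiv_mul_of_integrable]
    · congr 1
      refine integral_congr_ae (Filter.Eventually.of_forall fun z => ?_)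
      simp only [e]
      ring
    · have : (fun z => fderiv ℝ (rp r k) z v * g z)
          = fun z => rp r (k - 1) z * ((k : ℂ) * fderiv ℝ (rc r) z v * g z) := by
        funext z; rw [e]; ring
      rw [this]
      exact integrable_rp_mul hr hK _ (by omega)
        ((continuous_const.mul (hrd v)).mul hg.continuous)
    · exact integrable_rp_mul hr hK _ (by omega) (hfd v)
    · exact integrable_rp_mul hr hK _ (by omega) hg.continuous
    · intro z _
      exact (hasFDerivAt_rp hr k hk z).differentiableAt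
    · intro z _
      exact hgd z
  have i1 := integrable_rp_mul hr hK k (by omega) (hfd (Pi.single j 1))
  have i2 := integrable_rp_mul hr hK k (by omega) (hfd (Pi.single j I))
  have i3 : Integrable (fun z => rp r (k - 1) z *
      ((k : ℂ) * fderiv ℝ (rc r) z (Pi.single j 1) * g z)) :=
    integrable_rp_mul hr hK (k - 1) (by omega)
      ((continuous_const.mul (hrd (Pi.single j 1))).mul hg.continuous)
  have i4 : Integrable (fun z => rp r (k - 1) z *
      ((k : ℂ) * fderiv ℝ (rc r) z (Pi.single j I) * g z)) :=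
    integrable_rp_mul hr hK (k - 1) (by omega)
      ((continuous_const.mul (hrd (Pi.single j I))).mul hg.continuous)
  calc ∫ z, rp r k z * wd j g z
      = ∫ z, ((1 / 2 : ℂ) * (rp r k z * fderiv ℝ g z (Pi.single j 1))
          - (I / 2) * (rp r k z * fderiv ℝ g z (Pi.single j I))) := by
        refine integral_congr_ae (Filter.Eventually.of_forall fun z => ?_)
        simp only [wd]
        ring
    _ = (1 / 2 : ℂ) * (∫ z, rp r k z * fderiv ℝ g z (Pi.single j 1))
          - (I / 2) * ∫ z, rp r k z * fderiv ℝ g z (Pi.single j I) := by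
        rw [integral_sub (i1.const_mul _) (i2.const_mul _), integral_const_mul,
          integral_const_mul]
    _ = - ((1 / 2 : ℂ) * (∫ z, rp r (k - 1) z * ((k : ℂ) * fderiv ℝ (rc r) z (Pi.single j 1) * g z))
          - (I / 2) * ∫ z, rp r (k - 1) z * ((k : ℂ) * fderiv ℝ (rc r) z (Pi.single j I) * g z)) := by
        rw [key, key]; ring
    _ = - ∫ z, rp r (k - 1) z * ((k : ℂ) * wd j (rc r) z * g z) := by
        rw [← integral_const_mul, ← integral_const_mul, ← integral_sub (i3.const_mul _)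
          (i4.const_mul _)]
        congr 1
        refine integral_congr_ae (Filter.Eventually.of_forall fun z => ?_)
        simp only [wd]
        ring

end Pool.Agent.H60
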